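import Pool.Agent.PS.Defs2

set_option autoImplicit false

/-!
# The Gromov product on the boundary

MP_3de29c_al (Q2), leader helper5.
-/

namespace PS

open Filter Topology
open scoped ENNReal

section

variable {X : Type} {d : X → X → ℝ}

theorem bpr_hyp0 (hh : IsHyp d) : ∃ δ : ℝ, 0 ≤ δ ∧
    ∀ o x y z : X, min (gp d o x y) (gp d o y z) - δ ≤ gp d o x z := by
  obtain ⟨δ, h⟩ := hh
  refine ⟨max δ 0, le_max_right _ _, fun o x y z => ?_⟩
  have h1 := h o x y z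
  have h2 := le_max_left δ 0
  linarith

theorem bpr_gp_comm (hd : IsDist d) (o x y : X) : gp d o x y = gp d o y x := by
  unfold gp
  rw [hd.comm x y]
  ring

theorem bpr_gp_nonneg (hd : IsDist d) (o x y : X) : 0 ≤ gp d o x y := by
  unfold gp
  have h1 := hd.tri x o y
  rw [hd.comm x o] at h1
  linarith

theorem bpr_asy_symm (hd : IsDist d) {o : X} {x y : ℕ → X} (h : Asy d o x y) : Asy d o y x := by
  intro A
  obtain ⟨N, hN⟩ := h A
  refine ⟨N, fun m n hm hn => ?_⟩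
  rw [bpr_gp_comm hd]
  exact hN n m hn hm

theorem bpr_asy_trans (hh : IsHyp d) {o : X} {x y z : ℕ → X} (h : Asy d o x y)
    (h' : Asy d o y z) : Asy d o x z := by
  obtain ⟨δ, -, hδ⟩ := bpr_hyp0 hh
  intro A
  obtain ⟨N, hN⟩ := h (A + δ)
  obtain ⟨N', hN'⟩ := h' (A + δ)
  refine ⟨max N N', fun m n hm hn => ?_⟩
  have h1 := hN m (max N N') (le_trans (le_max_left _ _) hm) (le_max_left _ _)
  have h2 := hN' (max N N') n (le_max_right _ _) (le_trans (le_max_right _ _) hn)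
  have h3 := hδ o (x m) (y (max N N')) (z n)
  have h4 := le_min h1 h2
  linarith

theorem asy_of_mk_eq (hd : IsDist d) (hh : IsHyp d) (o : X) (x y : {x : ℕ → X // ToInf d o x})
    (h : Bdry.mk x = Bdry.mk y) : Asy d o x.1 y.1 := by
  have h1 := Quot.eqvGen_exact h
  clear h
  induction h1 with
  | rel x y h => exact h
  | refl x => exact x.2
  | symm x y _ ih => exact bpr_asy_symm hd ih
  | trans x y z _ _ ih ih' => exact bpr_asy_trans hh ih ih'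

/-- The four point chain. -/
theorem bpr_chain {δ : ℝ} (hδ : ∀ o x y z : X, min (gp d o x y) (gp d o y z) - δ ≤ gp d o x z)
    (h0 : 0 ≤ δ) (o x x' y' y : X) {B b : ℝ} (h1 : B ≤ gp d o x x') (h2 : b ≤ gp d o x' y')
    (h3 : B ≤ gp d o y' y) : min B b - 2 * δ ≤ gp d o x y := by
  have h4 := hδ o x x' y
  have h5 := hδ o x' y' y
  have h6 : min B b - δ ≤ gp d o x' y := by
    have := le_min (le_trans (min_le_right B b) h2) (le_trans (min_le_left B b) h3)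
    linarith
  have h7 : min B b - δ ≤ min (gp d o x x') (gp d o x' y) := by
    refine le_min ?_ h6
    have := min_le_left B b
    linarith
  linarith

theorem bpr_near_aux (hd : IsDist d) {o : X} {δ : ℝ} (h0 : 0 ≤ δ)
    (hδ : ∀ o x y z : X, min (gp d o x y) (gp d o y z) - δ ≤ gp d o x z)
    (x y : {x : ℕ → X // ToInf d o x}) (hxy : Bdry.mk x ≠ Bdry.mk y) :
    ∃ (N : ℕ) (B : ℝ), (∀ m n, N ≤ m → N ≤ n → gp d o (x.1 m) (y.1 n) + 2 * δ < B) ∧
      (∀ m n, N ≤ m → N ≤ n → B ≤ gp d o (x.1 m) (x.1 n)) ∧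
      (∀ m n, N ≤ m → N ≤ n → B ≤ gp d o (y.1 m) (y.1 n)) := by
  have h1 : ¬ Asy d o x.1 y.1 := fun h => hxy (Quot.sound h)
  unfold Asy at h1
  push Not at h1
  obtain ⟨A, hA⟩ := h1
  obtain ⟨N1, hN1⟩ := x.2 (A + 4 * δ + 1)
  obtain ⟨N2, hN2⟩ := y.2 (A + 4 * δ + 1)
  refine ⟨max N1 N2, A + 4 * δ + 1, ?_, ?_, ?_⟩
  · intro m' n' hm' hn'
    by_contra hcon
    push Not at hcon
    obtain ⟨m, n, hm, hn, hmn⟩ := hA (max N1 N2)
    have h2 := hN1 m m' (le_trans (le_max_left _ _) hm) (le_trans (le_max_left _ _) hm')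
    have h3 := hN2 n' n (le_trans (le_max_right _ _) hn') (le_trans (le_max_right _ _) hn)
    have h4 := bpr_chain hδ h0 o (x.1 m) (x.1 m') (y.1 n') (y.1 n) h2
      (b := A + 2 * δ + 1) (by linarith) h3
    rw [min_eq_right (by linarith)] at h4
    linarith
  · intro m n hm hn
    exact hN1 m n (le_trans (le_max_left _ _) hm) (le_trans (le_max_left _ _) hn)
  · intro m n hm hn
    exact hN2 m n (le_trans (le_max_right _ _) hm) (le_trans (le_max_right _ _) hn)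

theorem bprod_near (hd : IsDist d) (hh : IsHyp d) (o : X) : ∃ C : ℝ, 0 ≤ C ∧
    ∀ x y : {x : ℕ → X // ToInf d o x}, Bdry.mk x ≠ Bdry.mk y →
      ∃ N : ℕ, ∀ m n : ℕ, N ≤ m → N ≤ n →
        |gp d o (x.1 m) (y.1 n) - bprod (Bdry.mk x) (Bdry.mk y)| ≤ C := by
  obtain ⟨δ, h0, hδ⟩ := bpr_hyp0 hh
  refine ⟨4 * δ, by linarith, fun x y hxy => ?_⟩
  obtain ⟨N, B, hB, hBx, hBy⟩ := bpr_near_aux hd h0 hδ x y hxy
  have key : ∀ m n, N ≤ m → N ≤ n → ∀ m' n', N ≤ m' → N ≤ n' →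
      gp d o (x.1 m) (y.1 n) - 2 * δ ≤ gp d o (x.1 m') (y.1 n') := by
    intro m n hm hn m' n' hm' hn'
    have h1 := bpr_chain hδ h0 o (x.1 m') (x.1 m) (y.1 n) (y.1 n') (hBx m' m hm' hm) le_rfl
      (hBy n n' hn hn')
    have h2 := hB m n hm hn
    rw [min_eq_right (by linarith)] at h1
    exact h1
  have key2 : ∀ a ∈ {A : ℝ | ∃ x' y' : {x : ℕ → X // ToInf d o x}, Bdry.mk x' = Bdry.mk x ∧
      Bdry.mk y' = Bdry.mk y ∧ ∃ N : ℕ, ∀ m n : ℕ, N ≤ m → N ≤ n →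
        A ≤ gp d o (x'.1 m) (y'.1 n)}, ∀ m n, N ≤ m → N ≤ n →
      a ≤ gp d o (x.1 m) (y.1 n) + 4 * δ := by
    rintro a ⟨x', y', hx', hy', M, hM⟩ m n hm hn
    obtain ⟨N1, hN1⟩ := asy_of_mk_eq hd hh o x x' hx'.symm B
    obtain ⟨N2, hN2⟩ := asy_of_mk_eq hd hh o y' y hy' B
    set K := max (max N N1) (max N2 M) with hK
    have hKN : N ≤ K := le_trans (le_max_left _ _) (le_max_left _ _)
    have hK1 : N1 ≤ K := le_trans (le_max_right _ _) (le_max_left _ _)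
    have hK2 : N2 ≤ K := le_trans (le_max_left _ _) (le_max_right _ _)
    have hKM : M ≤ K := le_trans (le_max_right _ _) (le_max_right _ _)
    have h1 := bpr_chain hδ h0 o (x.1 K) (x'.1 K) (y'.1 K) (y.1 K) (hN1 K K hK1 hK1)
      (hM K K hKM hKM) (hN2 K K hK2 hK2)
    have h2 := hB K K hKN hKN
    have h3 : min B a = a := by
      rcases le_total B a with h | h
      · exfalso
        rw [min_eq_left h] at h1
        linarith
      · exact min_eq_right h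
    rw [h3] at h1
    have h4 := key K K hKN hKN m n hm hn
    linarith
  refine ⟨N, fun m n hm hn => ?_⟩
  have hne : gp d o (x.1 m) (y.1 n) - 2 * δ ∈ {A : ℝ | ∃ x' y' : {x : ℕ → X // ToInf d o x},
      Bdry.mk x' = Bdry.mk x ∧ Bdry.mk y' = Bdry.mk y ∧ ∃ N : ℕ, ∀ m n : ℕ, N ≤ m → N ≤ n →
        A ≤ gp d o (x'.1 m) (y'.1 n)} := ⟨x, y, rfl, rfl, N, key m n hm hn⟩
  have h1 : bprod (Bdry.mk x) (Bdry.mk y) ≤ gp d o (x.1 m) (y.1 n) + 4 * δ :=
    csSup_le ⟨_, hne⟩ fun a ha => key2 a ha m n hm hn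
  have h2 : gp d o (x.1 m) (y.1 n) - 2 * δ ≤ bprod (Bdry.mk x) (Bdry.mk y) :=
    le_csSup ⟨_, fun a ha => key2 a ha m n hm hn⟩ hne
  rw [abs_le]
  constructor <;> linarith

theorem bprod_comm (hd : IsDist d) {o : X} (ξ η : Bdry d o) : bprod ξ η = bprod η ξ := by
  unfold bprod
  congr 1
  ext A
  constructor
  · rintro ⟨x, y, hx, hy, N, hN⟩
    refine ⟨y, x, hy, hx, N, fun m n hm hn => ?_⟩
    rw [bpr_gp_comm hd]
    exact hN n m hn hm
  · rintro ⟨x, y, hx, hy, N, hN⟩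
    refine ⟨y, x, hy, hx, N, fun m n hm hn => ?_⟩
    rw [bpr_gp_comm hd]
    exact hN n m hn hm

theorem bprod_hyp (hd : IsDist d) (hh : IsHyp d) (o : X) : ∃ C : ℝ, 0 ≤ C ∧
    ∀ ξ η ζ : Bdry d o, ξ ≠ η → η ≠ ζ → ξ ≠ ζ →
      min (bprod ξ η) (bprod η ζ) - C ≤ bprod ξ ζ := by
  obtain ⟨δ, h0, hδ⟩ := bpr_hyp0 hh
  obtain ⟨C, hC0, hC⟩ := bprod_near hd hh o
  refine ⟨δ + 2 * C, by linarith, fun ξ η ζ h1 h2 h3 => ?_⟩
  obtain ⟨x, rfl⟩ := Quot.exists_rep ξ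
  obtain ⟨y, rfl⟩ := Quot.exists_rep η
  obtain ⟨z, rfl⟩ := Quot.exists_rep ζ
  obtain ⟨N1, hN1⟩ := hC x y h1
  obtain ⟨N2, hN2⟩ := hC y z h2
  obtain ⟨N3, hN3⟩ := hC x z h3
  set K := max (max N1 N2) N3
  have e1 := abs_le.1 (hN1 K K (le_trans (le_max_left _ _) (le_max_left _ _))
    (le_trans (le_max_left _ _) (le_max_left _ _)))
  have e2 := abs_le.1 (hN2 K K (le_trans (le_max_right _ _) (le_max_left _ _))
    (le_trans (le_max_right _ _) (le_max_left _ _)))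
  have e3 := abs_le.1 (hN3 K K (le_max_right _ _) (le_max_right _ _))
  have e4 := hδ o (x.1 K) (y.1 K) (z.1 K)
  unfold Bdry.mk at e1 e2 e3
  have e5 : min (bprod (Quot.mk _ x) (Quot.mk _ y)) (bprod (Quot.mk _ y) (Quot.mk _ z)) - C ≤
      min (gp d o (x.1 K) (y.1 K)) (gp d o (y.1 K) (z.1 K)) := by
    refine le_min ?_ ?_
    · have := min_le_left (bprod (Quot.mk _ x) (Quot.mk _ y) : ℝ)
        (bprod (Quot.mk _ y) (Quot.mk _ z) : ℝ)
      linarith [e1.1]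
    · have := min_le_right (bprod (Quot.mk _ x) (Quot.mk _ y) : ℝ)
        (bprod (Quot.mk _ y) (Quot.mk _ z) : ℝ)
      linarith [e2.1]
  linarith [e3.2]

theorem bprod_nonneg (hd : IsDist d) {o : X} (ξ η : Bdry d o) : 0 ≤ bprod ξ η := by
  obtain ⟨x, rfl⟩ := Quot.exists_rep ξ
  obtain ⟨y, rfl⟩ := Quot.exists_rep η
  refine Real.sSup_nonneg' ⟨0, ⟨x, y, rfl, rfl, 0, fun m n _ _ => bpr_gp_nonneg hd _ _ _⟩, le_rfl⟩

end

end PS
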