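import Pool.Agent.PS.Defs2

set_option autoImplicit false

/-!
# Geodesics and rough geodesics (abstract)

For MP_3de29c_al (Q2). An integer valued geodesic metric `d` and a rough metric `D` such that
`d`-geodesics are `D`-rough geodesics: existence of paths, points which are `D`-almost between two
points are close to a `d`-geodesic, branch points.
-/

namespace PS

open Filter Topology
open scoped ENNReal

section

variable {X : Type} {d : X → X → ℕ} {D : X → X → ℝ} {α A δ : ℝ}

theorem exists_path (h : Rough d D α A δ) (x y : X) :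
    ∃ γ : ℕ → X, γ 0 = x ∧ γ (d x y) = y ∧
      ∀ i j, i ≤ j → j ≤ d x y → d (γ i) (γ j) = j - i := by
  generalize hn : d x y = n
  induction n generalizing x with
  | zero =>
    refine ⟨fun _ => x, rfl, h.d_eq x y hn, fun i j hij hj => ?_⟩
    have := h.d_self x
    change d x x = j - i
    omega
  | succ n ih =>
    obtain ⟨w, hw1, hw2⟩ := h.d_mid x y 1 n (by omega)
    obtain ⟨p, hp1, hp2, hp3⟩ := ih w hw2
    refine ⟨fun i => if i = 0 then x else p (i - 1), by simp, by simpa using hp2,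
      fun i j hij hj => ?_⟩
    simp only
    split_ifs with h1 h2 h2
    · have := h.d_self x
      omega
    · have e1 := hp3 0 (j - 1) (by omega) (by omega)
      have e2 := hp3 (j - 1) n (by omega) le_rfl
      have e3 := h.d_tri x w (p (j - 1))
      have e4 := h.d_tri x (p (j - 1)) y
      rw [hp1] at e1
      rw [hp2] at e2
      omega
    · omega
    · have e1 := hp3 (i - 1) (j - 1) (by omega) (by omega)
      omega

/-- discrete intermediate values -/
theorem cmpa_ivt (f : ℕ → ℝ) (t : ℝ) (m : ℕ) (h0 : f 0 < t) (hm : t ≤ f m) :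
    ∃ i < m, f i < t ∧ t ≤ f (i + 1) := by
  induction m with
  | zero => exact absurd hm (not_le.mpr h0)
  | succ m ih =>
    by_cases h1 : t ≤ f m
    · obtain ⟨i, hi, h2, h3⟩ := ih h1
      exact ⟨i, by omega, h2, h3⟩
    · exact ⟨m, by omega, not_le.mp h1, hm⟩

theorem cmpa_self_le (h : Rough d D α A δ) (x : X) : D x x ≤ 0 := by
  have := h.up x x
  rw [h.d_self] at this
  simpa using this

theorem cmpa_neg_le (h : Rough d D α A δ) (x y : X) : -δ ≤ D x y := by
  have h1 := h.low x y
  have h2 : (0 : ℝ) ≤ α * d x y := mul_nonneg h.α_pos.le (Nat.cast_nonneg _)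
  linarith

/-- the function `D o (γ i)` along a path changes by at most `A + δ`. -/
theorem cmpa_step (h : Rough d D α A δ) {γ : ℕ → X} {m : ℕ}
    (hγ : ∀ i j, i ≤ j → j ≤ m → d (γ i) (γ j) = j - i) (o : X) {i : ℕ} (hi : i < m) :
    D o (γ (i + 1)) ≤ D o (γ i) + A + δ := by
  have h1 := h.D_tri o (γ i) (γ (i + 1))
  have h2 := h.up (γ i) (γ (i + 1))
  have h3 := hγ i (i + 1) (by omega) (by omega)
  have h4 : d (γ i) (γ (i + 1)) = 1 := by omega
  rw [h4] at h2
  simp only [Nat.cast_one, mul_one] at h2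
  linarith

/-- a value between `-δ` and `D o (γ m) + e` is almost attained along the path. -/
theorem cmpa_pos (h : Rough d D α A δ) {γ : ℕ → X} {m : ℕ}
    (hγ : ∀ i j, i ≤ j → j ≤ m → d (γ i) (γ j) = j - i) {t e : ℝ} (he : 0 ≤ e)
    (ht : -δ ≤ t) (hm : t ≤ D (γ 0) (γ m) + e) :
    ∃ i ≤ m, |D (γ 0) (γ i) - t| ≤ A + δ + e := by
  have hδ := h.δ_pos
  have hA : 0 < A := lt_of_lt_of_le h.α_pos h.A_pos
  by_cases h0 : D (γ 0) (γ 0) < t
  · by_cases h1 : t ≤ D (γ 0) (γ m)
    · obtain ⟨i, hi, h2, h3⟩ := cmpa_ivt (fun i => D (γ 0) (γ i)) t m h0 h1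
      refine ⟨i + 1, by omega, ?_⟩
      have h4 := cmpa_step h hγ (γ 0) hi
      rw [abs_le]
      constructor <;> linarith
    · refine ⟨m, le_rfl, ?_⟩
      rw [abs_le]
      push Not at h1
      constructor <;> linarith
  · refine ⟨0, Nat.zero_le _, ?_⟩
    have h1 := cmpa_self_le h (γ 0)
    push Not at h0
    rw [abs_le]
    constructor <;> linarith

/-- points that are `D`-almost between `x` and `y` are close to a `d`-geodesic. -/
theorem near_geo (h : Rough d D α A δ) (c : ℝ) : ∃ K : ℕ, ∀ x y p : X,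
    D x p + D p y ≤ D x y + c → ∃ w, d x w + d w y = d x y ∧ d p w ≤ K := by
  have hδ := h.δ_pos
  have hA : 0 < A := lt_of_lt_of_le h.α_pos h.A_pos
  have hc := le_abs_self c
  have hc0 := abs_nonneg c
  set e : ℝ := A + δ + (δ + |c|) with he
  refine ⟨⌈(3 * e + |c| + 4 * δ) / α⌉₊, fun x y p hp => ?_⟩
  obtain ⟨q, hq0, hqm, hq⟩ := exists_path h x y
  obtain ⟨i, hi, hi2⟩ : ∃ i ≤ d x y, |D (q 0) (q i) - D x p| ≤ A + δ + (δ + |c|) := by
    apply cmpa_pos h hq (by positivity) (cmpa_neg_le h x p)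
    rw [hq0, hqm]
    have := cmpa_neg_le h p y
    linarith
  rw [hq0, ← he] at hi2
  have hxq : d x (q i) = i := by
    have := hq 0 i (by omega) hi
    rw [hq0] at this
    omega
  have hqy : d (q i) y = d x y - i := by
    have := hq i (d x y) hi le_rfl
    rw [hqm] at this
    exact this
  have hbt : d x (q i) + d (q i) y = d x y := by omega
  refine ⟨q i, hbt, ?_⟩
  have h1 := h.D_hyp x p y (q i)
  have h2 := h.geo x (q i) y hbt
  rw [abs_le] at hi2
  have s1 := h.D_comm y (q i)
  have h3 : D x p - |c| / 2 ≤ gp D x p y := by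
    unfold gp
    linarith
  have h4 : D x (q i) - δ / 2 ≤ gp D x y (q i) := by
    unfold gp
    linarith
  have h5 : D x p - e - |c| / 2 - δ / 2 ≤ min (gp D x p y) (gp D x y (q i)) :=
    le_min (by linarith [hi2.1, hi2.2, abs_nonneg c]) (by linarith [hi2.1, hi2.2])
  have h6 : D p (q i) ≤ 3 * e + |c| + 3 * δ := by
    have h7 : gp D x p (q i) = (D x p + D x (q i) - D p (q i)) / 2 := rfl
    rw [h7] at h1
    linarith [hi2.1, hi2.2]
  have h8 := h.low p (q i)
  have h9 : (d p (q i) : ℝ) ≤ (3 * e + |c| + 4 * δ) / α := by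
    rw [le_div_iff₀ h.α_pos]
    linarith
  exact_mod_cast h9.trans (Nat.le_ceil _)

/-- The position on the geodesic from `o` to `x` where `y` branches off. -/
theorem branch (h : Rough d D α A δ) : ∃ C : ℝ, 0 ≤ C ∧ ∀ (o x y : X) (γ : ℕ → X), γ 0 = o →
    γ (d o x) = x → (∀ i j, i ≤ j → j ≤ d o x → d (γ i) (γ j) = j - i) →
    ∃ i ≤ d o x, |D o (γ i) - gp D o x y| ≤ C ∧
      |gp (fun a b => (d a b : ℝ)) o x y - i| ≤ C ∧
      ∀ j ≤ i, ∃ w, d o w + d w y = d o y ∧ d (γ j) w ≤ C := by
  have hδ := h.δ_pos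
  have hA : 0 < A := lt_of_lt_of_le h.α_pos h.A_pos
  set e : ℝ := A + δ + δ / 2 with he
  have he0 : 0 < e := by positivity
  obtain ⟨K, hK⟩ := near_geo h (2 * (e + 2 * δ) + 4 * δ)
  refine ⟨e + K, by positivity, fun o x y γ h0 hn hγ => ?_⟩
  set n := d o x with hndef
  have hK0 : (0 : ℝ) ≤ K := Nat.cast_nonneg K
  -- bounds for the Gromov product
  have hg : gp D o x y = (D o x + D o y - D x y) / 2 := rfl
  have g1 : -δ ≤ gp D o x y := by
    have := h.D_tri x o y
    have := h.D_comm x o
    rw [hg]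
    linarith
  have g2 : gp D o x y ≤ D o x + δ / 2 := by
    have := h.D_tri o x y
    rw [hg]
    linarith
  obtain ⟨i, hi, hi2⟩ : ∃ i ≤ n, |D (γ 0) (γ i) - gp D o x y| ≤ A + δ + δ / 2 := by
    apply cmpa_pos h hγ (by positivity) g1
    rw [h0, hn]
    exact g2
  rw [h0, ← he, abs_le] at hi2
  -- distances along the path
  have hop : ∀ j ≤ n, d o (γ j) = j := by
    intro j hj
    have := hγ 0 j (by omega) hj
    rw [h0] at this
    omega
  have hpx : ∀ j ≤ n, d (γ j) x = n - j := by
    intro j hj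
    have := hγ j n hj le_rfl
    rw [hn] at this
    exact this
  have hgeo : ∀ j ≤ n, D o (γ j) + D (γ j) x ≤ D o x + δ := by
    intro j hj
    apply h.geo
    have := hop j hj
    have := hpx j hj
    omega
  -- the product of `γ j` and `y`
  have hpy : ∀ j ≤ n, min (D o (γ j) - δ / 2) (gp D o x y) - δ ≤ gp D o (γ j) y := by
    intro j hj
    have h1 := h.D_hyp o (γ j) x y
    have h2 : D o (γ j) - δ / 2 ≤ gp D o (γ j) x := by
      have := hgeo j hj
      unfold gp
      linarith
    have h3 : min (D o (γ j) - δ / 2) (gp D o x y) ≤ min (gp D o (γ j) x) (gp D o x y) :=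
      min_le_min h2 le_rfl
    linarith
  have hgj : ∀ j, gp D o (γ j) y = (D o (γ j) + D o y - D (γ j) y) / 2 := fun j => rfl
  -- points of the path before `i` are close to the geodesic from `o` to `y`
  have key : ∀ j ≤ i, ∃ w, d o w + d w y = d o y ∧ d (γ j) w ≤ K := by
    intro j hj
    apply hK
    have h1 : D o (γ j) + D (γ j) (γ i) ≤ D o (γ i) + δ := by
      apply h.geo
      have := hop j (by omega)
      have := hop i hi
      have := hγ j i hj hi
      omega
    have h2 := cmpa_neg_le h (γ j) (γ i)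
    have h3 := hpy j (by omega)
    have h4 : D o (γ j) - (e + 2 * δ) - δ / 2 ≤ min (D o (γ j) - δ / 2) (gp D o x y) :=
      le_min (by linarith) (by linarith [hi2.1, hi2.2])
    have h5 := hgj j
    linarith
  refine ⟨i, hi, ?_, ?_, ?_⟩
  · rw [abs_le]
    constructor <;> linarith [hi2.1, hi2.2]
  · obtain ⟨w, hw1, hw2⟩ := key i le_rfl
    obtain ⟨w', hw1', hw2'⟩ := hK x y (γ i) (by
      have h3 := hpy i hi
      have h4 : gp D o x y - e - δ / 2 ≤ min (D o (γ i) - δ / 2) (gp D o x y) :=
        le_min (by linarith [hi2.1, hi2.2]) (by linarith)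
      have h5 := hgj i
      have h6 := hgeo i hi
      have s1 := h.D_comm x (γ i)
      linarith)
    have a1 := hop i hi
    have a2 := hpx i hi
    have t1 := h.d_tri x (γ i) y
    have t2 := h.d_tri (γ i) w y
    have t3 := h.d_tri o w (γ i)
    have t4 := h.d_tri x w' (γ i)
    have t5 := h.d_tri o (γ i) w'
    have t6 := h.d_tri o w' y
    have s1 := h.d_comm x (γ i)
    have s2 := h.d_comm w (γ i)
    have s3 := h.d_comm w' (γ i)
    have b1 : d x y + 2 * i ≤ n + d o y + 2 * K := by omega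
    have b2 : n + d o y ≤ d x y + 2 * i + 2 * K := by omega
    have c1 : (d x y : ℝ) + 2 * i ≤ n + d o y + 2 * K := by exact_mod_cast b1
    have c2 : (n : ℝ) + d o y ≤ d x y + 2 * i + 2 * K := by exact_mod_cast b2
    have hgd : gp (fun a b => (d a b : ℝ)) o x y = ((n : ℝ) + d o y - d x y) / 2 := rfl
    rw [hgd, abs_le]
    constructor <;> linarith
  · intro j hj
    obtain ⟨w, hw1, hw2⟩ := key j hj
    refine ⟨w, hw1, ?_⟩
    have : (d (γ j) w : ℝ) ≤ K := by exact_mod_cast hw2
    linarith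

end

end PS
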