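import Pool.Agent.PS.CmpA

set_option autoImplicit false

/-!
# Comparison of Gromov products (abstract)

MP_3de29c_al (Q2), leader helper5.
-/

namespace PS

open Filter Topology
open scoped ENNReal

section

variable {X : Type} {d : X → X → ℕ} {D : X → X → ℝ} {α A δ : ℝ}

theorem rough_hyp (h : Rough d D α A δ) : IsHyp (fun x y : X => (d x y : ℝ)) := by
  obtain ⟨C, hC0, hC⟩ := branch h
  refine ⟨3 * C, fun o x y z => ?_⟩
  obtain ⟨γ, h0, h1, h2⟩ := exists_path h o y
  obtain ⟨i, hi, -, hi2, hi3⟩ := hC o y x γ h0 h1 h2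
  obtain ⟨j, hj, -, hj2, hj3⟩ := hC o y z γ h0 h1 h2
  obtain ⟨w, hw1, hw2⟩ := hi3 (min i j) (min_le_left _ _)
  obtain ⟨w', hw1', hw2'⟩ := hj3 (min i j) (min_le_right _ _)
  have hm : d o (γ (min i j)) = min i j := by
    have := h2 0 (min i j) (Nat.zero_le _) ((min_le_left _ _).trans hi)
    rw [h0, Nat.sub_zero] at this
    exact this
  have hmR : (d o (γ (min i j)) : ℝ) = (min i j : ℕ) := by rw [hm]
  have a1 : (d o (γ (min i j)) : ℝ) ≤ d o w + d (γ (min i j)) w := by
    have := h.d_tri o w (γ (min i j))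
    rw [h.d_comm w] at this
    exact_mod_cast this
  have a2 : (d o (γ (min i j)) : ℝ) ≤ d o w' + d (γ (min i j)) w' := by
    have := h.d_tri o w' (γ (min i j))
    rw [h.d_comm w'] at this
    exact_mod_cast this
  have a3 : (d o w : ℝ) + d w x = d o x := by exact_mod_cast hw1
  have a4 : (d o w' : ℝ) + d w' z = d o z := by exact_mod_cast hw1'
  have a5 : (d x z : ℝ) ≤ d w x + d (γ (min i j)) w + (d (γ (min i j)) w' + d w' z) := by
    have b1 := h.d_tri x w z
    have b2 := h.d_tri w (γ (min i j)) z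
    have b3 := h.d_tri (γ (min i j)) w' z
    rw [h.d_comm x w] at b1
    rw [h.d_comm w (γ (min i j))] at b2
    have : d x z ≤ d w x + d (γ (min i j)) w + (d (γ (min i j)) w' + d w' z) := by omega
    exact_mod_cast this
  have a6 : gp (fun a b => (d a b : ℝ)) o y x = gp (fun a b => (d a b : ℝ)) o x y := by
    simp only [gp, h.d_comm y x]; ring
  rw [a6] at hi2
  rw [abs_le] at hi2 hj2
  have a7 : min (gp (fun a b => (d a b : ℝ)) o x y) (gp (fun a b => (d a b : ℝ)) o y z) - C
      ≤ ((min i j : ℕ) : ℝ) := by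
    rcases le_total i j with hij | hij
    · rw [min_eq_left hij]
      have := min_le_left (gp (fun a b => (d a b : ℝ)) o x y) (gp (fun a b => (d a b : ℝ)) o y z)
      linarith [hi2.2]
    · rw [min_eq_right hij]
      have := min_le_right (gp (fun a b => (d a b : ℝ)) o x y) (gp (fun a b => (d a b : ℝ)) o y z)
      linarith [hj2.2]
  have a8 : gp (fun a b => (d a b : ℝ)) o x z = ((d o x : ℝ) + d o z - d x z) / 2 := rfl
  rw [a8]
  linarith

theorem rough_cmp (h : Rough d D α A δ) : ∃ C : ℝ, 0 ≤ C ∧ ∀ o x y z : X,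
    gp D o x z - gp D o x y ≤
      max (A * (gp (fun a b => (d a b : ℝ)) o x z - gp (fun a b => (d a b : ℝ)) o x y))
        (α * (gp (fun a b => (d a b : ℝ)) o x z - gp (fun a b => (d a b : ℝ)) o x y)) + C := by
  obtain ⟨C, hC0, hC⟩ := branch h
  have hα := h.α_pos
  have hA := h.A_pos
  have hA0 : 0 < A := lt_of_lt_of_le hα hA
  have hδ := h.δ_pos
  refine ⟨2 * C + 2 * δ + 2 * (A * C), by positivity, fun o x y z => ?_⟩
  obtain ⟨γ, h0, h1, h2⟩ := exists_path h o x
  obtain ⟨i, hi, hi1, hi2, -⟩ := hC o x y γ h0 h1 h2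
  obtain ⟨j, hj, hj1, hj2, -⟩ := hC o x z γ h0 h1 h2
  rw [abs_le] at hi1 hi2 hj1 hj2
  have hm : ∀ m ≤ d o x, d o (γ m) = m := by
    intro m hm
    have := h2 0 m (Nat.zero_le _) hm
    rw [h0, Nat.sub_zero] at this
    exact this
  set t := gp (fun a b => (d a b : ℝ)) o x z - gp (fun a b => (d a b : ℝ)) o x y with ht
  have hαC : α * C ≤ A * C := mul_le_mul_of_nonneg_right hA hC0
  rcases le_total i j with hij | hij
  · have b1 : D o (γ j) ≤ D o (γ i) + D (γ i) (γ j) + δ := h.D_tri _ _ _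
    have b2 : D (γ i) (γ j) ≤ A * d (γ i) (γ j) := h.up _ _
    have b3 : (d (γ i) (γ j) : ℝ) = j - i := by
      rw [h2 i j hij hj, Nat.cast_sub hij]
    rw [b3] at b2
    have b4 : A * ((j : ℝ) - i) ≤ A * t + 2 * (A * C) := by
      have : ((j : ℝ) - i) ≤ t + 2 * C := by rw [ht]; linarith [hi2.2, hj2.1]
      have := mul_le_mul_of_nonneg_left this hA0.le
      linarith
    have b5 := le_max_left (A * t) (α * t)
    linarith [hi1.1, hi1.2, hj1.1, hj1.2]
  · have b0 : d o (γ j) + d (γ j) (γ i) = d o (γ i) := by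
      rw [hm j hj, hm i hi, h2 j i hij hi]; omega
    have b1 : D o (γ j) + D (γ j) (γ i) ≤ D o (γ i) + δ := h.geo _ _ _ b0
    have b2 : α * d (γ j) (γ i) - δ ≤ D (γ j) (γ i) := h.low _ _
    have b3 : (d (γ j) (γ i) : ℝ) = i - j := by
      rw [h2 j i hij hi, Nat.cast_sub hij]
    rw [b3] at b2
    have b4 : α * ((j : ℝ) - i) ≤ α * t + 2 * (α * C) := by
      have : ((j : ℝ) - i) ≤ t + 2 * C := by rw [ht]; linarith [hi2.2, hj2.1]
      have := mul_le_mul_of_nonneg_left this hα.le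
      linarith
    have b5 := le_max_right (A * t) (α * t)
    linarith [hi1.1, hi1.2, hj1.1, hj1.2]

end

end PS
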