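import Pool.Agent.PS.Desc

set_option autoImplicit false

/-!
# Exponential growth
-/

namespace PS

open Filter Topology
open scoped ENNReal

section GROW

variable {T : Type} [DecidableEq T] [Fintype T] {G : SimpleGraph T} [DecidableRel G.Adj]
  {E : Type} [NormedAddCommGroup E] [InnerProductSpace ℝ E]

/-- a point near a sphere is far from the disjoint spheres -/
lemma grow_far {x p q : E} (h1 : (29 / 10 : ℝ) ≤ ‖p - q‖ ^ 2) (h2 : ‖x - q‖ ^ 2 < 1 / 2) :
    (99 / 50 : ℝ) ≤ 2 * ‖x - p‖ ^ 2 := by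
  have ha : 0 ≤ ‖x - q‖ := norm_nonneg _
  have hb : 0 ≤ ‖x - p‖ := norm_nonneg _
  have hc : 0 ≤ ‖p - q‖ := norm_nonneg _
  have htri : ‖p - q‖ ≤ ‖x - p‖ + ‖x - q‖ := by
    have h := norm_sub_le (x - q) (x - p)
    have e : x - q - (x - p) = p - q := by abel
    rw [e] at h
    linarith
  have h3 : (17029 / 10000 : ℝ) ≤ ‖p - q‖ := by
    by_contra hcon
    push Not at hcon
    nlinarith
  have h4 : ‖x - q‖ ≤ (7072 / 10000 : ℝ) := by
    by_contra hcon
    push Not at hcon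
    nlinarith
  have h5 : (9957 / 10000 : ℝ) ≤ ‖x - p‖ := by linarith
  nlinarith

/-- the induction -/
lemma grow_aux (P : Sph G E)
    (hc : ∀ A : Finset T, (∀ s ∈ A, ∀ t ∈ A, s ≠ t → G.Adj s t) → A.card ≤ 3) (n : ℕ) :
    ∀ g : RW G, len g = n → g ≠ 1 → (5 / 4 : ℝ) ^ n ≤ FF P g * (5 / 4 : ℝ) ^ nd g := by
  induction n with
  | zero =>
    intro g hn hg
    exact absurd (len_eq_zero.1 hn) hg
  | succ n ih =>
    intro g hn hg
    obtain ⟨s, hs⟩ := exists_desc hg
    obtain ⟨h, hh⟩ : ∃ h, h = sr s * g := ⟨_, rfl⟩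
    have hgs : g = sr s * h := by rw [hh, ← mul_assoc, sr_sq, one_mul]
    have hlen : len h = n := by
      have := desc_iff.1 hs
      rw [← hh] at this
      omega
    have hnd : ¬ Desc h s := by
      rw [ndesc_iff, ← hgs]
      omega
    by_cases h1 : h = 1
    · have hgs' : g = sr s := by rw [hgs, h1, mul_one]
      have hn0 : n = 0 := by rw [← hlen, h1]; exact len_one
      rw [hgs', FF_sr, nd_sr P, hn0]
      norm_num
    · have hF := FF_sr_mul P h1 s
      rw [← hgs] at hF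
      have hFh : 2 ≤ FF P h := two_le_FF P h1
      have hih := ih h hlen h1
      rcases nd_step P hnd with ⟨u, hu, hus, hadj⟩ | hstep
      · have hv := P.nadj s u (Ne.symm hus) hadj
        have hfar := grow_far hv (desc_lt P h1 hu)
        have hF2 : (99 / 50 : ℝ) * FF P h ≤ FF P g := by
          rw [hF]
          exact mul_le_mul_of_nonneg_right hfar (by linarith)
        have h3 : (5 / 4 : ℝ) ^ nd h ≤ (5 / 4 : ℝ) ^ 3 :=
          pow_le_pow_right₀ (by norm_num) (nd_le P hc h)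
        have h4 : (5 / 4 : ℝ) ^ 1 ≤ (5 / 4 : ℝ) ^ nd g :=
          pow_le_pow_right₀ (by norm_num) (nd_pos hg)
        have h5 : (5 / 4 : ℝ) ^ n ≤ FF P h * (5 / 4 : ℝ) ^ 3 :=
          hih.trans (mul_le_mul_of_nonneg_left h3 (by linarith))
        have h6 : FF P g * (5 / 4 : ℝ) ^ 1 ≤ FF P g * (5 / 4 : ℝ) ^ nd g :=
          mul_le_mul_of_nonneg_left h4 (by linarith)
        rw [pow_succ]
        norm_num at h5 h6 ⊢
        linarith
      · rw [← hgs] at hstep
        have h1' := ndesc_lt P h1 hnd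
        have hF2 : FF P h ≤ FF P g := by
          rw [hF]
          have : (1 : ℝ) ≤ 2 * ‖cc P h - P.v s‖ ^ 2 := by linarith
          nlinarith
        rw [hstep, pow_succ, pow_succ, ← mul_assoc]
        have h7 : FF P h * (5 / 4 : ℝ) ^ nd h ≤ FF P g * (5 / 4 : ℝ) ^ nd h :=
          mul_le_mul_of_nonneg_right hF2 (by positivity)
        nlinarith

theorem grow (P : Sph G E)
    (hc : ∀ A : Finset T, (∀ s ∈ A, ∀ t ∈ A, s ≠ t → G.Adj s t) → A.card ≤ 3)
    {g : RW G} (hg : g ≠ 1) : (5 / 4 : ℝ) ^ len g ≤ 2 * FF P g := by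
  have h := grow_aux P hc (len g) g rfl hg
  have hF : 2 ≤ FF P g := two_le_FF P hg
  have h3 : (5 / 4 : ℝ) ^ nd g ≤ (5 / 4 : ℝ) ^ 3 :=
    pow_le_pow_right₀ (by norm_num) (nd_le P hc g)
  have h4 : FF P g * (5 / 4 : ℝ) ^ nd g ≤ FF P g * (5 / 4 : ℝ) ^ 3 :=
    mul_le_mul_of_nonneg_left h3 (by linarith)
  refine h.trans (h4.trans ?_)
  norm_num
  linarith

end GROW

end PS
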