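import Pool.Agent.PS.Near
import Pool.Agent.PS.Grow

set_option autoImplicit false

/-!
# Geodesics are rough geodesics, shadows

MP_3de29c_al (Q2), leader helper5.
-/

namespace PS

open Filter Topology
open scoped ENNReal

section GEO

variable {T : Type} [DecidableEq T] [Fintype T] {G : SimpleGraph T} [DecidableRel G.Adj]
  {E : Type} [NormedAddCommGroup E] [InnerProductSpace ℝ E]

omit [Fintype T] in
theorem geo_inv_ne {x : RW G} (hx : x ≠ 1) : x⁻¹ ≠ 1 := fun h => hx (inv_eq_one.1 h)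

omit [Fintype T] in
theorem geo_sr_sr (s : T) (g : RW G) : sr s * (sr s * g) = g := by
  rw [← mul_assoc, sr_sq, one_mul]

omit [Fintype T] in
theorem geo_len_mul_sr (x : RW G) (s : T) : len (x * sr s) = len (sr s * x⁻¹) := by
  rw [← len_inv (x * sr s), mul_inv_rev, sr_inv]

omit [Fintype T] in
theorem geo_desc (P : Sph G E) {g : RW G} (hg : g ≠ 1) {s : T}
    (h : ‖cc P g - P.v s‖ ≤ 7 / 10) : Desc g s := by
  by_contra hd
  have h1 := ndesc_lt P hg hd
  have h2 : ‖cc P g - P.v s‖ ^ 2 ≤ (7 / 10) ^ 2 := pow_le_pow_left₀ (norm_nonneg _) h 2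
  norm_num at h2
  linarith

theorem sep (P : Sph G E) {κ : ℝ} {S : Set E} (hS : Srf P κ S) (hκ0 : 0 ≤ κ)
    (hκ : κ ≤ 1 / 1000) {x y : RW G} (hx : x ≠ 1) (hy : y ≠ 1)
    (h : len (x * y) = len x + len y) : 1 / 10 ≤ ‖cc P x⁻¹ - cc P y‖ := by
  by_contra hlt
  push Not at hlt
  obtain ⟨u, hu⟩ := centre P hS hκ0 hκ hy
  have h1 : Desc y u := geo_desc P hy (hu.trans (by norm_num))
  have h2 : Desc x⁻¹ u := by
    refine geo_desc P (geo_inv_ne hx) ?_
    have := norm_add_le (cc P x⁻¹ - cc P y) (cc P y - P.v u)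
    rw [sub_add_sub_cancel] at this
    linarith
  have h3 := desc_iff.1 h1
  have h4 := desc_iff.1 h2
  rw [len_inv, ← geo_len_mul_sr] at h4
  have h5 : x * y = (x * sr u) * (sr u * y) := by
    rw [mul_assoc, geo_sr_sr]
  have h6 := len_mul_le (x * sr u) (sr u * y)
  rw [← h5] at h6
  omega

omit [Fintype T] in
theorem geo_mul (P : Sph G E) {x y : RW G} (hx : x ≠ 1) (hy : y ≠ 1) :
    FF P (x * y) = ‖cc P x⁻¹ - cc P y‖ ^ 2 * (FF P x * FF P y) := by
  have h := cc_dist P (geo_inv_ne hx) hy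
  rw [inv_inv, FF_inv] at h
  exact h.symm

theorem FF_geo (P : Sph G E) {κ : ℝ} {S : Set E} (hS : Srf P κ S) (hκ0 : 0 ≤ κ)
    (hκ : κ ≤ 1 / 1000) {x y : RW G} (hx : x ≠ 1) (hy : y ≠ 1)
    (h : len (x * y) = len x + len y) : FF P x * FF P y ≤ 100 * FF P (x * y) := by
  have h1 := sep P hS hκ0 hκ hx hy h
  have h2 : (1 / 10 : ℝ) ^ 2 ≤ ‖cc P x⁻¹ - cc P y‖ ^ 2 := pow_le_pow_left₀ (by norm_num) h1 2
  rw [geo_mul P hx hy]
  have h3 := two_le_FF P hx
  have h4 := two_le_FF P hy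
  have h5 : 0 ≤ FF P x * FF P y := mul_nonneg (by linarith) (by linarith)
  have h6 := mul_le_mul_of_nonneg_right h2 h5
  norm_num at h6
  linarith

omit [Fintype T] in
theorem geo_near_v (P : Sph G E) {g : RW G} (hg : g ≠ 1) : ∃ s, ‖cc P g - P.v s‖ ≤ 1 := by
  obtain ⟨s, hs⟩ := exists_desc hg
  refine ⟨s, ?_⟩
  have h1 := desc_lt P hg hs
  by_contra h2
  push Not at h2
  have h3 : (1 : ℝ) ^ 2 ≤ ‖cc P g - P.v s‖ ^ 2 := pow_le_pow_left₀ (by norm_num) h2.le 2
  rw [one_pow] at h3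
  linarith

theorem cc_bdd (P : Sph G E) : ∃ M : ℝ, 1 ≤ M ∧ ∀ g h : RW G, g ≠ 1 → h ≠ 1 →
    ‖cc P g - cc P h‖ ≤ M := by
  have h0 : ∀ s t : T, 0 ≤ ‖P.v s - P.v t‖ := fun s t => norm_nonneg _
  refine ⟨2 + ∑ s, ∑ t, ‖P.v s - P.v t‖, ?_, ?_⟩
  · have : 0 ≤ ∑ s, ∑ t, ‖P.v s - P.v t‖ :=
      Finset.sum_nonneg fun s _ => Finset.sum_nonneg fun t _ => h0 s t
    linarith
  · intro g h hg hh
    obtain ⟨s, hs⟩ := geo_near_v P hg
    obtain ⟨t, ht⟩ := geo_near_v P hh
    have h1 : ‖P.v s - P.v t‖ ≤ ∑ s, ∑ t, ‖P.v s - P.v t‖ := by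
      have a1 : ‖P.v s - P.v t‖ ≤ ∑ t, ‖P.v s - P.v t‖ :=
        Finset.single_le_sum (f := fun t => ‖P.v s - P.v t‖) (fun t _ => h0 s t)
          (Finset.mem_univ t)
      have a2 : ∑ t, ‖P.v s - P.v t‖ ≤ ∑ s, ∑ t, ‖P.v s - P.v t‖ :=
        Finset.single_le_sum (f := fun s => ∑ t, ‖P.v s - P.v t‖)
          (fun s _ => Finset.sum_nonneg fun t _ => h0 s t) (Finset.mem_univ s)
      exact a1.trans a2
    have h2 : cc P g - cc P h = (cc P g - P.v s) + (P.v s - P.v t) - (cc P h - P.v t) := by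
      abel
    rw [h2]
    have h3 := norm_sub_le ((cc P g - P.v s) + (P.v s - P.v t)) (cc P h - P.v t)
    have h4 := norm_add_le (cc P g - P.v s) (P.v s - P.v t)
    linarith

/-- upper bounds, with the constant of `cc_bdd` -/
theorem FF_mul_le (P : Sph G E) {M : ℝ} (hM : ∀ g h : RW G, g ≠ 1 → h ≠ 1 →
    ‖cc P g - cc P h‖ ≤ M) {x y : RW G} (hx : x ≠ 1) (hy : y ≠ 1) :
    FF P (x * y) ≤ M ^ 2 * (FF P x * FF P y) := by
  rw [geo_mul P hx hy]
  have h3 := two_le_FF P hx
  have h4 := two_le_FF P hy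
  exact mul_le_mul_of_nonneg_right
    (pow_le_pow_left₀ (norm_nonneg _) (hM _ _ (geo_inv_ne hx) hy) 2)
    (mul_nonneg (by linarith) (by linarith))

omit [Fintype T] in
theorem geo_sr_ne (s : T) : (sr s : RW G) ≠ 1 := by
  intro h
  have h1 := len_sr (G := G) s
  rw [h, len_one] at h1
  omega

theorem FF_le_pow (P : Sph G E) : ∃ A : ℝ, 1 ≤ A ∧ ∀ g : RW G, FF P g ≤ A ^ len g := by
  obtain ⟨M, hM1, hM⟩ := cc_bdd P
  have hA : (2 : ℝ) ≤ 2 * M ^ 2 := by nlinarith
  refine ⟨2 * M ^ 2, by linarith, ?_⟩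
  intro g
  induction hn : len g using Nat.strong_induction_on generalizing g with
  | _ n ih =>
    by_cases hg : g = 1
    · subst hg
      rw [FF_one]
      positivity
    · obtain ⟨s, hs⟩ := exists_desc hg
      have h1 := desc_iff.1 hs
      have h2 : n = len (sr s * g) + 1 := by omega
      have h3 := ih (len (sr s * g)) (by omega) (sr s * g) rfl
      by_cases hh : sr s * g = 1
      · have h4 : g = sr s := by
          have := geo_sr_sr s g
          rw [hh, mul_one] at this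
          exact this.symm
        have h5 : n = 1 := by rw [h2, hh, len_one]
        rw [h5, pow_one, h4, FF_sr]
        exact hA
      · have h4 := FF_sr_mul P hh s
        rw [geo_sr_sr] at h4
        have h5 := hM (sr s * g) (sr s) hh (geo_sr_ne s)
        rw [cc_sr] at h5
        have h6 : ‖cc P (sr s * g) - P.v s‖ ^ 2 ≤ M ^ 2 := pow_le_pow_left₀ (norm_nonneg _) h5 2
        have h7 := two_le_FF P hh
        have h8 : (2 * M ^ 2) ^ (len (sr s * g) + 1) =
            2 * M ^ 2 * (2 * M ^ 2) ^ len (sr s * g) := by rw [pow_succ]; ring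
        rw [h4, h2, h8]
        exact mul_le_mul (by linarith) h3 (by linarith) (by linarith)

/-- `F` increases along prefixes -/
theorem FF_mono (P : Sph G E) {g x : RW G} (hg : g ≠ 1) (h : Pre g x) : FF P g ≤ FF P x := by
  have key : ∀ n : ℕ, ∀ y : RW G, len y = n → ∀ g : RW G, g ≠ 1 →
      len (g * y) = len g + len y → FF P g ≤ FF P (g * y) := by
    intro n
    induction n with
    | zero =>
      intro y hy g _ _
      rw [len_eq_zero.1 hy, mul_one]
    | succ n ih =>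
      intro y hy g hg hl
      have hy1 : y ≠ 1 := by
        rintro rfl
        rw [len_one] at hy
        omega
      obtain ⟨s, hs⟩ := exists_desc hy1
      have h1 := desc_iff.1 hs
      have h2 : g * y = (g * sr s) * (sr s * y) := by
        rw [mul_assoc, geo_sr_sr]
      have h3 := len_mul_le (g * sr s) (sr s * y)
      rw [← h2] at h3
      have h4 := len_mul_le g (sr s : RW G)
      rw [len_sr] at h4
      have h5 : len (g * sr s) = len g + 1 := by omega
      have h6 : g * sr s ≠ 1 := by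
        intro h'
        rw [h', len_one] at h5
        omega
      have h7 := ih (sr s * y) (by omega) (g * sr s) h6 (by rw [← h2]; omega)
      rw [← h2] at h7
      refine le_trans ?_ h7
      have h8 : ¬ Desc g⁻¹ s := by
        rw [ndesc_iff, ← geo_len_mul_sr, len_inv, h5]
      have h9 := ndesc_lt P (geo_inv_ne hg) h8
      have h10 := FF_sr_mul P (geo_inv_ne hg) s
      have h11 : FF P (sr s * g⁻¹) = FF P (g * sr s) := by
        rw [← FF_inv P (g * sr s), mul_inv_rev, sr_inv]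
      rw [h11, FF_inv] at h10
      rw [h10]
      have h12 := two_le_FF P hg
      nlinarith
  have h1 := key (len (g⁻¹ * x)) (g⁻¹ * x) rfl g hg (by
    rw [mul_inv_cancel_left]
    exact h.symm)
  rwa [mul_inv_cancel_left] at h1

/-- shadow lemma -/
theorem shadow (P : Sph G E) {κ : ℝ} {S : Set E} (hS : Srf P κ S) (hκ0 : 0 ≤ κ)
    (hκ : κ ≤ 1 / 1000) {g x : RW G} (hg : g ≠ 1) (h : Pre g x) :
    ‖cc P x - cc P g‖ ≤ 10 / FF P g := by
  have hF := two_le_FF P hg
  by_cases hx : g⁻¹ * x = 1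
  · have : x = g := by
      rw [inv_mul_eq_one] at hx
      exact hx.symm
    rw [this, sub_self, norm_zero]
    positivity
  · have hx1 : x ≠ 1 := by
      rintro rfl
      unfold Pre at h
      rw [len_one] at h
      exact hg (len_eq_zero.1 (by omega))
    have hFx := two_le_FF P hx1
    have h1 := cc_dist P hg hx1
    have h2 := FF_geo P hS hκ0 hκ hg hx (by rw [mul_inv_cancel_left]; exact h.symm)
    rw [mul_inv_cancel_left, ← h1] at h2
    rw [norm_sub_rev]
    have h3 : (‖cc P g - cc P x‖ * FF P g) ^ 2 ≤ 10 ^ 2 := by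
      have h4 : (‖cc P g - cc P x‖ * FF P g) ^ 2 * FF P x ≤ 10 ^ 2 * FF P x := by
        calc (‖cc P g - cc P x‖ * FF P g) ^ 2 * FF P x
            = FF P g * (‖cc P g - cc P x‖ ^ 2 * (FF P g * FF P x)) := by ring
          _ ≤ 100 * FF P x := h2
          _ = 10 ^ 2 * FF P x := by norm_num
      exact le_of_mul_le_mul_right h4 (by linarith)
    have h4 : ‖cc P g - cc P x‖ * FF P g ≤ 10 := le_of_sq_le_sq h3 (by norm_num)
    rw [le_div_iff₀ (by linarith)]
    exact h4

end GEO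

end PS
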