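import Pool.Agent.PS.Near
import Pool.Agent.PS.Geo

set_option autoImplicit false

/-!
# Counting descendants

MP_3de29c_al (Q2), leader helper5; module by helper21.
-/

namespace PS

open Filter Topology
open scoped ENNReal

section

variable {T : Type} [DecidableEq T] [Fintype T] {G : SimpleGraph T} [DecidableRel G.Adj]
  {E : Type} [NormedAddCommGroup E] [InnerProductSpace ℝ E]

omit [InnerProductSpace ℝ E] in
theorem Cnt_nonneg {S : Set E} {Cp : ℝ} (hP : Pack S Cp) : 0 ≤ Cp := by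
  have := hP 0 1 1 0 ∅ one_pos le_rfl (by norm_num) le_rfl (by simp) (by simp) (by simp)
  simpa using this

/-- The dyadic class of a real number `≥ 1`. -/
theorem Cnt_log {r : ℝ} (hr : 1 ≤ r) :
    (2 : ℝ) ^ (Nat.log 2 ⌊r⌋₊) ≤ r ∧ r < (2 : ℝ) ^ (Nat.log 2 ⌊r⌋₊ + 1) := by
  have h0 : ⌊r⌋₊ ≠ 0 := by
    have : 1 ≤ ⌊r⌋₊ := Nat.le_floor (by simpa using hr)
    omega
  constructor
  · have h1 : 2 ^ (Nat.log 2 ⌊r⌋₊) ≤ ⌊r⌋₊ := Nat.pow_log_le_self 2 h0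
    have h2 : (⌊r⌋₊ : ℝ) ≤ r := Nat.floor_le (by linarith)
    calc (2 : ℝ) ^ (Nat.log 2 ⌊r⌋₊) = ((2 ^ (Nat.log 2 ⌊r⌋₊) : ℕ) : ℝ) := by push_cast; rfl
      _ ≤ (⌊r⌋₊ : ℝ) := by exact_mod_cast h1
      _ ≤ r := h2
  · have h1 : ⌊r⌋₊ < 2 ^ (Nat.log 2 ⌊r⌋₊ + 1) := Nat.lt_pow_succ_log_self (by norm_num) _
    have h2 : r < (⌊r⌋₊ : ℝ) + 1 := Nat.lt_floor_add_one r
    have h3 : ((⌊r⌋₊ : ℝ)) + 1 ≤ ((2 ^ (Nat.log 2 ⌊r⌋₊ + 1) : ℕ) : ℝ) := by exact_mod_cast h1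
    calc r < (⌊r⌋₊ : ℝ) + 1 := h2
      _ ≤ ((2 ^ (Nat.log 2 ⌊r⌋₊ + 1) : ℕ) : ℝ) := h3
      _ = (2 : ℝ) ^ (Nat.log 2 ⌊r⌋₊ + 1) := by push_cast; rfl

/-- one dyadic class -/
theorem Cnt_class (P : Sph G E) {κ : ℝ} {S : Set E} (hS : Srf P κ S) (hκ0 : 0 ≤ κ) {Cp : ℝ}
    (hP : Pack S Cp) {K : ℝ} (hK : 1 ≤ K) (hκ : 10000 * K * κ ≤ 1)
    {Y : ℝ} (hY1 : 1 ≤ Y) (hYK : Y ≤ K) (z : E) (a : ℕ) (Q : Finset (RW G))
    (hQ : ∀ y ∈ Q, y ≠ 1 ∧ ‖z - cc P y‖ ^ 2 * FF P y ≤ Y ∧ (2 : ℝ) ^ a ≤ 10 * ‖z - cc P y‖ ∧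
      10 * ‖z - cc P y‖ < 2 ^ (a + 1)) :
    (Q.card : ℝ) ≤ 400 * Cp * Y ^ 2 * (1 / 4) ^ a := by
  classical
  have hCp := Cnt_nonneg hP
  have hκ1 : κ ≤ 1 / 1000 := by nlinarith
  have h2a : (1 : ℝ) ≤ 2 ^ a := one_le_pow₀ (by norm_num)
  have h4a : (4 : ℝ) ^ a = (2 ^ a) ^ 2 := by rw [← pow_mul, mul_comm, pow_mul]; norm_num
  rcases Q.eq_empty_or_nonempty with rfl | ⟨y0, hy0⟩
  · simp only [Finset.card_empty, Nat.cast_zero]; positivity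
  have hYpos : 0 < Y := by linarith
  have hsmall : (2 ^ a : ℝ) ^ 2 ≤ 50 * Y := by
    obtain ⟨h1, h2, h3, -⟩ := hQ y0 hy0
    have h4 := two_le_FF P h1
    have h5 : (2 ^ a : ℝ) ^ 2 ≤ (10 * ‖z - cc P y0‖) ^ 2 :=
      pow_le_pow_left₀ (by positivity) h3 2
    nlinarith [sq_nonneg ‖z - cc P y0‖]
  -- bound for F in the class
  have hF : ∀ y ∈ Q, FF P y * (2 ^ a) ^ 2 ≤ 100 * Y := by
    intro y hy
    obtain ⟨h1, h2, h3, -⟩ := hQ y hy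
    have h4 := two_le_FF P h1
    have h5 : (2 ^ a : ℝ) ^ 2 ≤ (10 * ‖z - cc P y‖) ^ 2 :=
      pow_le_pow_left₀ (by positivity) h3 2
    nlinarith [sq_nonneg ‖z - cc P y‖]
  set δ : ℝ := (2 ^ a) ^ 2 / (100 * Y) with hδ
  have hδpos : 0 < δ := by positivity
  have hsep : ∀ y ∈ Q, ∀ y' ∈ Q, y ≠ y' → δ ≤ ‖cc P y - cc P y'‖ := by
    intro y hy y' hy' hne
    have h1 := (hQ y hy).1
    have h1' := (hQ y' hy').1
    have h2 := cc_dist P h1 h1'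
    have h3 : 2 ≤ FF P (y⁻¹ * y') := by
      apply two_le_FF
      intro h
      apply hne
      have := congrArg (fun t => y * t) h
      simpa using this.symm
    rw [← h2] at h3
    have h4 := two_le_FF P h1
    have h4' := two_le_FF P h1'
    have h5 : FF P y * δ ≤ 1 := by
      rw [hδ, ← mul_div_assoc, div_le_one (by positivity)]
      exact hF y hy
    have h5' : FF P y' * δ ≤ 1 := by
      rw [hδ, ← mul_div_assoc, div_le_one (by positivity)]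
      exact hF y' hy'
    by_contra hcon
    push Not at hcon
    have h6 : ‖cc P y - cc P y'‖ ^ 2 < δ ^ 2 := by
      apply pow_lt_pow_left₀ hcon (norm_nonneg _)
      norm_num
    have h7 : ‖cc P y - cc P y'‖ ^ 2 * (FF P y * FF P y') ≤ δ ^ 2 * (FF P y * FF P y') := by
      apply mul_le_mul_of_nonneg_right h6.le
      positivity
    have h8 : δ ^ 2 * (FF P y * FF P y') = (FF P y * δ) * (FF P y' * δ) := by ring
    have h9 : (FF P y * δ) * (FF P y' * δ) ≤ 1 * 1 := by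
      apply mul_le_mul h5 h5' (by positivity) (by norm_num)
    linarith
  have hinj : Set.InjOn (cc P) (Q : Set (RW G)) := by
    intro y hy y' hy' h
    by_contra hne
    have := hsep y hy y' hy' hne
    rw [h] at this
    simp at this
    linarith
  have hcard : (Q.image (cc P)).card = Q.card := Finset.card_image_of_injOn hinj
  have hpk := hP (11 * κ) δ (2 ^ (a + 1) / 10) z (Q.image (cc P)) hδpos (by linarith) ?_ ?_ ?_ ?_ ?_
  · rw [hcard] at hpk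
    refine hpk.trans (le_of_eq ?_)
    rw [hδ]
    have h5 : (2 : ℝ) ^ a ≠ 0 := by positivity
    rw [one_div, inv_pow, h4a]
    field_simp
    rw [pow_succ]
    ring
  · -- 8 * (11 κ) ≤ δ
    rw [hδ, le_div_iff₀ (by positivity)]
    have h6 : κ * Y ≤ κ * K := mul_le_mul_of_nonneg_left hYK hκ0
    have h7 : (1 : ℝ) ≤ (2 ^ a) ^ 2 := one_le_pow₀ h2a
    nlinarith
  · -- δ ≤ ρ
    rw [hδ, div_le_div_iff₀ (by positivity) (by norm_num), pow_succ (2 : ℝ) a]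
    have h6 : (2 : ℝ) ^ a ≤ 20 * Y := by
      by_contra hcon
      push Not at hcon
      nlinarith
    nlinarith
  · intro p hp
    rw [Finset.mem_image] at hp
    obtain ⟨y, hy, rfl⟩ := hp
    exact near' P hS hκ0 hκ1 (hQ y hy).1
  · intro p hp
    rw [Finset.mem_image] at hp
    obtain ⟨y, hy, rfl⟩ := hp
    have := (hQ y hy).2.2.2
    rw [norm_sub_rev]
    linarith
  · intro p hp q hq hpq
    rw [Finset.mem_image] at hp hq
    obtain ⟨y, hy, rfl⟩ := hp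
    obtain ⟨y', hy', rfl⟩ := hq
    exact hsep y hy y' hy' (fun h => hpq (by rw [h]))

theorem Cnt_geom (t : Finset ℕ) : ∑ a ∈ t, (1 / 4 : ℝ) ^ a ≤ 4 / 3 := by
  have hs : Summable (fun a : ℕ => (1 / 4 : ℝ) ^ a) :=
    summable_geometric_of_lt_one (by norm_num) (by norm_num)
  have h1 : ∑ a ∈ t, (1 / 4 : ℝ) ^ a ≤ ∑' a : ℕ, (1 / 4 : ℝ) ^ a :=
    hs.sum_le_tsum t (fun i _ => by positivity)
  rw [tsum_geometric_of_lt_one (by norm_num) (by norm_num)] at h1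
  norm_num at h1 ⊢
  exact h1

theorem cnt (P : Sph G E) {κ : ℝ} {S : Set E} (hS : Srf P κ S) (hκ0 : 0 ≤ κ) {Cp : ℝ}
    (hP : Pack S Cp) {K : ℝ} (hK : 1 ≤ K) (hκ : 10000 * K * κ ≤ 1) {g : RW G} (hg : g ≠ 1)
    {Y : ℝ} (hY1 : 1 ≤ Y) (hYK : Y ≤ K) (Q : Finset (RW G))
    (hQ : ∀ y ∈ Q, y ≠ 1 ∧ len (g * y) = len g + len y ∧ FF P (g * y) ≤ Y * FF P g) :
    (Q.card : ℝ) ≤ 1000 * Cp * Y ^ 2 := by
  classical
  have hCp := Cnt_nonneg hP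
  have hκ1 : κ ≤ 1 / 1000 := by nlinarith
  have hgi : g⁻¹ ≠ 1 := by simpa using hg
  have hFg := two_le_FF P hg
  set z : E := cc P g⁻¹ with hz
  let f : RW G → ℕ := fun y => Nat.log 2 ⌊10 * ‖z - cc P y‖⌋₊
  have h1 : Q.card = ∑ a ∈ Q.image f, (Q.filter (fun y => f y = a)).card :=
    Finset.card_eq_sum_card_fiberwise (fun y hy => Finset.mem_image_of_mem f hy)
  have h2 : ∀ a ∈ Q.image f, ((Q.filter (fun y => f y = a)).card : ℝ)
      ≤ 400 * Cp * Y ^ 2 * (1 / 4) ^ a := by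
    intro a _
    apply Cnt_class P hS hκ0 hP hK hκ hY1 hYK z a
    intro y hy
    rw [Finset.mem_filter] at hy
    obtain ⟨hy, hfa⟩ := hy
    obtain ⟨h3, h4, h5⟩ := hQ y hy
    have h6 : 1 / 10 ≤ ‖z - cc P y‖ := sep P hS hκ0 hκ1 hg h3 h4
    have h7 := Cnt_log (r := 10 * ‖z - cc P y‖) (by linarith)
    have hfa' : Nat.log 2 ⌊10 * ‖z - cc P y‖⌋₊ = a := hfa
    rw [hfa'] at h7
    refine ⟨h3, ?_, h7.1, h7.2⟩
    have h8 := cc_dist P hgi h3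
    rw [inv_inv, FF_inv] at h8
    rw [← hz] at h8
    have h9 : (‖z - cc P y‖ ^ 2 * FF P y) * FF P g ≤ Y * FF P g := by
      calc (‖z - cc P y‖ ^ 2 * FF P y) * FF P g = ‖z - cc P y‖ ^ 2 * (FF P g * FF P y) := by ring
        _ = FF P (g * y) := h8
        _ ≤ Y * FF P g := h5
    exact le_of_mul_le_mul_right h9 (by linarith)
  have h3 : (Q.card : ℝ) ≤ ∑ a ∈ Q.image f, 400 * Cp * Y ^ 2 * (1 / 4 : ℝ) ^ a := by
    rw [h1]
    push_cast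
    exact Finset.sum_le_sum h2
  rw [← Finset.mul_sum] at h3
  have h4 := Cnt_geom (Q.image f)
  have h5 : 0 ≤ 400 * Cp * Y ^ 2 := by positivity
  have h6 : 400 * Cp * Y ^ 2 * ∑ a ∈ Q.image f, (1 / 4 : ℝ) ^ a ≤ 400 * Cp * Y ^ 2 * (4 / 3) :=
    mul_le_mul_of_nonneg_left h4 h5
  have h7 : 0 ≤ Cp * Y ^ 2 := by positivity
  nlinarith

end

end PS
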