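import Pool.Agent.PS.Win

set_option autoImplicit false
set_option linter.unusedSectionVars false

/-!
# Covers

MP_3de29c_al (Q2), leader helper5. Iterated windows.
-/

namespace PS

open Filter Topology
open scoped ENNReal

section

/-- a sum over a union is at most the sum of the sums -/
lemma cov_sum_biUnion_le {ι α : Type} [DecidableEq α] (s : Finset ι) (t : ι → Finset α)
    (f : α → ℝ) (hf : ∀ x, 0 ≤ f x) : ∑ x ∈ s.biUnion t, f x ≤ ∑ i ∈ s, ∑ x ∈ t i, f x := by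
  classical
  induction s using Finset.induction_on with
  | empty => simp
  | insert a s ha ih =>
    rw [Finset.biUnion_insert, Finset.sum_insert ha]
    have h1 := Finset.sum_union_inter (s₁ := t a) (s₂ := s.biUnion t) (f := f)
    have h2 : 0 ≤ ∑ x ∈ t a ∩ s.biUnion t, f x := Finset.sum_nonneg fun x _ => hf x
    linarith

variable {T : Type} [DecidableEq T] [Fintype T] {G : SimpleGraph T} [DecidableRel G.Adj]
  {E : Type} [NormedAddCommGroup E] [InnerProductSpace ℝ E]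

lemma cov_FF_nonneg (P : Sph G E) (g : RW G) : 0 ≤ FF P g := by
  by_cases h : g = 1
  · rw [h, FF_one]
  · linarith [two_le_FF P h]

lemma cov_sr_ne (s : T) : (sr s : RW G) ≠ 1 := by
  intro h
  have h1 := len_sr (G := G) s
  rw [h, len_one] at h1
  omega

lemma cov_pre_sr {x : RW G} {s : T} (h : Desc x s) : Pre (sr s) x := by
  have h1 := desc_iff.1 h
  unfold Pre
  rw [len_sr, sr_inv]
  omega

/-- covers -/
theorem cov (P : Sph G E) {κ : ℝ} {S : Set E} (hS : Srf P κ S) (hκ0 : 0 ≤ κ) {Cp : ℝ}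
    (hP : Pack S Cp) (hCp : 1 ≤ Cp) {K : ℝ} (hK : 2 ≤ K) (hκ : 10000 * K * κ ≤ 1) {p : ℝ}
    (hp : 2 ≤ p) (hKp : 200000 * Cp ^ 2 * K ^ (2 - p) ≤ 1) (m : ℕ) :
    ∃ W : Finset (RW G), (∀ h ∈ W, h ≠ 1 ∧ (2 : ℝ) ^ m ≤ FF P h) ∧
      ∑ h ∈ W, FF P h ^ (-p) ≤ (Fintype.card T : ℝ) * (1 / 2) ^ m ∧
      ∃ N : ℕ, ∀ x, N ≤ len x → ∃ h ∈ W, Pre h x := by
  classical
  induction m with
  | zero =>
    refine ⟨Finset.univ.image (fun s : T => (sr s : RW G)), ?_, ?_, 1, ?_⟩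
    · intro h hh
      obtain ⟨s, _, rfl⟩ := Finset.mem_image.1 hh
      refine ⟨cov_sr_ne s, ?_⟩
      rw [FF_sr, pow_zero]
      norm_num
    · have h1 : ∀ h ∈ Finset.univ.image (fun s : T => (sr s : RW G)), FF P h ^ (-p) ≤ 1 := by
        intro h hh
        obtain ⟨s, _, rfl⟩ := Finset.mem_image.1 hh
        rw [FF_sr]
        exact Real.rpow_le_one_of_one_le_of_nonpos (by norm_num) (by linarith)
      calc ∑ h ∈ Finset.univ.image (fun s : T => (sr s : RW G)), FF P h ^ (-p)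
          ≤ ∑ _h ∈ Finset.univ.image (fun s : T => (sr s : RW G)), (1 : ℝ) :=
            Finset.sum_le_sum h1
        _ = ((Finset.univ.image (fun s : T => (sr s : RW G))).card : ℝ) := by simp
        _ ≤ (Fintype.card T : ℝ) := by
            exact_mod_cast Finset.card_image_le
        _ = (Fintype.card T : ℝ) * (1 / 2) ^ 0 := by simp
    · intro x hx
      have hx1 : x ≠ 1 := by
        rintro rfl
        rw [len_one] at hx
        omega
      obtain ⟨s, hs⟩ := exists_desc hx1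
      exact ⟨sr s, Finset.mem_image.2 ⟨s, Finset.mem_univ _, rfl⟩, cov_pre_sr hs⟩
  | succ m ih =>
    obtain ⟨W, hW1, hW2, N, hN⟩ := ih
    have hwin : ∀ g : RW G, ∃ V : Finset (RW G), ∃ n : ℕ, g ≠ 1 →
        (∀ h ∈ V, h ≠ 1 ∧ K * FF P g ≤ FF P h) ∧
        ∑ h ∈ V, FF P h ^ (-p) ≤ 100000 * Cp ^ 2 * K ^ (2 - p) * FF P g ^ (-p) ∧
        ∀ x, Pre g x → n ≤ len x → ∃ h ∈ V, Pre h x := by
      intro g
      by_cases hg : g = 1
      · exact ⟨∅, 0, fun h => absurd hg h⟩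
      · obtain ⟨V, h1, h2, n, h3⟩ := win P hS hκ0 hP hCp hK hκ hp hg
        exact ⟨V, n, fun _ => ⟨h1, h2, h3⟩⟩
    choose V n hV using hwin
    refine ⟨W.biUnion V, ?_, ?_, max N (W.sup n), ?_⟩
    · intro h hh
      obtain ⟨g, hg, hgh⟩ := Finset.mem_biUnion.1 hh
      obtain ⟨hg1, hg2⟩ := hW1 g hg
      obtain ⟨h1, h2⟩ := (hV g hg1).1 h hgh
      refine ⟨h1, le_trans ?_ h2⟩
      rw [pow_succ, mul_comm]
      exact mul_le_mul hK hg2 (by positivity) (by linarith)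
    · have hnn : ∀ x : RW G, 0 ≤ FF P x ^ (-p) := fun x => Real.rpow_nonneg (cov_FF_nonneg P x) _
      calc ∑ h ∈ W.biUnion V, FF P h ^ (-p) ≤ ∑ g ∈ W, ∑ h ∈ V g, FF P h ^ (-p) :=
            cov_sum_biUnion_le W V _ hnn
        _ ≤ ∑ g ∈ W, 1 / 2 * FF P g ^ (-p) := by
            refine Finset.sum_le_sum fun g hg => ((hV g (hW1 g hg).1).2.1).trans ?_
            exact mul_le_mul_of_nonneg_right (by linarith) (hnn g)
        _ = 1 / 2 * ∑ g ∈ W, FF P g ^ (-p) := by rw [Finset.mul_sum]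
        _ ≤ 1 / 2 * ((Fintype.card T : ℝ) * (1 / 2) ^ m) := by linarith
        _ = (Fintype.card T : ℝ) * (1 / 2) ^ (m + 1) := by ring
    · intro x hx
      obtain ⟨g, hg, hgx⟩ := hN x ((le_max_left _ _).trans hx)
      obtain ⟨h, hh, hhx⟩ := (hV g (hW1 g hg).1).2.2 x hgx
        ((Finset.le_sup hg).trans ((le_max_right _ _).trans hx))
      exact ⟨h, Finset.mem_biUnion.2 ⟨g, hg, hh⟩, hhx⟩

end

end PS
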