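import Mathlib

set_option autoImplicit false

/-!
# Hyperbolic groups, Gromov boundary, conformal dimension; the Coxeter groups of hexagonal tori

Definitions for the statement about MP_3de29c_al (Q2).
-/

namespace PS

open scoped ENNReal

section Metric

variable {X : Type}

/-- The Gromov product `(x|y)_o` of a distance function `d`. -/
noncomputable def gp (d : X → X → ℝ) (o x y : X) : ℝ := (d o x + d o y - d x y) / 2

/-- Gromov hyperbolicity (four point condition). -/
def IsHyp (d : X → X → ℝ) : Prop :=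
  ∃ δ : ℝ, ∀ o x y z : X, min (gp d o x y) (gp d o y z) - δ ≤ gp d o x z

/-- The sequence `x` converges to infinity: `(x_m|x_n)_o → ∞`. -/
def ToInf (d : X → X → ℝ) (o : X) (x : ℕ → X) : Prop :=
  ∀ A : ℝ, ∃ N : ℕ, ∀ m n : ℕ, N ≤ m → N ≤ n → A ≤ gp d o (x m) (x n)

/-- Equivalence of sequences converging to infinity: `(x_m|y_n)_o → ∞`. -/
def Asy (d : X → X → ℝ) (o : X) (x y : ℕ → X) : Prop :=
  ∀ A : ℝ, ∃ N : ℕ, ∀ m n : ℕ, N ≤ m → N ≤ n → A ≤ gp d o (x m) (y n)

/-- The Gromov boundary: classes of sequences converging to infinity. -/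
def Bdry (d : X → X → ℝ) (o : X) : Type :=
  Quot (fun x y : {x : ℕ → X // ToInf d o x} => Asy d o x.1 y.1)

/-- The point of the boundary defined by a sequence. -/
def Bdry.mk {d : X → X → ℝ} {o : X} (x : {x : ℕ → X // ToInf d o x}) : Bdry d o := Quot.mk _ x

/-- The Gromov product of two boundary points: the supremum, over sequences representing them, of
`liminf (x_m|y_n)_o`. -/
noncomputable def bprod {d : X → X → ℝ} {o : X} (ξ η : Bdry d o) : ℝ :=
  sSup {A : ℝ | ∃ x y : {x : ℕ → X // ToInf d o x}, Bdry.mk x = ξ ∧ Bdry.mk y = η ∧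
    ∃ N : ℕ, ∀ m n : ℕ, N ≤ m → N ≤ n → A ≤ gp d o (x.1 m) (y.1 n)}

/-- Visual metrics on the boundary. -/
def IsVisual {d : X → X → ℝ} {o : X} (v : MetricSpace (Bdry d o)) : Prop :=
  ∃ ε C : ℝ, 0 < ε ∧ 0 < C ∧ ∀ ξ η : Bdry d o, ξ ≠ η →
    C⁻¹ * Real.exp (-ε * bprod ξ η) ≤ v.dist ξ η ∧ v.dist ξ η ≤ C * Real.exp (-ε * bprod ξ η)

/-- The identity is a quasisymmetric homeomorphism between the metrics `v` and `w` on `Y`. -/
def QSym {Y : Type} (v w : MetricSpace Y) : Prop :=
  ∃ η : ℝ → ℝ, η 0 = 0 ∧ StrictMonoOn η (Set.Ici 0) ∧ ContinuousOn η (Set.Ici 0) ∧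
    Filter.Tendsto η Filter.atTop Filter.atTop ∧
    ∀ x a b : Y, ∀ t : ℝ, 0 ≤ t → v.dist x a ≤ t * v.dist x b → w.dist x a ≤ η t * w.dist x b

/-- Hausdorff dimension of `Y` for the metric `v`. -/
noncomputable def hdim {Y : Type} (v : MetricSpace Y) : ℝ≥0∞ := @dimH Y (@MetricSpace.toEMetricSpace Y v) Set.univ

/-- The conformal dimension of the boundary: the infimum of the Hausdorff dimensions of the metrics
which are quasisymmetrically equivalent to a visual metric. -/
noncomputable def confDim (d : X → X → ℝ) (o : X) : ℝ≥0∞ :=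
  ⨅ (w : MetricSpace (Bdry d o)) (_ : ∃ v : MetricSpace (Bdry d o), IsVisual v ∧ QSym v w), hdim w

end Metric

section Group

variable {G : Type} [Group G]

/-- Word length with respect to a set `S` of generators. -/
noncomputable def wlen (S : Set G) (g : G) : ℕ :=
  sInf {n : ℕ | ∃ l : List G, l.length = n ∧ (∀ x ∈ l, x ∈ S ∨ x⁻¹ ∈ S) ∧ l.prod = g}

/-- The word metric. -/
noncomputable def wdist (S : Set G) (g h : G) : ℝ := wlen S (g⁻¹ * h)

end Group

/-- Right-angled Coxeter matrix of a graph: adjacent vertices commute, non adjacent ones generate an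
infinite dihedral group. -/
def racg {T : Type} [DecidableEq T] (G : SimpleGraph T) [DecidableRel G.Adj] : CoxeterMatrix T where
  M := Matrix.of fun s t => if s = t then 1 else if G.Adj s t then 2 else 0
  isSymm := by
    ext s t
    simp only [Matrix.transpose_apply, Matrix.of_apply]
    by_cases h : s = t
    · simp [h]
    · rw [if_neg h, if_neg (fun h' => h h'.symm)]
      simp only [G.adj_comm]
  diagonal := by simp
  off_diagonal := by
    intro s t h
    simp only [Matrix.of_apply, if_neg h]
    split_ifs <;> simp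

/-- The triangular lattice modulo `k`: the vertices are the elements of `(ℤ/k)²` and `s`, `t` are
adjacent iff `s - t` is one of `±(1,0), ±(0,1), ±(1,-1)`. -/
def hexTorus (k : ℕ) : SimpleGraph (ZMod k × ZMod k) where
  Adj s t := s ≠ t ∧ s - t ∈ ({(1, 0), (-1, 0), (0, 1), (0, -1), (1, -1), (-1, 1)} :
    Finset (ZMod k × ZMod k))
  symm := ⟨by
    intro s t h
    refine ⟨h.1.symm, ?_⟩
    have h2 := h.2
    have h3 : t - s = -(s - t) := by abel
    rw [h3]
    simp only [Finset.mem_insert, Finset.mem_singleton] at h2 ⊢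
    rcases h2 with h | h | h | h | h | h <;> rw [h] <;> simp⟩
  loopless := ⟨fun s h => h.1 rfl⟩

instance (k : ℕ) : DecidableRel (hexTorus k).Adj := fun s t => by
  unfold hexTorus; infer_instance

/-- The right-angled Coxeter group whose nerve is the flag complex of the triangular lattice
modulo `k`. -/
abbrev Wk (k : ℕ) : Type := (racg (hexTorus k)).Group

/-- The standard generators of `Wk k`. -/
def gens (k : ℕ) : Set (Wk k) := Set.range (racg (hexTorus k)).simple

end PS
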