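import Pool.Agent.PS.Defs

set_option autoImplicit false

/-!
# Working definitions for MP_3de29c_al (Q2)
-/

namespace PS

section RW

variable {T : Type} [DecidableEq T] (G : SimpleGraph T) [DecidableRel G.Adj]

/-- The right-angled Coxeter group of the graph `G`. -/
abbrev RW : Type := (racg G).Group

variable {G}

/-- generator -/
def sr (s : T) : RW G := (racg G).toCoxeterSystem.simple s

/-- Coxeter length -/
noncomputable def len (g : RW G) : ℕ := (racg G).toCoxeterSystem.length g

/-- `s` is a left descent of `g` -/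
def Desc (g : RW G) (s : T) : Prop := len (sr s * g) < len g

/-- `g` is a prefix of `x` (`x = g * y` with lengths adding up). -/
def Pre (g x : RW G) : Prop := len g + len (g⁻¹ * x) = len x

open Classical in
/-- number of left descents -/
noncomputable def nd [Fintype T] (g : RW G) : ℕ := (Finset.univ.filter fun s : T => Desc g s).card

end RW

section Geom

variable {T : Type} [DecidableEq T] (G : SimpleGraph T) [DecidableRel G.Adj]
  (E : Type) [NormedAddCommGroup E] [InnerProductSpace ℝ E]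

/-- Centres of spheres of radius `1/√2`: adjacent spheres are orthogonal, the others disjoint. -/
structure Sph where
  v : T → E
  adj : ∀ s t, G.Adj s t → ‖v s - v t‖ ^ 2 = 1
  nadj : ∀ s t, s ≠ t → ¬ G.Adj s t → (29 / 10 : ℝ) ≤ ‖v s - v t‖ ^ 2

variable {G E}

/-- The Lorentzian form. -/
noncomputable def bf (x y : ℝ × ℝ × E) : ℝ := inner ℝ x.2.2 y.2.2 - (x.1 * y.2.1 + y.1 * x.2.1) / 2

/-- (Half) root of the sphere with centre `v` and radius `1/√2`. -/
noncomputable def rt (v : E) : ℝ × ℝ × E := (1, ‖v‖ ^ 2 - 1 / 2, v)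

/-- Reflection in the sphere with centre `v` and radius `1/√2`. -/
noncomputable def rf (v : E) : (ℝ × ℝ × E) →ₗ[ℝ] (ℝ × ℝ × E) where
  toFun x := x - (4 * bf x (rt v)) • rt v
  map_add' x y := by
    have : bf (x + y) (rt v) = bf x (rt v) + bf y (rt v) := by
      simp only [bf, Prod.snd_add, Prod.fst_add, inner_add_left]; ring
    rw [this]; module
  map_smul' a x := by
    have : bf (a • x) (rt v) = a * bf x (rt v) := by
      simp only [bf, Prod.smul_snd, Prod.smul_fst, inner_smul_left, smul_eq_mul]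
      simp; ring
    rw [this]; simp only [RingHom.id_apply]; module

open Classical in
/-- The linear representation. -/
noncomputable def rep (P : Sph G E) : RW G →* Module.End ℝ (ℝ × ℝ × E) :=
  if h : (racg G).IsLiftable (fun s => (rf (P.v s) : Module.End ℝ (ℝ × ℝ × E))) then
    (racg G).toCoxeterSystem.lift ⟨_, h⟩ else 1

/-- The image of the point at infinity. -/
noncomputable def pt (P : Sph G E) (g : RW G) : ℝ × ℝ × E := rep P g (0, 1, 0)

/-- Inverse of the size of the horoball `g`. -/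
noncomputable def FF (P : Sph G E) (g : RW G) : ℝ := (pt P g).1

/-- Base point of the horoball `g`. -/
noncomputable def cc (P : Sph G E) (g : RW G) : E := (FF P g)⁻¹ • (pt P g).2.2

/-- Inversion in the sphere with centre `v` and radius `1/√2`. -/
noncomputable def inv2 (v x : E) : E := v + (1 / (2 * ‖x - v‖ ^ 2)) • (x - v)

open Classical in
/-- `D(g,h)`, the distance of the horoballs `g`, `h`. -/
noncomputable def DD (P : Sph G E) (g h : RW G) : ℝ :=
  if g = h then 0 else Real.log (FF P (g⁻¹ * h))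

/-- The surface `S` is a good model surface for the configuration, with error `κ`. -/
structure Srf (P : Sph G E) (κ : ℝ) (S : Set E) : Prop where
  mem : ∀ s, P.v s ∈ S
  cov : ∀ z ∈ S, ∃ s, ‖z - P.v s‖ ≤ 29 / 50
  refl : ∀ s, ∀ z ∈ S, 3 / 5 ≤ ‖z - P.v s‖ → ∃ z' ∈ S, ‖inv2 (P.v s) z - z'‖ ≤ κ
  clique : ∀ A : Finset T, (∀ s ∈ A, ∀ t ∈ A, s ≠ t → G.Adj s t) → A.card ≤ 3

/-- Packing property of a two-dimensional set, with constant `C`. -/
def Pack (S : Set E) (C : ℝ) : Prop :=
  ∀ (κ δ ρ : ℝ) (z : E) (A : Finset E), 0 < δ → 0 ≤ κ → 8 * κ ≤ δ → δ ≤ ρ →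
    (∀ a ∈ A, ∃ z' ∈ S, ‖a - z'‖ ≤ κ) → (∀ a ∈ A, ‖a - z‖ ≤ ρ) →
    (∀ a ∈ A, ∀ b ∈ A, a ≠ b → δ ≤ ‖a - b‖) → (A.card : ℝ) ≤ C * (ρ / δ) ^ 2

end Geom

section Rough

/-- An integer valued geodesic metric `d` together with a rough metric `D` such that `d`-geodesics
are `D`-rough geodesics. -/
structure Rough {X : Type} (d : X → X → ℕ) (D : X → X → ℝ) (α A δ : ℝ) : Prop where
  d_self : ∀ x, d x x = 0
  d_comm : ∀ x y, d x y = d y x
  d_tri : ∀ x y z, d x z ≤ d x y + d y z
  d_mid : ∀ x y s t, d x y = s + t → ∃ w, d x w = s ∧ d w y = t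
  d_eq : ∀ x y, d x y = 0 → x = y
  D_comm : ∀ x y, D x y = D y x
  D_tri : ∀ x y z, D x z ≤ D x y + D y z + δ
  D_hyp : ∀ o x y z, min (gp D o x y) (gp D o y z) - δ ≤ gp D o x z
  low : ∀ x y, α * d x y - δ ≤ D x y
  up : ∀ x y, D x y ≤ A * d x y
  geo : ∀ x y z, d x y + d y z = d x z → D x y + D y z ≤ D x z + δ
  α_pos : 0 < α
  A_pos : α ≤ A
  δ_pos : 0 ≤ δ

end Rough

section Tor

/-- `ℂ³` -/
abbrev E3 : Type := EuclideanSpace ℂ (Fin 3)

/-- radius of the torus -/
noncomputable def tR (k : ℕ) : ℝ := 1 / (2 * Real.sqrt 2 * Real.sin (Real.pi / k))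

/-- parametrisation of the torus -/
noncomputable def tph (k : ℕ) (a b : ℝ) : E3 :=
  (tR k : ℂ) • (!₂[Complex.exp (a * Complex.I), Complex.exp (b * Complex.I),
    Complex.exp (-(a + b) * Complex.I)] : E3)

/-- the centres -/
noncomputable def tv (k : ℕ) (s : ZMod k × ZMod k) : E3 :=
  tph k (2 * Real.pi * s.1.val / k) (2 * Real.pi * s.2.val / k)

/-- the torus -/
def tS (k : ℕ) : Set E3 := {z | ∃ a b : ℝ, z = tph k a b}

end Tor

/-- (pseudo)metric axioms for a real valued distance -/
structure IsDist {X : Type} (d : X → X → ℝ) : Prop where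
  self : ∀ x, d x x = 0
  comm : ∀ x y, d x y = d y x
  tri : ∀ x y z, d x z ≤ d x y + d y z

end PS
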