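import Pool.Agent.PS.Ids

set_option autoImplicit false

/-!
# The set of descents

MP_3de29c_al (Q2), leader helper5.
-/

namespace PS

open Filter Topology
open scoped ENNReal

section DESC

variable {T : Type} [DecidableEq T] {G : SimpleGraph T} [DecidableRel G.Adj]
  {E : Type} [NormedAddCommGroup E] [InnerProductSpace ℝ E]

theorem desc_ne_one {g : RW G} {s : T} (h : Desc g s) : g ≠ 1 := by
  intro h1
  unfold Desc at h
  rw [h1, len_one] at h
  omega

theorem desc_not_one (s : T) : ¬ Desc (1 : RW G) s := fun h => desc_ne_one h rfl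

theorem desc_iff_pos (P : Sph G E) {g : RW G} {s : T} :
    Desc g s ↔ 0 < bf (pt P g) (rt (P.v s)) := by
  constructor
  · exact ids_pos P
  · intro h
    by_contra h1
    have := ids_neg P h1
    linarith

theorem desc_adj (P : Sph G E) {g : RW G} {s t : T} (hs : Desc g s) (ht : Desc g t)
    (hst : s ≠ t) : G.Adj s t := by
  by_contra hn
  have h1 := P.nadj s t hst hn
  have h2 := desc_lt P (desc_ne_one hs) hs
  have h3 := desc_lt P (desc_ne_one hs) ht
  have h4 : ‖P.v s - P.v t‖ ≤ ‖cc P g - P.v s‖ + ‖cc P g - P.v t‖ := by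
    have h5 : P.v s - P.v t = (cc P g - P.v t) - (cc P g - P.v s) := by abel
    rw [h5]
    have := norm_sub_le (cc P g - P.v t) (cc P g - P.v s)
    linarith
  have h5 : ‖P.v s - P.v t‖ ^ 2 ≤ (‖cc P g - P.v s‖ + ‖cc P g - P.v t‖) ^ 2 :=
    pow_le_pow_left₀ (norm_nonneg _) h4 2
  nlinarith [sq_nonneg (‖cc P g - P.v s‖ - ‖cc P g - P.v t‖)]

theorem desc_self {h : RW G} {s : T} (hs : ¬ Desc h s) : Desc (sr s * h) s := by
  have h1 := ndesc_iff.1 hs
  unfold Desc
  rw [ids_sr_sr_mul, h1]
  omega

theorem desc_mul (P : Sph G E) {h : RW G} {s t : T} (hs : ¬ Desc h s) (hst : s ≠ t) :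
    Desc (sr s * h) t ↔ G.Adj s t ∧ Desc h t := by
  have key : G.Adj s t → (Desc (sr s * h) t ↔ Desc h t) := by
    intro ha
    rw [desc_iff_pos P, desc_iff_pos P, ids_pt_sr_mul, ids_bf_sub_smul, tits_bf, P.adj s t ha]
    norm_num
  constructor
  · intro h1
    have ha := desc_adj P (desc_self hs) h1 hst
    exact ⟨ha, (key ha).1 h1⟩
  · rintro ⟨ha, h1⟩
    exact (key ha).2 h1

theorem nd_step (P : Sph G E) [Fintype T] {h : RW G} {s : T} (hs : ¬ Desc h s) :
    (∃ u, Desc h u ∧ u ≠ s ∧ ¬ G.Adj s u) ∨ nd (sr s * h) = nd h + 1 := by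
  classical
  by_cases hu : ∃ u, Desc h u ∧ u ≠ s ∧ ¬ G.Adj s u
  · exact Or.inl hu
  · right
    push Not at hu
    unfold nd
    have h1 : (Finset.univ.filter fun t : T => Desc (sr s * h) t) =
        insert s (Finset.univ.filter fun t : T => Desc h t) := by
      ext t
      simp only [Finset.mem_filter, Finset.mem_univ, true_and, Finset.mem_insert]
      by_cases hst : t = s
      · rw [hst]
        simp only [true_or, iff_true]
        exact desc_self hs
      · rw [desc_mul P hs (Ne.symm hst)]
        constructor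
        · rintro ⟨_, h2⟩
          exact Or.inr h2
        · rintro (h2 | h2)
          · exact absurd h2 hst
          · exact ⟨hu t h2 hst, h2⟩
    have h2 : s ∉ (Finset.univ.filter fun t : T => Desc h t) := by
      simp only [Finset.mem_filter, Finset.mem_univ, true_and]
      exact hs
    have h3 := Finset.card_insert_of_notMem h2
    rw [← h1] at h3
    convert h3

theorem nd_le (P : Sph G E) [Fintype T]
    (hc : ∀ A : Finset T, (∀ s ∈ A, ∀ t ∈ A, s ≠ t → G.Adj s t) → A.card ≤ 3) (g : RW G) :
    nd g ≤ 3 := by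
  classical
  unfold nd
  apply hc
  intro s hs t ht hst
  simp only [Finset.mem_filter, Finset.mem_univ, true_and] at hs ht
  exact desc_adj P hs ht hst

theorem nd_pos [Fintype T] {g : RW G} (hg : g ≠ 1) : 1 ≤ nd g := by
  classical
  obtain ⟨s, hs⟩ := exists_desc hg
  unfold nd
  apply Finset.card_pos.2
  refine ⟨s, ?_⟩
  simp only [Finset.mem_filter, Finset.mem_univ, true_and]
  exact hs

theorem nd_sr (P : Sph G E) [Fintype T] (s : T) : nd (sr s : RW G) = 1 := by
  classical
  rcases nd_step P (desc_not_one (G := G) s) with ⟨u, hu, _⟩ | h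
  · exact absurd hu (desc_not_one u)
  · rw [mul_one] at h
    rw [h]
    have : nd (1 : RW G) = 0 := by
      unfold nd
      rw [Finset.card_eq_zero, Finset.filter_eq_empty_iff]
      intro t _
      exact desc_not_one t
    rw [this]

end DESC

end PS
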