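import Pool.Agent.PS.Cov
import Pool.Agent.PS.Bpr

set_option autoImplicit false

/-!
# Dimension of the limit set
-/

namespace PS

open Filter Topology
open scoped ENNReal

section

variable {T : Type} [DecidableEq T] [Fintype T] {G : SimpleGraph T} [DecidableRel G.Adj]
  {E : Type} [NormedAddCommGroup E] [InnerProductSpace ℝ E]

omit [Fintype T] in
theorem dim_len_one : len (1 : RW G) = 0 := by
  unfold len
  simp

omit [Fintype T] in
/-- A sequence converging to infinity has unbounded length. -/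
theorem dim_len (x : ℕ → RW G)
    (hx : ToInf (fun a b : RW G => (len (a⁻¹ * b) : ℝ)) 1 x) (N : ℕ) :
    ∀ᶠ n in atTop, N ≤ len (x n) := by
  obtain ⟨M, hM⟩ := hx N
  filter_upwards [eventually_ge_atTop M] with n hn
  have h := hM n n hn hn
  simp only [gp, inv_one, one_mul, inv_mul_cancel, dim_len_one, Nat.cast_zero, sub_zero] at h
  have : (N : ℝ) ≤ len (x n) := by linarith
  exact_mod_cast this

/-- The limit set is covered by the balls of a cover. -/
theorem dim_cover (P : Sph G E) {κ : ℝ} {S : Set E} (hS : Srf P κ S) (hκ0 : 0 ≤ κ)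
    (hκ : κ ≤ 1 / 1000) (W : Finset (RW G)) (hW : ∀ h ∈ W, h ≠ 1) (N : ℕ)
    (hN : ∀ x, N ≤ len x → ∃ h ∈ W, Pre h x) (x : ℕ → RW G)
    (hx : ToInf (fun a b : RW G => (len (a⁻¹ * b) : ℝ)) 1 x) (z : E)
    (hz : Tendsto (fun n => cc P (x n)) atTop (𝓝 z)) :
    ∃ h ∈ W, z ∈ Metric.closedBall (cc P h) (10 / FF P h) := by
  by_contra hcon
  push Not at hcon
  have h1 : ∀ h ∈ W, ∀ᶠ n in atTop, ¬ Pre h (x n) := by
    intro h hh
    by_contra hf
    have hf' : ∃ᶠ n in atTop, Pre h (x n) := hf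
    refine hcon h hh (Metric.isClosed_closedBall.mem_of_frequently_of_tendsto ?_ hz)
    refine hf'.mono fun n hn => ?_
    rw [Metric.mem_closedBall, dist_eq_norm]
    exact shadow P hS hκ0 hκ (hW h hh) hn
  have h2 := (W.eventually_all (l := atTop)).2 h1
  obtain ⟨n, hn1, hn2⟩ := (h2.and (dim_len x hx N)).exists
  obtain ⟨h, hh, hp⟩ := hN (x n) hn2
  exact hn1 h hh hp

/-- dimension of the limit set -/
theorem dim (P : Sph G E) {κ : ℝ} {S : Set E} (hS : Srf P κ S) (hκ0 : 0 ≤ κ) {Cp : ℝ}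
    (hP : Pack S Cp) (hCp : 1 ≤ Cp) {K : ℝ} (hK : 2 ≤ K) (hκ : 10000 * K * κ ≤ 1) {p : ℝ}
    (hp : 2 ≤ p) (hKp : 200000 * Cp ^ 2 * K ^ (2 - p) ≤ 1)
    (Φ : Bdry (fun a b : RW G => (len (a⁻¹ * b) : ℝ)) 1 → E) (hΦ : Function.Injective Φ)
    (hΦ2 : ∀ x, Tendsto (fun n => cc P (x.1 n)) atTop (𝓝 (Φ (Bdry.mk x)))) :
    hdim (MetricSpace.induced Φ hΦ inferInstance) ≤ ENNReal.ofReal p := by
  have hκ' : κ ≤ 1 / 1000 := by nlinarith
  choose W hW1 hW2 hW3 using cov P hS hκ0 hP hCp hK hκ hp hKp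
  let v : MetricSpace (Bdry (fun a b : RW G => (len (a⁻¹ * b) : ℝ)) 1) :=
    MetricSpace.induced Φ hΦ inferInstance
  have hiso : Isometry Φ := Isometry.of_dist_eq fun _ _ => rfl
  have h1 : hdim v = dimH (Set.range Φ) := by
    rw [← Set.image_univ]
    exact (hiso.dimH_image Set.univ).symm
  have h1' : hdim (MetricSpace.induced Φ hΦ inferInstance) = dimH (Set.range Φ) := h1
  rw [h1']
  borelize E
  have hp0 : (0 : ℝ) ≤ p := by linarith
  have hcov : ∀ m, Set.range Φ ⊆
      ⋃ i : {h // h ∈ W m}, Metric.closedBall (cc P i.1) (10 / FF P i.1) := by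
    rintro m _ ⟨ξ, rfl⟩
    obtain ⟨x, rfl⟩ := Quot.exists_rep ξ
    obtain ⟨N, hN⟩ := hW3 m
    obtain ⟨h, hh, hz⟩ := dim_cover P hS hκ0 hκ' (W m) (fun h hh => (hW1 m h hh).1) N hN x.1 x.2 _
      (hΦ2 x)
    exact Set.mem_iUnion.2 ⟨⟨h, hh⟩, hz⟩
  have hFpos : ∀ m, ∀ h ∈ W m, (2 : ℝ) ^ m ≤ FF P h := fun m h hh => (hW1 m h hh).2
  have hdiam : ∀ m, ∀ i : {h // h ∈ W m},
      Metric.ediam (Metric.closedBall (cc P i.1) (10 / FF P i.1)) ≤
        ENNReal.ofReal (20 / FF P i.1) := by
    intro m i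
    have hF : (0 : ℝ) < FF P i.1 := lt_of_lt_of_le (by positivity) (hFpos m i.1 i.2)
    refine Metric.ediam_le fun a ha b hb => ?_
    rw [edist_dist]
    apply ENNReal.ofReal_le_ofReal
    have h1 := dist_triangle_right a b (cc P i.1)
    rw [Metric.mem_closedBall] at ha hb
    have : (20 : ℝ) / FF P i.1 = 10 / FF P i.1 + 10 / FF P i.1 := by ring
    linarith
  have hmeas : MeasureTheory.Measure.hausdorffMeasure p (Set.range Φ) = 0 := by
    have hle := MeasureTheory.Measure.hausdorffMeasure_le_liminf_sum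
      (ι := fun m => {h // h ∈ W m}) p (Set.range Φ) (l := atTop)
      (fun m : ℕ => ENNReal.ofReal (20 * (1 / 2) ^ m)) (by
        have : Tendsto (fun m : ℕ => (20 : ℝ) * (1 / 2) ^ m) atTop (𝓝 (20 * 0)) :=
          (tendsto_pow_atTop_nhds_zero_of_lt_one (by norm_num) (by norm_num)).const_mul _
        rw [mul_zero] at this
        simpa using ENNReal.tendsto_ofReal this)
      (fun m i => Metric.closedBall (cc P i.1) (10 / FF P i.1))
      (Eventually.of_forall fun m i => (hdiam m i).trans (ENNReal.ofReal_le_ofReal (by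
        have h2 : (0 : ℝ) < 2 ^ m := by positivity
        have := hFpos m i.1 i.2
        rw [div_pow, one_pow, mul_one_div]
        exact div_le_div_of_nonneg_left (by norm_num) h2 this)))
      (Eventually.of_forall hcov)
    have hle2 : ∀ m : ℕ, ∑ i : {h // h ∈ W m},
        Metric.ediam (Metric.closedBall (cc P i.1) (10 / FF P i.1)) ^ p ≤
          ENNReal.ofReal (20 ^ p * ((Fintype.card T : ℝ) * (1 / 2) ^ m)) := by
      intro m
      calc ∑ i : {h // h ∈ W m},
            Metric.ediam (Metric.closedBall (cc P i.1) (10 / FF P i.1)) ^ p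
          ≤ ∑ i : {h // h ∈ W m}, ENNReal.ofReal (20 ^ p * FF P i.1 ^ (-p)) := by
            refine Finset.sum_le_sum fun i _ => ?_
            have hF : (0 : ℝ) < FF P i.1 := lt_of_lt_of_le (by positivity) (hFpos m i.1 i.2)
            refine (ENNReal.rpow_le_rpow (hdiam m i) hp0).trans ?_
            rw [ENNReal.ofReal_rpow_of_nonneg (by positivity) hp0]
            apply ENNReal.ofReal_le_ofReal
            rw [Real.div_rpow (by norm_num) hF.le, Real.rpow_neg hF.le, div_eq_mul_inv]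
        _ = ENNReal.ofReal (∑ i : {h // h ∈ W m}, 20 ^ p * FF P i.1 ^ (-p)) := by
            rw [ENNReal.ofReal_sum_of_nonneg]
            intro i _
            have hF : (0 : ℝ) < FF P i.1 := lt_of_lt_of_le (by positivity) (hFpos m i.1 i.2)
            positivity
        _ ≤ ENNReal.ofReal (20 ^ p * ((Fintype.card T : ℝ) * (1 / 2) ^ m)) := by
            apply ENNReal.ofReal_le_ofReal
            rw [← Finset.mul_sum]
            refine mul_le_mul_of_nonneg_left ?_ (by positivity)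
            have := hW2 m
            rwa [← Finset.sum_coe_sort] at this
    have hlim : Tendsto (fun m : ℕ => ENNReal.ofReal
        (20 ^ p * ((Fintype.card T : ℝ) * (1 / 2) ^ m))) atTop (𝓝 0) := by
      have : Tendsto (fun m : ℕ => (20 : ℝ) ^ p * ((Fintype.card T : ℝ) * (1 / 2) ^ m)) atTop
          (𝓝 (20 ^ p * ((Fintype.card T : ℝ) * 0))) :=
        ((tendsto_pow_atTop_nhds_zero_of_lt_one (by norm_num) (by norm_num)).const_mul _).const_mul _
      rw [mul_zero, mul_zero] at this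
      simpa using ENNReal.tendsto_ofReal this
    have h0 : liminf (fun m : ℕ => ∑ i : {h // h ∈ W m},
        Metric.ediam (Metric.closedBall (cc P i.1) (10 / FF P i.1)) ^ p) atTop ≤ 0 := by
      rw [← hlim.liminf_eq]
      exact liminf_le_liminf (Eventually.of_forall hle2)
    exact le_antisymm (hle.trans h0) zero_le
  have h2 : MeasureTheory.Measure.hausdorffMeasure ((p.toNNReal : NNReal) : ℝ) (Set.range Φ) ≠ ∞ := by
    rw [Real.coe_toNNReal p hp0, hmeas]
    exact ENNReal.zero_ne_top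
  exact dimH_le_of_hausdorffMeasure_ne_top h2

end

end PS
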