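import Pool.Agent.PS.Geo

set_option autoImplicit false

/-!
# The rough metric structure of the group

MP_3de29c_al (Q2), leader helper5.
-/

namespace PS

open Filter Topology
open scoped ENNReal

section DST

variable {T : Type} [DecidableEq T] [Fintype T] {G : SimpleGraph T} [DecidableRel G.Adj]
  {E : Type} [NormedAddCommGroup E] [InnerProductSpace ℝ E]

omit [Fintype T] in
theorem dst_self (P : Sph G E) (g : RW G) : DD P g g = 0 := by
  simp [DD]

omit [Fintype T] in
theorem dst_ne (P : Sph G E) {g h : RW G} (hgh : g ≠ h) :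
    DD P g h = Real.log (FF P (g⁻¹ * h)) := by
  simp [DD, hgh]

omit [Fintype T] in
theorem dst_inv_mul_ne {g h : RW G} (hgh : g ≠ h) : g⁻¹ * h ≠ 1 := fun h' =>
  hgh (inv_mul_eq_one.1 h')

omit [Fintype T] in
theorem dst_nonneg (P : Sph G E) (g h : RW G) : 0 ≤ DD P g h := by
  by_cases hgh : g = h
  · rw [hgh, dst_self]
  · rw [dst_ne P hgh]
    have := two_le_FF P (dst_inv_mul_ne hgh)
    exact Real.log_nonneg (by linarith)

omit [Fintype T] in
theorem dst_comm (P : Sph G E) (g h : RW G) : DD P g h = DD P h g := by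
  by_cases hgh : g = h
  · rw [hgh]
  · rw [dst_ne P hgh, dst_ne P (Ne.symm hgh), ← FF_inv P (g⁻¹ * h), mul_inv_rev, inv_inv]

omit [Fintype T] in
theorem dst_left (P : Sph G E) (o g h : RW G) : DD P (o⁻¹ * g) (o⁻¹ * h) = DD P g h := by
  by_cases hgh : g = h
  · rw [hgh, dst_self, dst_self]
  · have h1 : o⁻¹ * g ≠ o⁻¹ * h := fun h' => hgh (mul_left_cancel h')
    rw [dst_ne P hgh, dst_ne P h1]
    congr 2
    group

omit [Fintype T] in
theorem dst_gp_left (P : Sph G E) (o g h : RW G) :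
    gp (DD P) o g h = gp (DD P) 1 (o⁻¹ * g) (o⁻¹ * h) := by
  simp only [gp]
  rw [dst_left, ← dst_left P o o g, ← dst_left P o o h, inv_mul_cancel]

omit [Fintype T] in
theorem dst_FF_pos (P : Sph G E) {g : RW G} (hg : g ≠ 1) : 0 < FF P g := by
  have := two_le_FF P hg
  linarith

theorem gp_DD (P : Sph G E) {g h : RW G} (hg : g ≠ 1) (hh : h ≠ 1) (hgh : g ≠ h) :
    ‖cc P g - cc P h‖ = Real.exp (-gp (DD P) 1 g h) := by
  have hFg := dst_FF_pos P hg
  have hFh := dst_FF_pos P hh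
  have hF := dst_FF_pos P (dst_inv_mul_ne hgh)
  have h1 := cc_dist P hg hh
  have hn : 0 < ‖cc P g - cc P h‖ := by
    rcases (norm_nonneg (cc P g - cc P h)).lt_or_eq with h2 | h2
    · exact h2
    · rw [← h2] at h1
      simp at h1
      rw [← h1] at hF
      exact absurd hF (lt_irrefl _)
  have h3 : Real.log (FF P (g⁻¹ * h)) =
      2 * Real.log ‖cc P g - cc P h‖ + (Real.log (FF P g) + Real.log (FF P h)) := by
    rw [← h1, Real.log_mul (pow_ne_zero _ hn.ne') (mul_pos hFg hFh).ne', Real.log_pow,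
      Real.log_mul hFg.ne' hFh.ne']
    push_cast
    ring
  have h4 : -gp (DD P) 1 g h = Real.log ‖cc P g - cc P h‖ := by
    rw [gp, dst_ne P (Ne.symm hg), dst_ne P (Ne.symm hh), dst_ne P hgh, inv_one, one_mul, one_mul,
      h3]
    ring
  rw [h4, Real.exp_log hn]

theorem dst_tri (P : Sph G E) {M : ℝ} (hM1 : 1 ≤ M) (hM : ∀ g h : RW G, g ≠ 1 → h ≠ 1 →
    ‖cc P g - cc P h‖ ≤ M) (x y z : RW G) :
    DD P x z ≤ DD P x y + DD P y z + 2 * Real.log M := by
  have hl : 0 ≤ Real.log M := Real.log_nonneg hM1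
  have hxy := dst_nonneg P x y
  have hyz := dst_nonneg P y z
  by_cases h1 : x = z
  · rw [h1, dst_self]
    rw [h1] at hxy
    linarith
  by_cases h2 : x = y
  · rw [h2, dst_self]
    linarith
  by_cases h3 : y = z
  · rw [h3, dst_self]
    linarith
  have ha := dst_inv_mul_ne h2
  have hb := dst_inv_mul_ne h3
  have h4 := FF_mul_le P hM ha hb
  have h5 : x⁻¹ * y * (y⁻¹ * z) = x⁻¹ * z := by group
  rw [h5] at h4
  have hFa := dst_FF_pos P ha
  have hFb := dst_FF_pos P hb
  have h6 := Real.log_le_log (dst_FF_pos P (dst_inv_mul_ne h1)) h4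
  rw [Real.log_mul (by positivity) (mul_pos hFa hFb).ne', Real.log_pow,
    Real.log_mul hFa.ne' hFb.ne'] at h6
  rw [dst_ne P h1, dst_ne P h2, dst_ne P h3]
  push_cast at h6
  linarith

theorem dst_hyp (P : Sph G E) {M : ℝ} (hM1 : 1 ≤ M) (hM : ∀ g h : RW G, g ≠ 1 → h ≠ 1 →
    ‖cc P g - cc P h‖ ≤ M) (x y z : RW G) :
    min (gp (DD P) 1 x y) (gp (DD P) 1 y z) - (Real.log 2 + 2 * Real.log M) ≤
      gp (DD P) 1 x z := by
  have hl : 0 ≤ Real.log M := Real.log_nonneg hM1
  have hl2 : 0 ≤ Real.log 2 := Real.log_nonneg (by norm_num)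
  have hgp0 : -Real.log M ≤ gp (DD P) 1 x z := by
    have := dst_tri P hM1 hM x 1 z
    rw [dst_comm P x 1] at this
    rw [gp]
    linarith
  have hmin1 := min_le_left (gp (DD P) 1 x y) (gp (DD P) 1 y z)
  have hmin2 := min_le_right (gp (DD P) 1 x y) (gp (DD P) 1 y z)
  have hone : ∀ w : RW G, gp (DD P) 1 1 w = 0 := by
    intro w
    rw [gp, dst_self]
    ring
  have hone' : ∀ w : RW G, gp (DD P) 1 w 1 = 0 := by
    intro w
    rw [gp, dst_self, dst_comm P w 1]
    ring
  by_cases hx : x = 1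
  · have h0 := hone y
    rw [hx] at hmin1 hgp0 ⊢
    linarith
  by_cases hy : y = 1
  · have h0 := hone' x
    rw [hy] at hmin1 ⊢
    linarith
  by_cases hz : z = 1
  · have h0 := hone' y
    rw [hz] at hmin2 hgp0 ⊢
    linarith
  by_cases hxy : x = y
  · rw [hxy] at hmin2 ⊢
    linarith
  by_cases hyz : y = z
  · rw [hyz] at hmin1 ⊢
    linarith
  by_cases hxz : x = z
  · have h1 := dst_tri P hM1 hM 1 x y
    have h2 : gp (DD P) 1 x y ≤ gp (DD P) 1 x z + Real.log M := by
      rw [← hxz, gp, gp, dst_self]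
      linarith
    linarith
  have e1 := gp_DD P hx hy hxy
  have e2 := gp_DD P hy hz hyz
  have e3 := gp_DD P hx hz hxz
  have h4 : ‖cc P x - cc P z‖ ≤ ‖cc P x - cc P y‖ + ‖cc P y - cc P z‖ := by
    have := norm_add_le (cc P x - cc P y) (cc P y - cc P z)
    rwa [sub_add_sub_cancel] at this
  set m := min (gp (DD P) 1 x y) (gp (DD P) 1 y z) with hm
  have h5 : Real.exp (-gp (DD P) 1 x z) ≤ Real.exp (Real.log 2 - m) := by
    have a1 : Real.exp (-gp (DD P) 1 x y) ≤ Real.exp (-m) := Real.exp_le_exp.2 (by linarith)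
    have a2 : Real.exp (-gp (DD P) 1 y z) ≤ Real.exp (-m) := Real.exp_le_exp.2 (by linarith)
    rw [sub_eq_add_neg, Real.exp_add, Real.exp_log (by norm_num)]
    rw [e1, e2, e3] at h4
    linarith
  have h6 := Real.exp_le_exp.1 h5
  linarith

theorem rough (P : Sph G E) {κ : ℝ} {S : Set E} (hS : Srf P κ S) (hκ0 : 0 ≤ κ)
    (hκ : κ ≤ 1 / 1000) :
    ∃ α A δ : ℝ, Rough (fun g h : RW G => len (g⁻¹ * h)) (DD P) α A δ := by
  obtain ⟨M, hM1, hM⟩ := cc_bdd P
  obtain ⟨A0, hA1, hA⟩ := FF_le_pow P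
  have hlM : 0 ≤ Real.log M := Real.log_nonneg hM1
  have hl2 : 0 ≤ Real.log 2 := Real.log_nonneg (by norm_num)
  have hl100 : 0 ≤ Real.log 100 := Real.log_nonneg (by norm_num)
  have hα : 0 < Real.log (5 / 4) := Real.log_pos (by norm_num)
  refine ⟨Real.log (5 / 4), max (Real.log A0) (Real.log (5 / 4)),
    Real.log 2 + 2 * Real.log M + Real.log 100, ?_⟩
  refine
    { d_self := ?_, d_comm := ?_, d_tri := ?_, d_mid := ?_, d_eq := ?_, D_comm := dst_comm P,
      D_tri := ?_, D_hyp := ?_, low := ?_, up := ?_, geo := ?_, α_pos := hα,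
      A_pos := le_max_right _ _, δ_pos := by linarith }
  · intro x
    simp only [inv_mul_cancel, len_one]
  · intro x y
    show len (x⁻¹ * y) = len (y⁻¹ * x)
    rw [← len_inv (x⁻¹ * y), mul_inv_rev, inv_inv]
  · intro x y z
    show len (x⁻¹ * z) ≤ len (x⁻¹ * y) + len (y⁻¹ * z)
    have h := len_mul_le (x⁻¹ * y) (y⁻¹ * z)
    have h5 : x⁻¹ * y * (y⁻¹ * z) = x⁻¹ * z := by group
    rwa [h5] at h
  · intro x y s t hst
    obtain ⟨a, b, h1, h2, h3⟩ := exists_split (x⁻¹ * y) s (by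
      have : len (x⁻¹ * y) = s + t := hst
      omega)
    refine ⟨x * a, ?_, ?_⟩
    · show len (x⁻¹ * (x * a)) = s
      rw [inv_mul_cancel_left, h2]
    · show len ((x * a)⁻¹ * y) = t
      rw [mul_inv_rev, mul_assoc, h1, inv_mul_cancel_left]
      have : len (x⁻¹ * y) = s + t := hst
      omega
  · intro x y h
    exact inv_mul_eq_one.1 (len_eq_zero.1 h)
  · intro x y z
    have := dst_tri P hM1 hM x y z
    linarith
  · intro o x y z
    have := dst_hyp P hM1 hM (o⁻¹ * x) (o⁻¹ * y) (o⁻¹ * z)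
    rw [dst_gp_left P o x y, dst_gp_left P o y z, dst_gp_left P o x z]
    linarith
  · intro x y
    show Real.log (5 / 4) * (len (x⁻¹ * y) : ℝ) - _ ≤ _
    by_cases hxy : x = y
    · rw [hxy, dst_self, inv_mul_cancel, len_one]
      push_cast
      linarith
    · rw [dst_ne P hxy]
      have h1 := grow P hS.clique (dst_inv_mul_ne hxy)
      have hF := dst_FF_pos P (dst_inv_mul_ne hxy)
      have h2 := Real.log_le_log (by positivity) h1
      rw [Real.log_pow, Real.log_mul (by norm_num) hF.ne'] at h2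
      linarith
  · intro x y
    show DD P x y ≤ _ * (len (x⁻¹ * y) : ℝ)
    by_cases hxy : x = y
    · rw [hxy, dst_self, inv_mul_cancel, len_one]
      simp
    · rw [dst_ne P hxy]
      have hF := dst_FF_pos P (dst_inv_mul_ne hxy)
      have h2 := Real.log_le_log hF (hA (x⁻¹ * y))
      rw [Real.log_pow] at h2
      have h3 : (len (x⁻¹ * y) : ℝ) * Real.log A0 ≤
          (len (x⁻¹ * y) : ℝ) * max (Real.log A0) (Real.log (5 / 4)) :=
        mul_le_mul_of_nonneg_left (le_max_left _ _) (Nat.cast_nonneg _)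
      linarith
  · intro x y z hd
    have hd' : len (x⁻¹ * y) + len (y⁻¹ * z) = len (x⁻¹ * z) := hd
    have hxz0 := dst_nonneg P x z
    by_cases h2 : x = y
    · rw [h2, dst_self]
      linarith
    by_cases h3 : y = z
    · rw [h3, dst_self]
      linarith
    have h1 : x ≠ z := by
      rintro rfl
      rw [inv_mul_cancel, len_one] at hd'
      exact h2 (inv_mul_eq_one.1 (len_eq_zero.1 (by omega)))
    have ha := dst_inv_mul_ne h2
    have hb := dst_inv_mul_ne h3
    have h5 : x⁻¹ * y * (y⁻¹ * z) = x⁻¹ * z := by group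
    have h4 := FF_geo P hS hκ0 hκ ha hb (by rw [h5]; exact hd'.symm)
    rw [h5] at h4
    have hFa := dst_FF_pos P ha
    have hFb := dst_FF_pos P hb
    have hFc := dst_FF_pos P (dst_inv_mul_ne h1)
    have h6 := Real.log_le_log (mul_pos hFa hFb) h4
    rw [Real.log_mul hFa.ne' hFb.ne', Real.log_mul (by norm_num) hFc.ne'] at h6
    rw [dst_ne P h1, dst_ne P h2, dst_ne P h3]
    linarith

end DST

end PS
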