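import Pool.Agent.PS.CmpB
import Pool.Agent.PS.Bpr

set_option autoImplicit false

/-!
# The boundary map

MP_3de29c_al (Q2), leader helper5; module by helper21.
-/

namespace PS

open Filter Topology
open scoped ENNReal

section

variable {X : Type} {d : X → X → ℕ} {D : X → X → ℝ} {α A δ : ℝ}
  {E : Type} [NormedAddCommGroup E] [CompleteSpace E]

theorem Lim_ne {d' : X → X → ℝ} (hd : IsDist d') {o : X} {x : ℕ → X} (hx : ToInf d' o x)
    (B : ℝ) : ∃ N, ∀ n, N ≤ n → B < d' o (x n) := by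
  obtain ⟨N, hN⟩ := hx (B + 1)
  refine ⟨N, fun n hn => ?_⟩
  have h1 := hN n n hn hn
  unfold gp at h1
  rw [hd.self] at h1
  linarith

omit [CompleteSpace E] in
/-- sequences at bounded angle have close images -/
theorem Lim_close {d' : X → X → ℝ} (hd : IsDist d') {o : X} {C0 : ℝ} (hα : 0 < α)
    (hlow : ∀ x y, α * gp d' o x y - C0 ≤ gp D o x y) (c : X → E)
    (hc : ∀ x y, x ≠ o → y ≠ o → x ≠ y → ‖c x - c y‖ = Real.exp (-gp D o x y))
    {x y : ℕ → X} (hx : ToInf d' o x) (hy : ToInf d' o y) (hxy : Asy d' o x y) {ε : ℝ}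
    (hε : 0 < ε) : ∃ N, ∀ m n, N ≤ m → N ≤ n → ‖c (x m) - c (y n)‖ < ε := by
  obtain ⟨N1, h1⟩ := Lim_ne hd hx 0
  obtain ⟨N2, h2⟩ := Lim_ne hd hy 0
  obtain ⟨N3, h3⟩ := hxy ((C0 - Real.log (ε / 2)) / α)
  refine ⟨max N1 (max N2 N3), fun m n hm hn => ?_⟩
  have hm1 : N1 ≤ m := le_trans (le_max_left _ _) hm
  have hn2 : N2 ≤ n := le_trans (le_trans (le_max_left _ _) (le_max_right _ _)) hn
  have hm3 : N3 ≤ m := le_trans (le_trans (le_max_right _ _) (le_max_right _ _)) hm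
  have hn3 : N3 ≤ n := le_trans (le_trans (le_max_right _ _) (le_max_right _ _)) hn
  by_cases heq : x m = y n
  · rw [heq, sub_self, norm_zero]; exact hε
  have e1 : x m ≠ o := by
    intro h
    have := h1 m hm1
    rw [h, hd.self] at this
    exact lt_irrefl _ this
  have e2 : y n ≠ o := by
    intro h
    have := h2 n hn2
    rw [h, hd.self] at this
    exact lt_irrefl _ this
  rw [hc _ _ e1 e2 heq]
  have h4 := h3 m n hm3 hn3
  rw [div_le_iff₀ hα] at h4
  have h5 := hlow (x m) (y n)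
  have h6 : -gp D o (x m) (y n) ≤ Real.log (ε / 2) := by nlinarith
  calc Real.exp (-gp D o (x m) (y n)) ≤ Real.exp (Real.log (ε / 2)) := Real.exp_le_exp.2 h6
    _ = ε / 2 := Real.exp_log (by linarith)
    _ < ε := by linarith

theorem Lim_aux {d' : X → X → ℝ} (hd : IsDist d') (hh : IsHyp d') (o : X) {C0 : ℝ}
    (hα : 0 < α) (hαA : α ≤ A)
    (hlow : ∀ x y, α * gp d' o x y - C0 ≤ gp D o x y)
    (hup : ∀ x y, gp D o x y ≤ A * gp d' o x y + C0)
    (hcmp : ∀ x y z, gp D o x z - gp D o x y ≤ max (A * (gp d' o x z - gp d' o x y))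
      (α * (gp d' o x z - gp d' o x y)) + C0) (c : X → E)
    (hc : ∀ x y, x ≠ o → y ≠ o → x ≠ y → ‖c x - c y‖ = Real.exp (-gp D o x y)) :
    ∃ Φ : Bdry d' o → E, Function.Injective Φ ∧
      (∀ x, Tendsto (fun n => c (x.1 n)) atTop (𝓝 (Φ (Bdry.mk x)))) ∧
      ∃ C : ℝ, 0 < C ∧ ∀ ξ η ζ, ξ ≠ η → ξ ≠ ζ → ‖Φ ξ - Φ η‖ ≤
        C * max (Real.exp (A * (bprod ξ ζ - bprod ξ η))) (Real.exp (α * (bprod ξ ζ - bprod ξ η)))
          * ‖Φ ξ - Φ ζ‖ := by
  have hA : 0 < A := lt_of_lt_of_le hα hαA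
  -- limits exist
  have hlim : ∀ x : {x : ℕ → X // ToInf d' o x}, ∃ L : E,
      Tendsto (fun n => c (x.1 n)) atTop (𝓝 L) := by
    intro x
    apply cauchySeq_tendsto_of_complete
    rw [Metric.cauchySeq_iff]
    intro ε hε
    obtain ⟨N, hN⟩ := Lim_close hd hα hlow c hc x.2 x.2 x.2 hε
    refine ⟨N, fun m hm n hn => ?_⟩
    rw [dist_eq_norm]
    exact hN m n hm hn
  choose L hL using hlim
  have hLeq : ∀ x y : {x : ℕ → X // ToInf d' o x}, Bdry.mk x = Bdry.mk y → L x = L y := by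
    intro x y hxy
    have h1 : Asy d' o x.1 y.1 := asy_of_mk_eq hd hh o x y hxy
    have h2 : Tendsto (fun n => c (x.1 n) - c (y.1 n)) atTop (𝓝 0) := by
      rw [Metric.tendsto_atTop]
      intro ε hε
      obtain ⟨N, hN⟩ := Lim_close hd hα hlow c hc x.2 y.2 h1 hε
      refine ⟨N, fun n hn => ?_⟩
      rw [dist_zero_right]
      exact hN n n hn hn
    have h3 := (hL x).sub (hL y)
    have h4 := tendsto_nhds_unique h3 h2
    exact sub_eq_zero.1 h4
  -- every point has a representative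
  have hrep : ∀ ξ : Bdry d' o, ∃ x : {x : ℕ → X // ToInf d' o x}, Bdry.mk x = ξ := by
    intro ξ
    exact Quot.exists_rep ξ
  choose r hr using hrep
  let Φ : Bdry d' o → E := fun ξ => L (r ξ)
  have hΦ : ∀ x : {x : ℕ → X // ToInf d' o x}, Φ (Bdry.mk x) = L x := by
    intro x
    exact hLeq _ _ (hr (Bdry.mk x))
  obtain ⟨C', hC'0, hC'⟩ := bprod_near hd hh o
  -- eventually different
  have hne : ∀ x : {x : ℕ → X // ToInf d' o x}, ∃ N, ∀ n, N ≤ n → x.1 n ≠ o := by
    intro x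
    obtain ⟨N, hN⟩ := Lim_ne hd x.2 0
    refine ⟨N, fun n hn h => ?_⟩
    have := hN n hn
    rw [h, hd.self] at this
    exact lt_irrefl _ this
  have hnexy : ∀ x y : {x : ℕ → X // ToInf d' o x}, Bdry.mk x ≠ Bdry.mk y →
      ∃ N, ∀ n, N ≤ n → x.1 n ≠ y.1 n := by
    intro x y hxy
    obtain ⟨N1, h1⟩ := hC' x y hxy
    obtain ⟨N2, h2⟩ := Lim_ne hd x.2 (bprod (Bdry.mk x) (Bdry.mk y) + C')
    refine ⟨max N1 N2, fun n hn h => ?_⟩
    have h3 := h1 n n (le_trans (le_max_left _ _) hn) (le_trans (le_max_left _ _) hn)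
    have h4 := h2 n (le_trans (le_max_right _ _) hn)
    rw [← h] at h3
    have h5 : gp d' o (x.1 n) (x.1 n) = d' o (x.1 n) := by
      unfold gp; rw [hd.self]; ring
    rw [h5, abs_le] at h3
    linarith [h3.2]
  refine ⟨Φ, ?_, ?_, ?_⟩
  · intro ξ η hξη
    by_contra hcon
    have hξη' : L (r ξ) = L (r η) := hξη
    have hmk : Bdry.mk (r ξ) ≠ Bdry.mk (r η) := by rw [hr, hr]; exact hcon
    obtain ⟨N1, h1⟩ := hC' (r ξ) (r η) hmk
    obtain ⟨N2, h2⟩ := hne (r ξ)
    obtain ⟨N3, h3⟩ := hne (r η)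
    obtain ⟨N4, h4⟩ := hnexy (r ξ) (r η) hmk
    have h5 : Tendsto (fun n => ‖c ((r ξ).1 n) - c ((r η).1 n)‖) atTop (𝓝 0) := by
      have := ((hL (r ξ)).sub (hL (r η))).norm
      rw [hξη', sub_self, norm_zero] at this
      exact this
    set e : ℝ := Real.exp (-(A * (bprod (Bdry.mk (r ξ)) (Bdry.mk (r η)) + C') + C0)) with he
    have hepos : 0 < e := Real.exp_pos _
    have h6 : ∀ᶠ n in atTop, e ≤ ‖c ((r ξ).1 n) - c ((r η).1 n)‖ := by
      rw [eventually_atTop]
      refine ⟨max (max N1 N2) (max N3 N4), fun n hn => ?_⟩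
      have hn1 : N1 ≤ n := le_trans (le_trans (le_max_left _ _) (le_max_left _ _)) hn
      have hn2 : N2 ≤ n := le_trans (le_trans (le_max_right _ _) (le_max_left _ _)) hn
      have hn3 : N3 ≤ n := le_trans (le_trans (le_max_left _ _) (le_max_right _ _)) hn
      have hn4 : N4 ≤ n := le_trans (le_trans (le_max_right _ _) (le_max_right _ _)) hn
      rw [hc _ _ (h2 n hn2) (h3 n hn3) (h4 n hn4), he]
      apply Real.exp_le_exp.2
      have h7 := h1 n n hn1 hn1
      rw [abs_le] at h7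
      have h8 := hup ((r ξ).1 n) ((r η).1 n)
      have h9 : A * gp d' o ((r ξ).1 n) ((r η).1 n)
          ≤ A * (bprod (Bdry.mk (r ξ)) (Bdry.mk (r η)) + C') :=
        mul_le_mul_of_nonneg_left (by linarith [h7.2]) hA.le
      linarith
    have h10 : e ≤ 0 := ge_of_tendsto h5 h6
    linarith
  · intro x
    rw [hΦ x]
    exact hL x
  · refine ⟨Real.exp (C0 + 2 * A * C'), Real.exp_pos _, fun ξ η ζ hξη hξζ => ?_⟩
    have hm1 : Bdry.mk (r ξ) ≠ Bdry.mk (r η) := by rw [hr, hr]; exact hξη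
    have hm2 : Bdry.mk (r ξ) ≠ Bdry.mk (r ζ) := by rw [hr, hr]; exact hξζ
    obtain ⟨N1, h1⟩ := hC' (r ξ) (r η) hm1
    obtain ⟨N2, h2⟩ := hC' (r ξ) (r ζ) hm2
    obtain ⟨N3, h3⟩ := hne (r ξ)
    obtain ⟨N4, h4⟩ := hne (r η)
    obtain ⟨N5, h5⟩ := hne (r ζ)
    obtain ⟨N6, h6⟩ := hnexy (r ξ) (r η) hm1
    obtain ⟨N7, h7⟩ := hnexy (r ξ) (r ζ) hm2
    rw [hr, hr] at h1 h2
    set T : ℝ := bprod ξ ζ - bprod ξ η with hT
    have hmax : max (Real.exp (A * T)) (Real.exp (α * T)) = Real.exp (max (A * T) (α * T)) := by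
      rcases le_total (A * T) (α * T) with h | h
      · rw [max_eq_right h, max_eq_right (Real.exp_le_exp.2 h)]
      · rw [max_eq_left h, max_eq_left (Real.exp_le_exp.2 h)]
    rw [hmax]
    have t1 : Tendsto (fun n => ‖c ((r ξ).1 n) - c ((r η).1 n)‖) atTop (𝓝 ‖Φ ξ - Φ η‖) :=
      ((hL (r ξ)).sub (hL (r η))).norm
    have t2 : Tendsto (fun n => Real.exp (C0 + 2 * A * C') * Real.exp (max (A * T) (α * T))
        * ‖c ((r ξ).1 n) - c ((r ζ).1 n)‖) atTop
        (𝓝 (Real.exp (C0 + 2 * A * C') * Real.exp (max (A * T) (α * T)) * ‖Φ ξ - Φ ζ‖)) :=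
      (((hL (r ξ)).sub (hL (r ζ))).norm).const_mul _
    refine le_of_tendsto_of_tendsto t1 t2 ?_
    rw [EventuallyLE, eventually_atTop]
    refine ⟨N1 + N2 + N3 + N4 + N5 + N6 + N7, fun n hn => ?_⟩
    have g1 := h1 n n (by omega) (by omega)
    have g2 := h2 n n (by omega) (by omega)
    have g3 := h3 n (by omega)
    have g4 := h4 n (by omega)
    have g5 := h5 n (by omega)
    have g6 := h6 n (by omega)
    have g7 := h7 n (by omega)
    rw [hc _ _ g3 g4 g6, hc _ _ g3 g5 g7, ← Real.exp_add, ← Real.exp_add]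
    apply Real.exp_le_exp.2
    have g8 := hcmp ((r ξ).1 n) ((r η).1 n) ((r ζ).1 n)
    rw [abs_le] at g1 g2
    set t : ℝ := gp d' o ((r ξ).1 n) ((r ζ).1 n) - gp d' o ((r ξ).1 n) ((r η).1 n) with ht
    have g9 : t ≤ T + 2 * C' := by
      rw [ht, hT]; linarith [g1.1, g2.2]
    have g10 : A * t ≤ A * T + 2 * A * C' := by
      have := mul_le_mul_of_nonneg_left g9 hA.le
      linarith
    have g11 : α * t ≤ α * T + 2 * A * C' := by
      have := mul_le_mul_of_nonneg_left g9 hα.le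
      have h12 : α * C' ≤ A * C' := mul_le_mul_of_nonneg_right hαA hC'0
      linarith
    have g12 : max (A * t) (α * t) ≤ max (A * T) (α * T) + 2 * A * C' := by
      apply max_le
      · linarith [le_max_left (A * T) (α * T)]
      · linarith [le_max_right (A * T) (α * T)]
    linarith

theorem lim_map (h : Rough d D α A δ) (o : X) (c : X → E)
    (hc : ∀ x y, x ≠ o → y ≠ o → x ≠ y → ‖c x - c y‖ = Real.exp (-gp D o x y)) :
    ∃ Φ : Bdry (fun a b : X => (d a b : ℝ)) o → E, Function.Injective Φ ∧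
      (∀ x, Tendsto (fun n => c (x.1 n)) atTop (𝓝 (Φ (Bdry.mk x)))) ∧
      ∃ C : ℝ, 0 < C ∧ ∀ ξ η ζ, ξ ≠ η → ξ ≠ ζ → ‖Φ ξ - Φ η‖ ≤
        C * max (Real.exp (A * (bprod ξ ζ - bprod ξ η))) (Real.exp (α * (bprod ξ ζ - bprod ξ η)))
          * ‖Φ ξ - Φ ζ‖ := by
  obtain ⟨C0, hC0, hcmp⟩ := rough_cmp h
  have hα := h.α_pos
  have hαA := h.A_pos
  have hδ := h.δ_pos
  have hd : IsDist (fun a b : X => (d a b : ℝ)) := by
    refine ⟨fun x => ?_, fun x y => ?_, fun x y z => ?_⟩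
    · simp [h.d_self]
    · simp only [h.d_comm x y]
    · have := h.d_tri x y z
      exact_mod_cast this
  have hgpo : ∀ x, gp (fun a b : X => (d a b : ℝ)) o x o = 0 := by
    intro x
    have h1 := hd.self o
    have h2 := hd.comm o x
    unfold gp
    simp only at h1 h2 ⊢
    rw [h1, h2]; ring
  have hgpD : ∀ x, gp D o x o = D o o / 2 := by
    intro x
    unfold gp
    rw [h.D_comm x o]; ring
  have hDo1 : -δ ≤ D o o := by
    have := h.low o o
    rw [h.d_self] at this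
    simpa using this
  have hDo2 : D o o ≤ 0 := by
    have := h.up o o
    rw [h.d_self] at this
    simpa using this
  have hgp0 : ∀ x y, 0 ≤ gp (fun a b : X => (d a b : ℝ)) o x y := by
    intro x y
    unfold gp
    have := hd.tri x o y
    have h2 := hd.comm x o
    simp only at this h2 ⊢
    rw [h2] at this
    linarith
  refine Lim_aux hd (rough_hyp h) o (C0 := C0 + δ) hα hαA ?_ ?_ ?_ c hc
  · intro x y
    have h1 := hcmp o x y o
    rw [hgpo, hgpD] at h1
    have h2 := hgp0 x y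
    set t := gp (fun a b : X => (d a b : ℝ)) o x y with ht
    have h3 : max (A * (0 - t)) (α * (0 - t)) ≤ -(α * t) := by
      apply max_le
      · nlinarith
      · nlinarith
    linarith
  · intro x y
    have h1 := hcmp o x o y
    rw [hgpo, hgpD] at h1
    have h2 := hgp0 x y
    set t := gp (fun a b : X => (d a b : ℝ)) o x y with ht
    have h3 : max (A * (t - 0)) (α * (t - 0)) ≤ A * t := by
      apply max_le
      · nlinarith
      · nlinarith
    linarith
  · intro x y z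
    have h1 := hcmp o x y z
    linarith

end

end PS
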