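import Pool.Agent.PS.Bpr

set_option autoImplicit false

/-!
# Quasisymmetry

From the comparison inequality for the boundary map to quasisymmetry. MP_3de29c_al (Q2), leader helper5.
-/

namespace PS

open Filter Topology
open scoped ENNReal

section

variable {X : Type} {d : X → X → ℕ} {D : X → X → ℝ} {α A δ : ℝ}
  {E : Type} [NormedAddCommGroup E] [CompleteSpace E]

theorem qsym_of (hα : 0 < α) (hA : α ≤ A) {d' : X → X → ℝ} {o : X} (v : MetricSpace (Bdry d' o))
    (hv : IsVisual v) (Φ : Bdry d' o → E) (hΦ : Function.Injective Φ) (C : ℝ) (hC : 0 < C)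
    (h : ∀ ξ η ζ, ξ ≠ η → ξ ≠ ζ → ‖Φ ξ - Φ η‖ ≤
        C * max (Real.exp (A * (bprod ξ ζ - bprod ξ η))) (Real.exp (α * (bprod ξ ζ - bprod ξ η)))
          * ‖Φ ξ - Φ ζ‖) :
    QSym v (MetricSpace.induced Φ hΦ inferInstance) := by
  obtain ⟨e, Cv, he, hCv, hvis⟩ := hv
  have hA0 : 0 < A := lt_of_lt_of_le hα hA
  have hAe : 0 < A / e := div_pos hA0 he
  have hαe : 0 < α / e := div_pos hα he
  have hCv2 : 0 < Cv ^ 2 := by positivity
  refine ⟨fun t => C * max ((t * Cv ^ 2) ^ (A / e)) ((t * Cv ^ 2) ^ (α / e)), ?_, ?_, ?_, ?_, ?_⟩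
  · simp only [zero_mul]
    rw [Real.zero_rpow hAe.ne', Real.zero_rpow hαe.ne']
    simp
  · intro s hs t ht hst
    have hs0 : 0 ≤ s := hs
    have h1 : s * Cv ^ 2 < t * Cv ^ 2 := mul_lt_mul_of_pos_right hst hCv2
    have h0 : 0 ≤ s * Cv ^ 2 := mul_nonneg hs0 hCv2.le
    have h2 := Real.rpow_lt_rpow h0 h1 hAe
    have h3 := Real.rpow_lt_rpow h0 h1 hαe
    exact mul_lt_mul_of_pos_left (max_lt_max h2 h3) hC
  · apply Continuous.continuousOn
    apply Continuous.mul continuous_const
    apply Continuous.max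
    · exact (Real.continuous_rpow_const hAe.le).comp (continuous_id.mul continuous_const)
    · exact (Real.continuous_rpow_const hαe.le).comp (continuous_id.mul continuous_const)
  · apply Filter.Tendsto.const_mul_atTop hC
    have h1 : Tendsto (fun t : ℝ => (t * Cv ^ 2) ^ (A / e)) atTop atTop :=
      (tendsto_rpow_atTop hAe).comp (tendsto_id.atTop_mul_const hCv2)
    exact tendsto_atTop_mono (fun t => le_max_left _ _) h1
  · intro x a b t ht hdist
    have hw : ∀ y z : Bdry d' o,
        (MetricSpace.induced Φ hΦ inferInstance : MetricSpace (Bdry d' o)).dist y z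
          = ‖Φ y - Φ z‖ := by
      intro y z
      exact dist_eq_norm (Φ y) (Φ z)
    rw [hw, hw]
    by_cases hxa : x = a
    · subst hxa
      simp only [sub_self, norm_zero]
      apply mul_nonneg
      · apply mul_nonneg hC.le
        apply le_max_of_le_left
        exact Real.rpow_nonneg (mul_nonneg ht hCv2.le) _
      · exact norm_nonneg _
    by_cases hxb : x = b
    · exfalso
      subst hxb
      have h0 : v.dist x x = 0 := v.dist_self x
      rw [h0, mul_zero] at hdist
      have hpos := (hvis x a hxa).1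
      have : 0 < Cv⁻¹ * Real.exp (-e * bprod x a) := by positivity
      linarith
    have h1 := (hvis x a hxa).1
    have h2 := (hvis x b hxb).2
    have h3 : Cv⁻¹ * Real.exp (-e * bprod x a) ≤ t * (Cv * Real.exp (-e * bprod x b)) :=
      (h1.trans hdist).trans (mul_le_mul_of_nonneg_left h2 ht)
    have h4 : Real.exp (e * (bprod x b - bprod x a)) ≤ t * Cv ^ 2 := by
      have e1 : Real.exp (e * (bprod x b - bprod x a))
          = Real.exp (-e * bprod x a) / Real.exp (-e * bprod x b) := by
        rw [← Real.exp_sub]; congr 1; ring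
      rw [e1, div_le_iff₀ (Real.exp_pos _)]
      have h5 := mul_le_mul_of_nonneg_left h3 hCv.le
      rw [← mul_assoc, mul_inv_cancel₀ hCv.ne', one_mul] at h5
      calc Real.exp (-e * bprod x a) ≤ Cv * (t * (Cv * Real.exp (-e * bprod x b))) := h5
        _ = t * Cv ^ 2 * Real.exp (-e * bprod x b) := by ring
    have h6 : ∀ p : ℝ, 0 < p → Real.exp (p * (bprod x b - bprod x a)) ≤ (t * Cv ^ 2) ^ (p / e) := by
      intro p hp
      have e2 : p * (bprod x b - bprod x a) = e * (bprod x b - bprod x a) * (p / e) := by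
        field_simp
      rw [e2, Real.exp_mul]
      exact Real.rpow_le_rpow (Real.exp_pos _).le h4 (div_pos hp he).le
    refine (h x a b hxa hxb).trans ?_
    apply mul_le_mul_of_nonneg_right _ (norm_nonneg _)
    exact mul_le_mul_of_nonneg_left (max_le_max (h6 A hA0) (h6 α hα)) hC.le

end

end PS
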