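import Pool.Agent.PS.Defs2

set_option autoImplicit false

/-!
# Cliques of the hexagonal torus, the nerve

MP_3de29c_al (Q2), module TORB (helper55), leader helper5.
-/

namespace PS

open Filter Topology
open scoped ENNReal

section

/-- The six directions in cyclic order. -/
def torbDir (i : Fin 6) : ℤ × ℤ := ![(1, 0), (0, 1), (-1, 1), (-1, 0), (0, -1), (1, -1)] i

/-- The six directions as a set. -/
def torbS : Finset (ℤ × ℤ) := {(1, 0), (-1, 0), (0, 1), (0, -1), (1, -1), (-1, 1)}

/-- Reduction modulo `k`. -/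
def torbC (k : ℕ) (u : ℤ × ℤ) : ZMod k × ZMod k := ((u.1 : ZMod k), (u.2 : ZMod k))

theorem torb_cast {k : ℕ} {a b : ℤ} (h : |b - a| < k) : ((a : ℤ) : ZMod k) = (b : ZMod k) ↔ a = b := by
  constructor
  · intro hab
    have h1 := (ZMod.intCast_eq_intCast_iff_dvd_sub a b k).1 hab
    have h2 := Int.eq_zero_of_abs_lt_dvd h1 h
    omega
  · rintro rfl
    rfl

theorem torb_cast2 {k : ℕ} {u v : ℤ × ℤ} (h1 : |v.1 - u.1| < k) (h2 : |v.2 - u.2| < k) :
    torbC k u = torbC k v ↔ u = v := by
  unfold torbC
  rw [Prod.ext_iff, Prod.ext_iff]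
  exact and_congr (torb_cast h1) (torb_cast h2)

theorem torb_sub (k : ℕ) (u v : ℤ × ℤ) : torbC k u - torbC k v = torbC k (u - v) := by
  ext <;> simp [torbC]

theorem torb_mem {k : ℕ} (hk : 5 ≤ k) (w : ℤ × ℤ) (h1 : |w.1| ≤ 2) (h2 : |w.2| ≤ 2) :
    torbC k w ∈ ({(1, 0), (-1, 0), (0, 1), (0, -1), (1, -1), (-1, 1)} :
      Finset (ZMod k × ZMod k)) ↔ w ∈ torbS := by
  have hk' : (5 : ℤ) ≤ k := by exact_mod_cast hk
  have h1' := abs_le.1 h1
  have h2' := abs_le.1 h2
  have key : ∀ a b : ℤ, |a| ≤ 1 → |b| ≤ 1 → (torbC k w = ((a : ZMod k), (b : ZMod k)) ↔ w = (a, b)) := by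
    intro a b ha hb
    have ha' := abs_le.1 ha
    have hb' := abs_le.1 hb
    refine torb_cast2 (v := (a, b)) ?_ ?_
    · show |a - w.1| < k
      rw [abs_lt]
      constructor <;> omega
    · show |b - w.2| < k
      rw [abs_lt]
      constructor <;> omega
  have k1 := key 1 0 (by norm_num) (by norm_num)
  have k2 := key (-1) 0 (by norm_num) (by norm_num)
  have k3 := key 0 1 (by norm_num) (by norm_num)
  have k4 := key 0 (-1) (by norm_num) (by norm_num)
  have k5 := key 1 (-1) (by norm_num) (by norm_num)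
  have k6 := key (-1) 1 (by norm_num) (by norm_num)
  simp only [Int.cast_one, Int.cast_zero, Int.cast_neg] at k1 k2 k3 k4 k5 k6
  simp only [Finset.mem_insert, Finset.mem_singleton, torbS]
  rw [k1, k2, k3, k4, k5, k6]

theorem torb_adj {k : ℕ} (hk : 5 ≤ k) (s : ZMod k × ZMod k) (u v : ℤ × ℤ)
    (h1 : |u.1 - v.1| ≤ 2) (h2 : |u.2 - v.2| ≤ 2) :
    (hexTorus k).Adj (s + torbC k u) (s + torbC k v) ↔ u - v ∈ torbS := by
  have hk' : (5 : ℤ) ≤ k := by exact_mod_cast hk
  have h3 : s + torbC k u - (s + torbC k v) = torbC k (u - v) := by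
    rw [← torb_sub]
    abel
  have hm := torb_mem hk (u - v) h1 h2
  show (s + torbC k u ≠ s + torbC k v ∧ s + torbC k u - (s + torbC k v) ∈
    ({(1, 0), (-1, 0), (0, 1), (0, -1), (1, -1), (-1, 1)} : Finset (ZMod k × ZMod k))) ↔ _
  rw [h3, hm]
  constructor
  · exact fun h => h.2
  · intro h
    refine ⟨?_, h⟩
    intro he
    have he' : torbC k u = torbC k v := add_left_cancel he
    have h1' := abs_le.1 h1
    have h2' := abs_le.1 h2
    have : u = v := (torb_cast2 (by rw [abs_lt]; constructor <;> omega)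
      (by rw [abs_lt]; constructor <;> omega)).1 he'
    rw [this, sub_self] at h
    revert h
    decide

theorem torb_bound (i : Fin 6) : |(torbDir i).1| ≤ 1 ∧ |(torbDir i).2| ≤ 1 := by
  revert i
  decide

/-- Local structure of the nerve: a closed surface. -/
theorem nerve (k : ℕ) (hk : 5 ≤ k) (s : ZMod k × ZMod k) :
    ∃ e : Fin 6 → ZMod k × ZMod k, Function.Injective e ∧
      (∀ t, (hexTorus k).Adj s t ↔ ∃ i, t = e i) ∧
      ∀ i j, (hexTorus k).Adj (e i) (e j) ↔ (j = i + 1 ∨ i = j + 1) := by
  have hk' : (5 : ℤ) ≤ k := by exact_mod_cast hk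
  refine ⟨fun i => s + torbC k (torbDir i), ?_, ?_, ?_⟩
  · intro i j hij
    have h1 : torbC k (torbDir i) = torbC k (torbDir j) := add_left_cancel hij
    have bi := torb_bound i
    have bj := torb_bound j
    have h2 : torbDir i = torbDir j := by
      refine (torb_cast2 ?_ ?_).1 h1
      · have := abs_le.1 bi.1
        have := abs_le.1 bj.1
        rw [abs_lt]
        constructor <;> omega
      · have := abs_le.1 bi.2
        have := abs_le.1 bj.2
        rw [abs_lt]
        constructor <;> omega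
    clear h1 bi bj hij
    revert h2
    revert i j
    decide
  · intro t
    constructor
    · rintro ⟨_, h⟩
      simp only [Finset.mem_insert, Finset.mem_singleton] at h
      have key : ∀ i : Fin 6, s - t = -torbC k (torbDir i) → ∃ i, t = s + torbC k (torbDir i) := by
        intro i hi
        refine ⟨i, ?_⟩
        have : t = s - (s - t) := by abel
        rw [this, hi, sub_neg_eq_add]
      rcases h with h | h | h | h | h | h
      · exact key 3 (by rw [h]; ext <;> simp [torbC, torbDir])
      · exact key 0 (by rw [h]; ext <;> simp [torbC, torbDir])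
      · exact key 4 (by rw [h]; ext <;> simp [torbC, torbDir])
      · exact key 1 (by rw [h]; ext <;> simp [torbC, torbDir])
      · exact key 2 (by rw [h]; ext <;> simp [torbC, torbDir])
      · exact key 5 (by rw [h]; ext <;> simp [torbC, torbDir])
    · rintro ⟨i, rfl⟩
      have h0 : s = s + torbC k 0 := by
        have : torbC k 0 = 0 := by ext <;> simp [torbC]
        rw [this, add_zero]
      have bi := torb_bound i
      have := (torb_adj hk s 0 (torbDir i) (by
        show |0 - (torbDir i).1| ≤ 2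
        rw [zero_sub, abs_neg]; omega) (by
        show |0 - (torbDir i).2| ≤ 2
        rw [zero_sub, abs_neg]; omega)).2 (by
          revert i
          decide)
      rwa [← h0] at this
  · intro i j
    have bi := torb_bound i
    have bj := torb_bound j
    have b1 := abs_le.1 bi.1
    have b2 := abs_le.1 bj.1
    have b3 := abs_le.1 bi.2
    have b4 := abs_le.1 bj.2
    show (hexTorus k).Adj (s + torbC k (torbDir i)) (s + torbC k (torbDir j)) ↔ _
    rw [torb_adj hk s _ _ (by rw [abs_le]; constructor <;> omega)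
      (by rw [abs_le]; constructor <;> omega)]
    clear bi bj b1 b2 b3 b4
    revert i j
    decide

theorem tor_clique : ∃ N : ℕ, ∀ k, N ≤ k → ∀ A : Finset (ZMod k × ZMod k),
    (∀ s ∈ A, ∀ t ∈ A, s ≠ t → (hexTorus k).Adj s t) → A.card ≤ 3 := by
  refine ⟨5, fun k hk A hA => ?_⟩
  classical
  rcases A.eq_empty_or_nonempty with rfl | ⟨s, hs⟩
  · simp
  obtain ⟨e, he, h1, h2⟩ := nerve k hk s
  let I : Finset (Fin 6) := Finset.univ.filter fun i => e i ∈ A
  have hI : A.erase s ⊆ I.image e := by
    intro t ht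
    rw [Finset.mem_erase] at ht
    obtain ⟨i, rfl⟩ := (h1 t).1 (hA s hs t ht.2 (Ne.symm ht.1))
    exact Finset.mem_image.2 ⟨i, by simp [I, ht.2], rfl⟩
  have hI2 : I.card ≤ 2 := by
    by_contra hc
    push Not at hc
    obtain ⟨i, hi, j, hj, l, hl, hij, hil, hjl⟩ := Finset.two_lt_card.1 hc
    simp only [I, Finset.mem_filter, Finset.mem_univ, true_and] at hi hj hl
    have a1 := (h2 i j).1 (hA _ hi _ hj (he.ne hij))
    have a2 := (h2 i l).1 (hA _ hi _ hl (he.ne hil))
    have a3 := (h2 j l).1 (hA _ hj _ hl (he.ne hjl))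
    clear hi hj hl
    revert i j l
    decide
  have h3 := Finset.card_le_card hI
  have h4 := Finset.card_image_le (s := I) (f := e)
  rw [Finset.card_erase_of_mem hs] at h3
  omega

end

end PS
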