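import Pool.Agent.PS.Defs2

set_option autoImplicit false

/-!
# Covering radius of the centres

MP_3de29c_al (Q2), leader helper5.
-/

namespace PS

open Filter Topology
open scoped ENNReal

section

/-- The triangle with vertices `(0,0)`, `(1,0)`, `(0,1)`. -/
lemma torc_tri {x y : ℝ} (hx : 0 ≤ x) (hy : 0 ≤ y) (h : x + y ≤ 1) :
    ∃ i j : ℤ, (x - i) ^ 2 + (y - j) ^ 2 + (x + y - i - j) ^ 2 ≤ 2 / 3 := by
  by_cases h1 : x ≤ 1 - x - y ∧ y ≤ 1 - x - y
  · refine ⟨0, 0, ?_⟩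
    push_cast
    nlinarith [mul_nonneg hx (sub_nonneg.mpr h1.1), mul_nonneg hy (sub_nonneg.mpr h1.2)]
  · by_cases h2 : y ≤ x
    · have h3 : 1 - x - y ≤ x := by
        by_contra hcon
        push Not at hcon
        exact h1 ⟨hcon.le, by linarith⟩
      refine ⟨1, 0, ?_⟩
      push_cast
      nlinarith [mul_nonneg hy (sub_nonneg.mpr h2),
        mul_nonneg (sub_nonneg.mpr h) (sub_nonneg.mpr h3)]
    · push Not at h2
      have h3 : 1 - x - y ≤ y := by
        by_contra hcon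
        push Not at hcon
        exact h1 ⟨by linarith, hcon.le⟩
      refine ⟨0, 1, ?_⟩
      push_cast
      nlinarith [mul_nonneg hx (sub_nonneg.mpr h2.le),
        mul_nonneg (sub_nonneg.mpr h) (sub_nonneg.mpr h3)]

/-- Covering radius of the hexagonal lattice. -/
lemma torc_hex (u v : ℝ) :
    ∃ i j : ℤ, (u - i) ^ 2 + (v - j) ^ 2 + (u + v - i - j) ^ 2 ≤ 2 / 3 := by
  have hu0 := Int.fract_nonneg u
  have hv0 := Int.fract_nonneg v
  have hu1 := Int.fract_lt_one u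
  have hv1 := Int.fract_lt_one v
  have hu : u = ⌊u⌋ + Int.fract u := (Int.floor_add_fract u).symm
  have hv : v = ⌊v⌋ + Int.fract v := (Int.floor_add_fract v).symm
  by_cases h : Int.fract u + Int.fract v ≤ 1
  · obtain ⟨i, j, hij⟩ := torc_tri hu0 hv0 h
    refine ⟨⌊u⌋ + i, ⌊v⌋ + j, ?_⟩
    push_cast
    have e : (u - (⌊u⌋ + i)) ^ 2 + (v - (⌊v⌋ + j)) ^ 2 + (u + v - (⌊u⌋ + i) - (⌊v⌋ + j)) ^ 2 =
        (Int.fract u - i) ^ 2 + (Int.fract v - j) ^ 2 + (Int.fract u + Int.fract v - i - j) ^ 2 := by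
      have e1 : Int.fract u = u - ⌊u⌋ := rfl
      have e2 : Int.fract v = v - ⌊v⌋ := rfl
      rw [e1, e2]; ring
    rw [e]; exact hij
  · push Not at h
    obtain ⟨i, j, hij⟩ := torc_tri (x := 1 - Int.fract u) (y := 1 - Int.fract v)
      (by linarith) (by linarith) (by linarith)
    refine ⟨⌊u⌋ + 1 - i, ⌊v⌋ + 1 - j, ?_⟩
    push_cast
    have e : (u - (⌊u⌋ + 1 - i)) ^ 2 + (v - (⌊v⌋ + 1 - j)) ^ 2 +
        (u + v - (⌊u⌋ + 1 - i) - (⌊v⌋ + 1 - j)) ^ 2 =
        (1 - Int.fract u - i) ^ 2 + (1 - Int.fract v - j) ^ 2 +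
          (1 - Int.fract u + (1 - Int.fract v) - i - j) ^ 2 := by
      have e1 : Int.fract u = u - ⌊u⌋ := rfl
      have e2 : Int.fract v = v - ⌊v⌋ := rfl
      rw [e1, e2]; ring
    rw [e]; exact hij

lemma torc_exp (x y : ℝ) :
    ‖Complex.exp (x * Complex.I) - Complex.exp (y * Complex.I)‖ ≤ |x - y| := by
  have h1 : Complex.exp (x * Complex.I) - Complex.exp (y * Complex.I) =
      Complex.exp (y * Complex.I) * (Complex.exp (Complex.I * ((x - y : ℝ) : ℂ)) - 1) := by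
    rw [mul_sub, ← Complex.exp_add, mul_one]
    congr 2
    push_cast
    ring
  rw [h1, norm_mul, Complex.norm_exp_ofReal_mul_I, one_mul]
  exact Real.norm_exp_I_mul_ofReal_sub_one_le

lemma torc_dist (k : ℕ) (a b a' b' : ℝ) :
    ‖tph k a b - tph k a' b'‖ ^ 2 ≤
      tR k ^ 2 * ((a - a') ^ 2 + (b - b') ^ 2 + (a + b - a' - b') ^ 2) := by
  have h1 := torc_exp a a'
  have h2 := torc_exp b b'
  have h3 := torc_exp (-(a + b)) (-(a' + b'))
  have h4 : |(-(a + b)) - (-(a' + b'))| ^ 2 = (a + b - a' - b') ^ 2 := by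
    rw [sq_abs]; ring
  rw [tph, tph, ← smul_sub, norm_smul, mul_pow, EuclideanSpace.norm_sq_eq, Fin.sum_univ_three]
  have h5 : ‖(tR k : ℂ)‖ ^ 2 = tR k ^ 2 := by
    rw [Complex.norm_real, Real.norm_eq_abs, sq_abs]
  rw [h5]
  apply mul_le_mul_of_nonneg_left _ (sq_nonneg _)
  have e1 : ‖Complex.exp (a * Complex.I) - Complex.exp (a' * Complex.I)‖ ^ 2 ≤ (a - a') ^ 2 := by
    rw [← sq_abs (a - a')]
    exact pow_le_pow_left₀ (norm_nonneg _) h1 2
  have e2 : ‖Complex.exp (b * Complex.I) - Complex.exp (b' * Complex.I)‖ ^ 2 ≤ (b - b') ^ 2 := by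
    rw [← sq_abs (b - b')]
    exact pow_le_pow_left₀ (norm_nonneg _) h2 2
  have e3 : ‖Complex.exp (-(a + b) * Complex.I) - Complex.exp (-(a' + b') * Complex.I)‖ ^ 2 ≤
      (a + b - a' - b') ^ 2 := by
    rw [← h4]
    push_cast at h3
    exact pow_le_pow_left₀ (norm_nonneg _) h3 2
  have := add_le_add (add_le_add e1 e2) e3
  simpa using this

lemma torc_per (k : ℕ) (a b : ℝ) (m n : ℤ) :
    tph k (a - 2 * Real.pi * m) (b - 2 * Real.pi * n) = tph k a b := by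
  have h1 : Complex.exp (((a - 2 * Real.pi * m : ℝ) : ℂ) * Complex.I) =
      Complex.exp (a * Complex.I) := by
    rw [Complex.exp_eq_exp_iff_exists_int]
    exact ⟨-m, by push_cast; ring⟩
  have h2 : Complex.exp (((b - 2 * Real.pi * n : ℝ) : ℂ) * Complex.I) =
      Complex.exp (b * Complex.I) := by
    rw [Complex.exp_eq_exp_iff_exists_int]
    exact ⟨-n, by push_cast; ring⟩
  have h3 : Complex.exp (-(((a - 2 * Real.pi * m : ℝ) : ℂ) + ((b - 2 * Real.pi * n : ℝ) : ℂ)) *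
      Complex.I) = Complex.exp (-((a : ℂ) + b) * Complex.I) := by
    rw [Complex.exp_eq_exp_iff_exists_int]
    exact ⟨m + n, by push_cast; ring⟩
  rw [tph, tph, h1, h2, h3]

lemma torc_tv {k : ℕ} (hk : 0 < k) (i j : ℤ) :
    tv k ((i : ZMod k), (j : ZMod k)) = tph k (2 * Real.pi * i / k) (2 * Real.pi * j / k) := by
  have : NeZero k := ⟨hk.ne'⟩
  have hk' : (k : ℝ) ≠ 0 := by exact_mod_cast hk.ne'
  have key : ∀ i : ℤ, ∃ m : ℤ, 2 * Real.pi * ((i : ZMod k).val : ℝ) / k =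
      2 * Real.pi * i / k - 2 * Real.pi * m := by
    intro i
    refine ⟨i / k, ?_⟩
    have h1 : (((i : ZMod k).val : ℤ)) = i % k := ZMod.val_intCast i
    have h2 : (((i : ZMod k).val : ℤ)) = i - k * (i / k) := by
      rw [h1, Int.emod_def]
    have h3 : ((i : ZMod k).val : ℝ) = i - k * ((i / k : ℤ) : ℝ) := by
      have := congrArg (fun x : ℤ => (x : ℝ)) h2
      push_cast at this
      exact_mod_cast this
    rw [h3]
    field_simp
  obtain ⟨m, hm⟩ := key i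
  obtain ⟨n, hn⟩ := key j
  rw [tv, hm, hn, torc_per]

lemma torc_num {k : ℕ} (hk : 32 ≤ k) :
    tR k ^ 2 * ((2 * Real.pi / k) ^ 2 * (2 / 3)) ≤ (29 / 50) ^ 2 := by
  have hk' : (32 : ℝ) ≤ k := by exact_mod_cast hk
  have hk0 : (0 : ℝ) < k := by linarith
  set x : ℝ := Real.pi / k with hx
  have hx0 : 0 < x := by positivity
  have hx1 : x ≤ 1 / 10 := by
    rw [hx, div_le_iff₀ hk0]
    nlinarith [Real.pi_lt_d2]
  have hsin : x * (399 / 400) ≤ Real.sin x := by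
    have h1 := Real.sin_gt_sub_cube hx0
    nlinarith [mul_nonneg hx0.le (sub_nonneg.mpr hx1), mul_pos hx0 hx0]
  have hsin0 : 0 < Real.sin x := by
    have : 0 < x * (399 / 400) := by positivity
    linarith
  have e1 : tR k ^ 2 = 1 / (8 * Real.sin x ^ 2) := by
    rw [tR, ← hx, div_pow, mul_pow, mul_pow, Real.sq_sqrt (by norm_num)]
    norm_num
  have e2 : 2 * Real.pi / k = 2 * x := by rw [hx]; ring
  rw [e1, e2]
  have h3 : (x * (399 / 400)) ^ 2 ≤ Real.sin x ^ 2 :=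
    pow_le_pow_left₀ (by positivity) hsin 2
  have h4 : 0 < Real.sin x ^ 2 := by positivity
  rw [one_div, inv_mul_le_iff₀ (by positivity)]
  nlinarith [h3]

theorem tor_cov : ∃ N : ℕ, ∀ k, N ≤ k → ∀ z ∈ tS k, ∃ s, ‖z - tv k s‖ ≤ 29 / 50 := by
  refine ⟨32, fun k hk z hz => ?_⟩
  obtain ⟨a, b, rfl⟩ := hz
  have hk0 : 0 < k := by omega
  have hk0' : (0 : ℝ) < k := by exact_mod_cast hk0
  have hpi := Real.pi_pos
  obtain ⟨i, j, hij⟩ := torc_hex (k * a / (2 * Real.pi)) (k * b / (2 * Real.pi))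
  refine ⟨((i : ZMod k), (j : ZMod k)), ?_⟩
  rw [torc_tv hk0]
  have h1 := torc_dist k a b (2 * Real.pi * i / k) (2 * Real.pi * j / k)
  have h2 : (a - 2 * Real.pi * i / k) ^ 2 + (b - 2 * Real.pi * j / k) ^ 2 +
      (a + b - 2 * Real.pi * i / k - 2 * Real.pi * j / k) ^ 2 =
      (2 * Real.pi / k) ^ 2 * ((k * a / (2 * Real.pi) - i) ^ 2 +
        (k * b / (2 * Real.pi) - j) ^ 2 +
        (k * a / (2 * Real.pi) + k * b / (2 * Real.pi) - i - j) ^ 2) := by
    field_simp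
  rw [h2] at h1
  have h3 : ‖tph k a b - tph k (2 * Real.pi * i / k) (2 * Real.pi * j / k)‖ ^ 2 ≤
      (29 / 50) ^ 2 := by
    refine h1.trans (le_trans ?_ (torc_num hk))
    apply mul_le_mul_of_nonneg_left _ (sq_nonneg _)
    apply mul_le_mul_of_nonneg_left hij (sq_nonneg _)
  exact le_of_sq_le_sq h3 (by norm_num)

end

end PS
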