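import Pool.Agent.PS.Defs2

set_option autoImplicit false

/-!
# Packing on the torus
-/

namespace PS

open Filter Topology
open scoped ENNReal

section

lemma torp_exp_sub (a a' : ℝ) :
    ‖Complex.exp (a * Complex.I) - Complex.exp (a' * Complex.I)‖ = |2 * Real.sin ((a - a') / 2)| := by
  have h1 : Complex.exp (a * Complex.I) - Complex.exp (a' * Complex.I) =
      Complex.exp (a' * Complex.I) * (Complex.exp (Complex.I * ((a - a' : ℝ) : ℂ)) - 1) := by
    rw [mul_sub, mul_one, ← Complex.exp_add]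
    congr 2
    push_cast
    ring
  rw [h1, norm_mul, Complex.norm_exp_ofReal_mul_I, one_mul, Complex.norm_exp_I_mul_ofReal_sub_one,
    Real.norm_eq_abs]

lemma torp_exp_le (a a' : ℝ) :
    ‖Complex.exp (a * Complex.I) - Complex.exp (a' * Complex.I)‖ ≤ |a - a'| := by
  rw [torp_exp_sub, abs_mul, abs_two]
  have h1 : |Real.sin ((a - a') / 2)| ≤ |(a - a') / 2| := Real.abs_sin_le_abs
  rw [abs_div, abs_two] at h1
  linarith

lemma torp_exp_ge (a a' : ℝ) (h : |a - a'| ≤ Real.pi) :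
    2 / Real.pi * |a - a'| ≤
      ‖Complex.exp (a * Complex.I) - Complex.exp (a' * Complex.I)‖ := by
  rw [torp_exp_sub, abs_mul, abs_two]
  have h2 : |Real.sin ((a - a') / 2)| = Real.sin (|a - a'| / 2) := by
    have h3 : |a - a'| / 2 = |(a - a') / 2| := by rw [abs_div, abs_two]
    rw [h3]
    rcases le_total 0 ((a - a') / 2) with h4 | h4
    · rw [abs_of_nonneg h4]
      apply abs_of_nonneg
      apply Real.sin_nonneg_of_nonneg_of_le_pi h4
      have h5 := le_abs_self (a - a')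
      linarith [Real.pi_pos]
    · rw [abs_of_nonpos h4, Real.sin_neg]
      apply abs_of_nonpos
      apply Real.sin_nonpos_of_nonpos_of_neg_pi_le h4
      have h5 := neg_abs_le (a - a')
      linarith [Real.pi_pos]
  rw [h2]
  have h6 := Real.mul_le_sin (x := |a - a'| / 2) (by positivity) (by linarith)
  linarith

lemma torp_sq (k : ℕ) (a b a' b' : ℝ) :
    ‖tph k a b - tph k a' b'‖ ^ 2 = tR k ^ 2 *
      (‖Complex.exp (a * Complex.I) - Complex.exp (a' * Complex.I)‖ ^ 2 +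
        ‖Complex.exp (b * Complex.I) - Complex.exp (b' * Complex.I)‖ ^ 2 +
        ‖Complex.exp (((-(a + b) : ℝ) : ℂ) * Complex.I) -
          Complex.exp (((-(a' + b') : ℝ) : ℂ) * Complex.I)‖ ^ 2) := by
  unfold tph
  rw [← smul_sub, norm_smul, mul_pow, Complex.norm_real, Real.norm_eq_abs, sq_abs,
    EuclideanSpace.norm_sq_eq, Fin.sum_univ_three]
  simp

lemma torp_le (k : ℕ) (a b a' b' m : ℝ) (ha : |a - a'| ≤ m) (hb : |b - b'| ≤ m) :
    ‖tph k a b - tph k a' b'‖ ^ 2 ≤ 6 * tR k ^ 2 * m ^ 2 := by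
  have hm : 0 ≤ m := (abs_nonneg _).trans ha
  rw [torp_sq]
  have h1 : ‖Complex.exp (a * Complex.I) - Complex.exp (a' * Complex.I)‖ ^ 2 ≤ m ^ 2 :=
    pow_le_pow_left₀ (norm_nonneg _) ((torp_exp_le a a').trans ha) 2
  have h2 : ‖Complex.exp (b * Complex.I) - Complex.exp (b' * Complex.I)‖ ^ 2 ≤ m ^ 2 :=
    pow_le_pow_left₀ (norm_nonneg _) ((torp_exp_le b b').trans hb) 2
  have h3 : ‖Complex.exp (((-(a + b) : ℝ) : ℂ) * Complex.I) -
      Complex.exp (((-(a' + b') : ℝ) : ℂ) * Complex.I)‖ ^ 2 ≤ (2 * m) ^ 2 := by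
    refine pow_le_pow_left₀ (norm_nonneg _) ((torp_exp_le _ _).trans ?_) 2
    have h4 : -(a + b) - -(a' + b') = -((a - a') + (b - b')) := by ring
    rw [h4, abs_neg]
    exact (abs_add_le _ _).trans (by linarith)
  have h5 : 0 ≤ tR k ^ 2 := sq_nonneg _
  calc _ ≤ tR k ^ 2 * (m ^ 2 + m ^ 2 + (2 * m) ^ 2) :=
        mul_le_mul_of_nonneg_left (add_le_add (add_le_add h1 h2) h3) h5
    _ = _ := by ring

lemma torp_ge (k : ℕ) (hR : 0 < tR k) (a b a' b' : ℝ) (ha : |a - a'| ≤ Real.pi)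
    (hb : |b - b'| ≤ Real.pi) :
    2 / Real.pi * tR k * |a - a'| ≤ ‖tph k a b - tph k a' b'‖ ∧
    2 / Real.pi * tR k * |b - b'| ≤ ‖tph k a b - tph k a' b'‖ := by
  have h1 := torp_exp_ge a a' ha
  have h2 := torp_exp_ge b b' hb
  have hsq := torp_sq k a b a' b'
  set x := ‖Complex.exp (a * Complex.I) - Complex.exp (a' * Complex.I)‖ with hx
  set y := ‖Complex.exp (b * Complex.I) - Complex.exp (b' * Complex.I)‖ with hy
  have hx0 : 0 ≤ x := norm_nonneg _
  have hy0 : 0 ≤ y := norm_nonneg _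
  have key : ∀ t : ℝ, 0 ≤ t → t ^ 2 ≤ x ^ 2 + y ^ 2 + ‖Complex.exp (((-(a + b) : ℝ) : ℂ) * Complex.I) -
          Complex.exp (((-(a' + b') : ℝ) : ℂ) * Complex.I)‖ ^ 2 →
      tR k * t ≤ ‖tph k a b - tph k a' b'‖ := by
    intro t ht htt
    refine abs_le_of_sq_le_sq' ?_ (norm_nonneg _) |>.2
    rw [mul_pow, hsq]
    exact mul_le_mul_of_nonneg_left htt (sq_nonneg _)
  constructor
  · have h3 := key x hx0 (by nlinarith [sq_nonneg y])
    calc 2 / Real.pi * tR k * |a - a'| = tR k * (2 / Real.pi * |a - a'|) := by ring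
      _ ≤ tR k * x := mul_le_mul_of_nonneg_left h1 hR.le
      _ ≤ _ := h3
  · have h3 := key y hy0 (by nlinarith [sq_nonneg x])
    calc 2 / Real.pi * tR k * |b - b'| = tR k * (2 / Real.pi * |b - b'|) := by ring
      _ ≤ tR k * y := mul_le_mul_of_nonneg_left h2 hR.le
      _ ≤ _ := h3

lemma torp_R_pos (k : ℕ) (hk : 2 ≤ k) : 0 < tR k := by
  unfold tR
  have hk' : (2 : ℝ) ≤ k := by exact_mod_cast hk
  have h1 : 0 < Real.sin (Real.pi / k) := by
    apply Real.sin_pos_of_pos_of_lt_pi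
    · positivity
    · rw [div_lt_iff₀ (by linarith)]
      nlinarith [Real.pi_pos]
  positivity

/-- Change of an angle by a multiple of `2π`. -/
lemma torp_shift (a a0 : ℝ) : ∃ n : ℤ, |a + n * (2 * Real.pi) - a0| ≤ Real.pi := by
  refine ⟨-round ((a - a0) / (2 * Real.pi)), ?_⟩
  have h1 := abs_sub_round ((a - a0) / (2 * Real.pi))
  have hp : 0 < 2 * Real.pi := by positivity
  have h2 : a + ((-round ((a - a0) / (2 * Real.pi)) : ℤ) : ℝ) * (2 * Real.pi) - a0 =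
      ((a - a0) / (2 * Real.pi) - round ((a - a0) / (2 * Real.pi))) * (2 * Real.pi) := by
    push_cast
    field_simp
    ring
  rw [h2, abs_mul, abs_of_pos hp]
  calc _ ≤ 1 / 2 * (2 * Real.pi) := mul_le_mul_of_nonneg_right h1 hp.le
    _ = Real.pi := by ring

lemma torp_periodic (k : ℕ) (a b : ℝ) (n m : ℤ) :
    tph k (a + n * (2 * Real.pi)) (b + m * (2 * Real.pi)) = tph k a b := by
  unfold tph
  have h1 : ∀ (x : ℝ) (n : ℤ), Complex.exp (((x + n * (2 * Real.pi) : ℝ) : ℂ) * Complex.I) =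
      Complex.exp (x * Complex.I) := by
    intro x n
    rw [← Complex.exp_periodic.int_mul n (x * Complex.I)]
    congr 1
    push_cast
    ring
  have h2 : Complex.exp (-(((a + n * (2 * Real.pi) : ℝ) : ℂ) + ((b + m * (2 * Real.pi) : ℝ) : ℂ)) *
      Complex.I) = Complex.exp (-((a : ℂ) + b) * Complex.I) := by
    have h3 := h1 (-(a + b)) (-(n + m))
    have h4 : (-(((a + n * (2 * Real.pi) : ℝ) : ℂ) + ((b + m * (2 * Real.pi) : ℝ) : ℂ)) *
      Complex.I) = ((-(a + b) + ((-(n + m) : ℤ) : ℝ) * (2 * Real.pi) : ℝ) : ℂ) * Complex.I := by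
      push_cast
      ring
    rw [h4, h3]
    congr 1
    push_cast
    ring
  rw [h1, h1, h2]

theorem tor_pack : ∃ C : ℝ, 0 < C ∧ ∀ k : ℕ, 2 ≤ k → Pack (tS k) C := by
  refine ⟨1444, by norm_num, ?_⟩
  intro k hk κ δ ρ z A hδ hκ hκδ hδρ hS hball hsep
  have hR := torp_R_pos k hk
  rcases A.eq_empty_or_nonempty with rfl | ⟨p0, hp0⟩
  · simp only [Finset.card_empty, Nat.cast_zero]
    positivity
  obtain ⟨z0, ⟨a0, b0, rfl⟩, hz0⟩ := hS p0 hp0
  have hch : ∀ p : E3, ∃ ab : ℝ × ℝ, p ∈ A → ‖p - tph k ab.1 ab.2‖ ≤ κ ∧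
      |ab.1 - a0| ≤ Real.pi ∧ |ab.2 - b0| ≤ Real.pi := by
    intro p
    by_cases hp : p ∈ A
    · obtain ⟨z1, ⟨a, b, rfl⟩, hz1⟩ := hS p hp
      obtain ⟨n, hn⟩ := torp_shift a a0
      obtain ⟨m, hm⟩ := torp_shift b b0
      refine ⟨(a + n * (2 * Real.pi), b + m * (2 * Real.pi)), fun _ => ⟨?_, hn, hm⟩⟩
      simp only [torp_periodic]
      exact hz1
    · exact ⟨(0, 0), fun h => absurd h hp⟩
  choose f hf using hch
  set σ := δ / (4 * tR k) with hσ
  have hσ0 : 0 < σ := by positivity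
  have hρ0 : 0 < ρ := lt_of_lt_of_le hδ hδρ
  -- bound for the angles
  have hL : ∀ p ∈ A, |(f p).1 - a0| / σ ≤ 18 * (ρ / δ) ∧ |(f p).2 - b0| / σ ≤ 18 * (ρ / δ) := by
    intro p hp
    obtain ⟨h1, h2, h3⟩ := hf p hp
    have h4 : ‖tph k (f p).1 (f p).2 - tph k a0 b0‖ ≤ 9 / 4 * ρ := by
      have h5 : tph k (f p).1 (f p).2 - tph k a0 b0 =
          -(p - tph k (f p).1 (f p).2) + (p - z) - (p0 - z) + (p0 - tph k a0 b0) := by abel
      rw [h5]
      refine (norm_add_le _ _).trans ?_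
      refine (add_le_add_left (norm_sub_le _ _) _).trans ?_
      refine (add_le_add_left (add_le_add_left (norm_add_le _ _) _) _).trans ?_
      rw [norm_neg]
      have h6 := hball p hp
      have h7 := hball p0 hp0
      linarith
    obtain ⟨h5, h6⟩ := torp_ge k hR _ _ _ _ h2 h3
    have hpi : Real.pi ≤ 4 := Real.pi_le_four
    have hgen : ∀ t : ℝ, 0 ≤ t → 2 / Real.pi * tR k * t ≤ 9 / 4 * ρ → t / σ ≤ 18 * (ρ / δ) := by
      intro t ht htt
      have h7 : 1 / 2 * tR k * t ≤ 2 / Real.pi * tR k * t := by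
        have h8 : 1 / 2 ≤ 2 / Real.pi := by
          rw [div_le_div_iff₀ (by norm_num) Real.pi_pos]
          linarith
        have h9 : 0 ≤ tR k * t := by positivity
        nlinarith
      have h8 : tR k * t ≤ 9 / 2 * ρ := by linarith
      rw [hσ, div_div_eq_mul_div, ← mul_div_assoc]
      apply div_le_div_of_nonneg_right _ hδ.le
      linarith
    exact ⟨hgen _ (abs_nonneg _) (h5.trans h4), hgen _ (abs_nonneg _) (h6.trans h4)⟩
  set L := 18 * (ρ / δ) with hLdef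
  have hL0 : 18 ≤ L := by
    have : 1 ≤ ρ / δ := by rwa [le_div_iff₀ hδ, one_mul]
    linarith
  let g : E3 → ℤ × ℤ := fun p => (⌊((f p).1 - a0) / σ⌋, ⌊((f p).2 - b0) / σ⌋)
  let I : Finset ℤ := Finset.Icc ⌊-L⌋ ⌊L⌋
  have hmem : ∀ t : ℝ, |t| / σ ≤ L → ⌊t / σ⌋ ∈ I := by
    intro t ht
    have h1 : |t / σ| ≤ L := by rwa [abs_div, abs_of_pos hσ0]
    rw [abs_le] at h1
    exact Finset.mem_Icc.mpr ⟨Int.floor_le_floor h1.1, Int.floor_le_floor h1.2⟩
  have hmaps : ∀ p ∈ A, g p ∈ I ×ˢ I := fun p hp =>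
    Finset.mem_product.mpr ⟨hmem _ (hL p hp).1, hmem _ (hL p hp).2⟩
  have hinj : ∀ p ∈ A, ∀ q ∈ A, g p = g q → p = q := by
    intro p hp q hq hpq
    by_contra hne
    have hs := hsep p hp q hq hne
    have hfl : ∀ s t u : ℝ, ⌊(s - u) / σ⌋ = ⌊(t - u) / σ⌋ → |s - t| ≤ σ := by
      intro s t u h
      have h1 := Int.abs_sub_lt_one_of_floor_eq_floor h
      have h2 : (s - u) / σ - (t - u) / σ = (s - t) / σ := by ring
      rw [h2, abs_div, abs_of_pos hσ0, div_lt_one hσ0] at h1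
      exact h1.le
    have h1 := hfl _ _ _ (congrArg Prod.fst hpq)
    have h2 := hfl _ _ _ (congrArg Prod.snd hpq)
    have h3 := torp_le k _ _ _ _ σ h1 h2
    have h4 : ‖p - q‖ ≤ ‖tph k (f p).1 (f p).2 - tph k (f q).1 (f q).2‖ + 2 * κ := by
      have h5 : p - q = (p - tph k (f p).1 (f p).2) +
          (tph k (f p).1 (f p).2 - tph k (f q).1 (f q).2) - (q - tph k (f q).1 (f q).2) := by abel
      calc ‖p - q‖ = ‖(p - tph k (f p).1 (f p).2) +
          (tph k (f p).1 (f p).2 - tph k (f q).1 (f q).2) - (q - tph k (f q).1 (f q).2)‖ := by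
            rw [← h5]
        _ ≤ ‖p - tph k (f p).1 (f p).2‖ + ‖tph k (f p).1 (f p).2 - tph k (f q).1 (f q).2‖ +
            ‖q - tph k (f q).1 (f q).2‖ :=
            (norm_sub_le _ _).trans (add_le_add_left (norm_add_le _ _) _)
        _ ≤ _ := by linarith [(hf p hp).1, (hf q hq).1]
    set c := ‖tph k (f p).1 (f p).2 - tph k (f q).1 (f q).2‖ with hc
    have h6 : 3 / 4 * δ ≤ c := by linarith
    have h7 : (3 / 4 * δ) ^ 2 ≤ c ^ 2 := pow_le_pow_left₀ (by positivity) h6 2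
    have h8 : 6 * tR k ^ 2 * σ ^ 2 = 3 / 8 * δ ^ 2 := by
      rw [hσ]
      field_simp
      ring
    rw [h8] at h3
    nlinarith [sq_pos_of_pos hδ]
  have hcard : A.card ≤ (I ×ˢ I).card := Finset.card_le_card_of_injOn g hmaps (by
    intro p hp q hq h
    exact hinj p hp q hq h)
  rw [Finset.card_product] at hcard
  have hI : (I.card : ℝ) ≤ 38 * (ρ / δ) := by
    rw [Int.card_Icc]
    have h1 : (0 : ℤ) ≤ ⌊L⌋ + 1 - ⌊-L⌋ := by
      have h2 : ⌊-L⌋ ≤ ⌊L⌋ := Int.floor_le_floor (by linarith)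
      linarith
    have h2 : (((⌊L⌋ + 1 - ⌊-L⌋).toNat : ℤ) : ℝ) = ((⌊L⌋ + 1 - ⌊-L⌋ : ℤ) : ℝ) := by
      rw [Int.toNat_of_nonneg h1]
    have h3 : (((⌊L⌋ + 1 - ⌊-L⌋).toNat : ℕ) : ℝ) = (((⌊L⌋ + 1 - ⌊-L⌋).toNat : ℤ) : ℝ) := by
      norm_cast
    rw [h3, h2]
    push_cast
    have h4 := Int.floor_le L
    have h5 := Int.lt_floor_add_one (-L)
    have h6 : 1 ≤ ρ / δ := by rwa [le_div_iff₀ hδ, one_mul]
    linarith
  have hA : (A.card : ℝ) ≤ (I.card : ℝ) * (I.card : ℝ) := by exact_mod_cast hcard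
  refine hA.trans ?_
  have h0 : (0 : ℝ) ≤ I.card := Nat.cast_nonneg _
  have h9 : 0 ≤ ρ / δ := by positivity
  nlinarith [mul_le_mul hI hI h0 (by positivity)]

end

end PS
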