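import Pool.Agent.PS.Defs2

set_option autoImplicit false

/-!
# Inversions almost preserve the torus

MP_3de29c_al (Q2), leader helper5; module TORR by helper62.
-/

namespace PS

open Filter Topology
open scoped ENNReal

section

theorem torr_exp2 (w : ℝ) : ‖Complex.exp (w * Complex.I) - 1 - w * Complex.I‖ ≤ w ^ 2 / 2 := by
  have key : ∀ w : ℝ, 0 ≤ w →
      0 ≤ w ^ 4 / 4 - w ^ 2 - 2 + 2 * Real.cos w + 2 * w * Real.sin w := by
    intro w hw
    have hmono : MonotoneOn (fun w : ℝ => w ^ 4 / 4 - w ^ 2 - 2 + 2 * Real.cos w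
        + 2 * w * Real.sin w) (Set.Ici 0) := by
      apply monotoneOn_of_deriv_nonneg (convex_Ici 0)
      · fun_prop
      · fun_prop
      · intro x hx
        have hd : HasDerivAt (fun w : ℝ => w ^ 4 / 4 - w ^ 2 - 2 + 2 * Real.cos w
            + 2 * w * Real.sin w) (4 * x ^ 3 / 4 - 2 * x + 2 * (-Real.sin x)
              + (2 * Real.sin x + 2 * x * Real.cos x)) x := by
          have h1 : HasDerivAt (fun w : ℝ => w ^ 4 / 4) (4 * x ^ 3 / 4) x := by
            simpa using (hasDerivAt_pow 4 x).div_const 4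
          have h2 : HasDerivAt (fun w : ℝ => w ^ 2) (2 * x) x := by
            simpa using hasDerivAt_pow 2 x
          have h3 : HasDerivAt (fun w : ℝ => 2 * Real.cos w) (2 * (-Real.sin x)) x :=
            (Real.hasDerivAt_cos x).const_mul 2
          have h4 : HasDerivAt (fun w : ℝ => 2 * w * Real.sin w)
              (2 * Real.sin x + 2 * x * Real.cos x) x := by
            have h5 : HasDerivAt (fun w : ℝ => 2 * w) 2 x := by
              simpa using (hasDerivAt_id x).const_mul 2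
            exact h5.mul (Real.hasDerivAt_sin x)
          exact (((h1.sub h2).sub_const 2).add h3).add h4
        rw [hd.deriv]
        have hx' : 0 < x := by simpa using hx
        have hc := Real.one_sub_sq_div_two_le_cos (x := x)
        nlinarith [mul_nonneg hx'.le (by linarith : 0 ≤ x ^ 2 - 2 + 2 * Real.cos x)]
    have h := hmono (Set.mem_Ici.2 le_rfl) (Set.mem_Ici.2 hw) hw
    simpa using h
  have keyabs : 0 ≤ w ^ 4 / 4 - w ^ 2 - 2 + 2 * Real.cos w + 2 * w * Real.sin w := by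
    rcases le_total 0 w with h | h
    · exact key w h
    · have h2 := key (-w) (by linarith)
      rw [Real.cos_neg, Real.sin_neg] at h2
      nlinarith [h2]
  have hsq : ‖Complex.exp (w * Complex.I) - 1 - w * Complex.I‖ ^ 2 ≤ (w ^ 2 / 2) ^ 2 := by
    rw [Complex.sq_norm, Complex.normSq_apply]
    have h1 : (Complex.exp (w * Complex.I) - 1 - w * Complex.I).re = Real.cos w - 1 := by
      simp [Complex.exp_ofReal_mul_I_re]
    have h2 : (Complex.exp (w * Complex.I) - 1 - w * Complex.I).im = Real.sin w - w := by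
      simp [Complex.exp_ofReal_mul_I_im]
    rw [h1, h2]
    nlinarith [Real.sin_sq_add_cos_sq w]
  exact (pow_le_pow_iff_left₀ (norm_nonneg _) (by positivity) two_ne_zero).1 hsq

theorem torr_norm (u : E3) : ‖u‖ ^ 2 = ‖u 0‖ ^ 2 + ‖u 1‖ ^ 2 + ‖u 2‖ ^ 2 := by
  rw [EuclideanSpace.norm_sq_eq, Fin.sum_univ_three]

theorem torr_c0 (k : ℕ) (a b : ℝ) : tph k a b 0 = tR k * Complex.exp (a * Complex.I) := by
  simp [tph]

theorem torr_c1 (k : ℕ) (a b : ℝ) : tph k a b 1 = tR k * Complex.exp (b * Complex.I) := by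
  simp [tph]

theorem torr_c2 (k : ℕ) (a b : ℝ) :
    tph k a b 2 = tR k * Complex.exp (((-(a + b) : ℝ) : ℂ) * Complex.I) := by
  simp [tph]

/-- reduction of an angle -/
theorem torr_red (a0 a : ℝ) : ∃ x : ℝ, |x| ≤ Real.pi ∧
    Complex.exp (a * Complex.I) = Complex.exp (((a0 + x : ℝ) : ℂ) * Complex.I) ∧
    ∃ n : ℤ, a = a0 + x + n * (2 * Real.pi) := by
  refine ⟨toIocMod Real.two_pi_pos (-Real.pi) (a - a0), ?_, ?_, ?_⟩
  · have h := toIocMod_mem_Ioc Real.two_pi_pos (-Real.pi) (a - a0)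
    rw [abs_le]
    constructor
    · exact h.1.le
    · linarith [h.2]
  · have h := toIocMod_add_toIocDiv_zsmul Real.two_pi_pos (-Real.pi) (a - a0)
    rw [zsmul_eq_mul] at h
    rw [Complex.exp_eq_exp_iff_exists_int]
    refine ⟨toIocDiv Real.two_pi_pos (-Real.pi) (a - a0), ?_⟩
    have h2 : (a : ℝ) = a0 + toIocMod Real.two_pi_pos (-Real.pi) (a - a0) +
      (toIocDiv Real.two_pi_pos (-Real.pi) (a - a0)) * (2 * Real.pi) := by linarith
    have h3 : (a : ℂ) = ((a0 + toIocMod Real.two_pi_pos (-Real.pi) (a - a0) +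
      (toIocDiv Real.two_pi_pos (-Real.pi) (a - a0)) * (2 * Real.pi) : ℝ) : ℂ) := by
      rw [← h2]
    rw [h3]
    push_cast
    ring
  · have h := toIocMod_add_toIocDiv_zsmul Real.two_pi_pos (-Real.pi) (a - a0)
    rw [zsmul_eq_mul] at h
    exact ⟨toIocDiv Real.two_pi_pos (-Real.pi) (a - a0), by linarith⟩

/-- lower bound for the chord -/
theorem torr_chord (x : ℝ) (hx : |x| ≤ Real.pi) :
    2 * |x| / Real.pi ≤ ‖Complex.exp (x * Complex.I) - 1‖ := by
  rw [mul_comm (x : ℂ), Complex.norm_exp_I_mul_ofReal_sub_one]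
  rw [Real.norm_eq_abs, abs_mul, abs_two]
  have h1 : |Real.sin (x / 2)| = Real.sin (|x| / 2) := by
    rcases le_total 0 x with h | h
    · rw [abs_of_nonneg h] at hx ⊢
      exact abs_of_nonneg (Real.sin_nonneg_of_nonneg_of_le_pi (by linarith) (by linarith))
    · rw [abs_of_nonpos h] at hx ⊢
      rw [← abs_neg, ← Real.sin_neg, neg_div]
      exact abs_of_nonneg (Real.sin_nonneg_of_nonneg_of_le_pi (by linarith) (by linarith))
  rw [h1]
  have h2 := Real.mul_le_sin (x := |x| / 2) (by positivity) (by linarith)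
  calc 2 * |x| / Real.pi = 2 * (2 / Real.pi * (|x| / 2)) := by ring
    _ ≤ _ := by linarith

/-- one coordinate -/
theorem torr_coord (R c t a : ℝ) (hR : 0 ≤ R) (hc : 0 ≤ c) :
    ‖(R : ℂ) * Complex.exp (a * Complex.I) + (c : ℂ) * ((R : ℂ) *
      Complex.exp (((a + t : ℝ) : ℂ) * Complex.I) - (R : ℂ) * Complex.exp (a * Complex.I)) -
      (R : ℂ) * Complex.exp (((a + c * t : ℝ) : ℂ) * Complex.I)‖ ≤
      R * (t ^ 2 * (c + c ^ 2) / 2) := by
  have h1 : (R : ℂ) * Complex.exp (a * Complex.I) + (c : ℂ) * ((R : ℂ) *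
      Complex.exp (((a + t : ℝ) : ℂ) * Complex.I) - (R : ℂ) * Complex.exp (a * Complex.I)) -
      (R : ℂ) * Complex.exp (((a + c * t : ℝ) : ℂ) * Complex.I) =
      ((R : ℂ) * Complex.exp (a * Complex.I)) *
        ((c : ℂ) * (Complex.exp (t * Complex.I) - 1 - t * Complex.I) -
        (Complex.exp (((c * t : ℝ) : ℂ) * Complex.I) - 1 - ((c * t : ℝ) : ℂ) * Complex.I)) := by
    have e1 : Complex.exp (((a + t : ℝ) : ℂ) * Complex.I) =
        Complex.exp (a * Complex.I) * Complex.exp (t * Complex.I) := by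
      rw [← Complex.exp_add]; congr 1; push_cast; ring
    have e2 : Complex.exp (((a + c * t : ℝ) : ℂ) * Complex.I) =
        Complex.exp (a * Complex.I) * Complex.exp (((c * t : ℝ) : ℂ) * Complex.I) := by
      rw [← Complex.exp_add]; congr 1; push_cast; ring
    rw [e1, e2]
    push_cast
    ring
  rw [h1, norm_mul, norm_mul, Complex.norm_exp_ofReal_mul_I, Complex.norm_real, Real.norm_eq_abs,
    abs_of_nonneg hR, mul_one]
  apply mul_le_mul_of_nonneg_left _ hR
  refine (norm_sub_le _ _).trans ?_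
  rw [norm_mul, Complex.norm_real, Real.norm_eq_abs, abs_of_nonneg hc]
  have h2 := torr_exp2 t
  have h3 := torr_exp2 (c * t)
  have h4 := mul_le_mul_of_nonneg_left h2 hc
  calc _ ≤ c * (t ^ 2 / 2) + (c * t) ^ 2 / 2 := add_le_add h4 h3
    _ = t ^ 2 * (c + c ^ 2) / 2 := by ring

theorem tor_refl : ∃ N : ℕ, ∀ k, N ≤ k → ∀ s, ∀ z ∈ tS k, 3 / 5 ≤ ‖z - tv k s‖ →
    ∃ z' ∈ tS k, ‖inv2 (tv k s) z - z'‖ ≤ 100 / k := by
  refine ⟨2, fun k hk s z hz hD => ?_⟩
  obtain ⟨a, b, rfl⟩ := hz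
  set a0 : ℝ := 2 * Real.pi * s.1.val / k with ha0
  set b0 : ℝ := 2 * Real.pi * s.2.val / k with hb0
  have htv : tv k s = tph k a0 b0 := rfl
  rw [htv] at hD ⊢
  obtain ⟨x, hx, hx1, n, hn⟩ := torr_red a0 a
  obtain ⟨y, hy, hy1, m, hm⟩ := torr_red b0 b
  have hk0 : (0 : ℝ) < k := by
    have : (2 : ℝ) ≤ k := by exact_mod_cast hk
    linarith
  have hk2 : (2 : ℝ) ≤ k := by exact_mod_cast hk
  have hpi := Real.pi_pos
  have hsin0 : 0 < Real.sin (Real.pi / k) := by
    apply Real.sin_pos_of_pos_of_lt_pi (by positivity)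
    rw [div_lt_iff₀ hk0]; nlinarith
  have hsin1 : Real.sin (Real.pi / k) ≤ Real.pi / k := Real.sin_le (by positivity)
  have hR : 0 < tR k := by unfold tR; positivity
  have hzz : tph k a b = tph k (a0 + x) (b0 + y) := by
    have h3 : Complex.exp (((-(a + b) : ℝ) : ℂ) * Complex.I) =
        Complex.exp (((-((a0 + x) + (b0 + y)) : ℝ) : ℂ) * Complex.I) := by
      rw [Complex.exp_eq_exp_iff_exists_int]
      refine ⟨-(n + m), ?_⟩
      rw [hn, hm]; push_cast; ring
    ext i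
    fin_cases i
    · show tph k a b 0 = tph k (a0 + x) (b0 + y) 0
      rw [torr_c0, torr_c0, hx1]
    · show tph k a b 1 = tph k (a0 + x) (b0 + y) 1
      rw [torr_c1, torr_c1, hy1]
    · show tph k a b 2 = tph k (a0 + x) (b0 + y) 2
      rw [torr_c2, torr_c2, h3]
  rw [hzz] at hD ⊢
  set z : E3 := tph k (a0 + x) (b0 + y) with hz
  set D : ℝ := ‖z - tph k a0 b0‖ with hDd
  have hD0 : 0 < D := by linarith
  set c : ℝ := 1 / (2 * D ^ 2) with hc
  have hc0 : 0 < c := by positivity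
  refine ⟨tph k (a0 + c * x) (b0 + c * y), ⟨_, _, rfl⟩, ?_⟩
  -- bounds for `x`, `y`
  have hsq : D ^ 2 = ‖(z - tph k a0 b0) 0‖ ^ 2 + ‖(z - tph k a0 b0) 1‖ ^ 2 +
      ‖(z - tph k a0 b0) 2‖ ^ 2 := torr_norm _
  have hbd : ∀ (u e : ℝ), |u| ≤ Real.pi → ‖(tR k : ℂ) * Complex.exp (((e + u : ℝ) : ℂ) *
      Complex.I) - tR k * Complex.exp (e * Complex.I)‖ ^ 2 ≤ D ^ 2 →
      |u| ≤ Real.pi * D / (2 * tR k) := by
    intro u e hu h
    have h1 : (tR k : ℂ) * Complex.exp (((e + u : ℝ) : ℂ) *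
      Complex.I) - tR k * Complex.exp (e * Complex.I) = (tR k : ℂ) * Complex.exp (e * Complex.I)
        * (Complex.exp (u * Complex.I) - 1) := by
      have e1 : Complex.exp (((e + u : ℝ) : ℂ) * Complex.I) =
          Complex.exp (e * Complex.I) * Complex.exp (u * Complex.I) := by
        rw [← Complex.exp_add]; congr 1; push_cast; ring
      rw [e1]; ring
    rw [h1, norm_mul, norm_mul, Complex.norm_exp_ofReal_mul_I, Complex.norm_real,
      Real.norm_eq_abs, abs_of_nonneg hR.le, mul_one] at h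
    have h2 := (pow_le_pow_iff_left₀ (by positivity) hD0.le two_ne_zero).1 h
    have h3 := torr_chord u hu
    have h4 := mul_le_mul_of_nonneg_left h3 hR.le
    rw [le_div_iff₀ (by positivity)]
    have h5 : tR k * (2 * |u| / Real.pi) ≤ D := h4.trans h2
    have h6 : tR k * (2 * |u| / Real.pi) = (|u| * (2 * tR k)) / Real.pi := by ring
    rw [h6, div_le_iff₀ hpi] at h5
    linarith
  set M : ℝ := Real.pi * D / (2 * tR k) with hM
  have hM0 : 0 < M := by positivity
  have hxM : |x| ≤ M := by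
    apply hbd x a0 hx
    have h : (z - tph k a0 b0) 0 = (tR k : ℂ) * Complex.exp (((a0 + x : ℝ) : ℂ) *
      Complex.I) - tR k * Complex.exp (a0 * Complex.I) := by
      rw [← torr_c0 k (a0 + x) (b0 + y), ← torr_c0 k a0 b0]; rfl
    rw [hsq, ← h]
    nlinarith [sq_nonneg ‖(z - tph k a0 b0) 1‖, sq_nonneg ‖(z - tph k a0 b0) 2‖]
  have hyM : |y| ≤ M := by
    apply hbd y b0 hy
    have h : (z - tph k a0 b0) 1 = (tR k : ℂ) * Complex.exp (((b0 + y : ℝ) : ℂ) *
      Complex.I) - tR k * Complex.exp (b0 * Complex.I) := by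
      rw [← torr_c1 k (a0 + x) (b0 + y), ← torr_c1 k a0 b0]; rfl
    rw [hsq, ← h]
    nlinarith [sq_nonneg ‖(z - tph k a0 b0) 0‖, sq_nonneg ‖(z - tph k a0 b0) 2‖]
  have hx2 : x ^ 2 ≤ M ^ 2 := by rw [← sq_abs x]; gcongr
  have hy2 : y ^ 2 ≤ M ^ 2 := by rw [← sq_abs y]; gcongr
  have hxy2 : (-(x + y)) ^ 2 ≤ 4 * M ^ 2 := by nlinarith [sq_nonneg (x - y)]
  have hcc : 0 ≤ c + c ^ 2 := by positivity
  set B : ℝ := tR k * (M ^ 2 * (c + c ^ 2) / 2) with hB
  have hB0 : 0 ≤ B := by positivity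
  -- coordinates of the difference
  have hw : ∀ i : Fin 3, (inv2 (tph k a0 b0) z - tph k (a0 + c * x) (b0 + c * y)) i =
      tph k a0 b0 i + (c : ℂ) * (z i - tph k a0 b0 i) - tph k (a0 + c * x) (b0 + c * y) i := by
    intro i
    simp only [inv2, ← hDd, ← hc]
    rfl
  have hw0 : ‖(inv2 (tph k a0 b0) z - tph k (a0 + c * x) (b0 + c * y)) 0‖ ≤ B := by
    rw [hw, hz, torr_c0, torr_c0, torr_c0]
    refine (torr_coord (tR k) c x a0 hR.le hc0.le).trans ?_
    rw [hB]
    gcongr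
  have hw1 : ‖(inv2 (tph k a0 b0) z - tph k (a0 + c * x) (b0 + c * y)) 1‖ ≤ B := by
    rw [hw, hz, torr_c1, torr_c1, torr_c1]
    refine (torr_coord (tR k) c y b0 hR.le hc0.le).trans ?_
    rw [hB]
    gcongr
  have hw2 : ‖(inv2 (tph k a0 b0) z - tph k (a0 + c * x) (b0 + c * y)) 2‖ ≤ 4 * B := by
    rw [hw, hz, torr_c2, torr_c2, torr_c2]
    have e1 : -(a0 + x + (b0 + y)) = -(a0 + b0) + -(x + y) := by ring
    have e2 : -(a0 + c * x + (b0 + c * y)) = -(a0 + b0) + c * (-(x + y)) := by ring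
    rw [e1, e2]
    refine (torr_coord (tR k) c (-(x + y)) (-(a0 + b0)) hR.le hc0.le).trans ?_
    have e3 : 4 * B = tR k * ((4 * M ^ 2) * (c + c ^ 2) / 2) := by rw [hB]; ring
    rw [e3]
    gcongr
  have hnorm : ‖inv2 (tph k a0 b0) z - tph k (a0 + c * x) (b0 + c * y)‖ ≤ 6 * B := by
    apply (pow_le_pow_iff_left₀ (norm_nonneg _) (by positivity) two_ne_zero).1
    rw [torr_norm]
    have g0 := pow_le_pow_left₀ (norm_nonneg _) hw0 2
    have g1 := pow_le_pow_left₀ (norm_nonneg _) hw1 2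
    have g2 := pow_le_pow_left₀ (norm_nonneg _) hw2 2
    nlinarith [sq_nonneg B]
  refine hnorm.trans ?_
  have hD' : D ≠ 0 := hD0.ne'
  have hR' : tR k ≠ 0 := hR.ne'
  have hBv : 6 * B = 3 * Real.pi ^ 2 / 4 * (1 / 2 + 1 / (4 * D ^ 2)) * (1 / tR k) := by
    rw [hB, hM, hc]
    field_simp
    ring
  rw [hBv]
  have hRinv : 1 / tR k = 2 * Real.sqrt 2 * Real.sin (Real.pi / k) := by
    unfold tR; rw [one_div_one_div]
  have hs2 : Real.sqrt 2 ≤ 1.42 := by
    rw [Real.sqrt_le_left (by norm_num)]; norm_num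
  have hpi2 : Real.pi ≤ 3.15 := Real.pi_lt_d2.le
  have hR3 : 1 / tR k ≤ 8.946 / k := by
    rw [hRinv]
    calc 2 * Real.sqrt 2 * Real.sin (Real.pi / k) ≤ 2 * 1.42 * (3.15 / k) := by
          have : Real.sin (Real.pi / k) ≤ 3.15 / k := hsin1.trans (by gcongr)
          gcongr
      _ = 8.946 / k := by ring
  have hD3 : 1 / 2 + 1 / (4 * D ^ 2) ≤ 1.195 := by
    have h : (0.36 : ℝ) ≤ D ^ 2 := by nlinarith
    have h2 : 1 / (4 * D ^ 2) ≤ 1 / (4 * 0.36) := by gcongr
    refine (add_le_add_right h2 _).trans ?_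
    norm_num
  have hp3 : 3 * Real.pi ^ 2 / 4 ≤ 7.45 := by nlinarith
  calc 3 * Real.pi ^ 2 / 4 * (1 / 2 + 1 / (4 * D ^ 2)) * (1 / tR k) ≤
        7.45 * 1.195 * (8.946 / k) := by gcongr
    _ = (7.45 * 1.195 * 8.946) / k := by ring
    _ ≤ 100 / k := by gcongr; norm_num

end

end PS
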