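import Pool.Agent.PS.TorA
import Pool.Agent.PS.TorB
import Pool.Agent.PS.TorC
import Pool.Agent.PS.TorR
import Pool.Agent.PS.TorP

set_option autoImplicit false

/-!
# The configuration on the torus is good

MP_3de29c_al (Q2), helper5.
-/

namespace PS

open Filter Topology
open scoped ENNReal

theorem tor_mem (k : ℕ) (s : ZMod k × ZMod k) : tv k s ∈ tS k := ⟨_, _, rfl⟩

theorem tor_good : ∃ C : ℝ, 0 < C ∧ ∀ κ : ℝ, 0 < κ → ∃ N : ℕ, ∀ k, N ≤ k →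
    ∃ (P : Sph (hexTorus k) E3) (S : Set E3), Srf P κ S ∧ Pack S C := by
  obtain ⟨C, hC, hpack⟩ := tor_pack
  obtain ⟨N1, h1⟩ := tor_sph
  obtain ⟨N2, h2⟩ := tor_clique
  obtain ⟨N3, h3⟩ := tor_cov
  obtain ⟨N4, h4⟩ := tor_refl
  refine ⟨C, hC, fun κ hκ => ?_⟩
  obtain ⟨N5, h5⟩ := exists_nat_gt (100 / κ)
  refine ⟨N1 + N2 + N3 + N4 + N5 + 2, fun k hk => ?_⟩
  obtain ⟨P, hP⟩ := h1 k (by omega)
  refine ⟨P, tS k, ⟨?_, ?_, ?_, h2 k (by omega)⟩, hpack k (by omega)⟩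
  · intro s
    rw [hP]; exact tor_mem k s
  · intro z hz
    rw [hP]; exact h3 k (by omega) z hz
  · intro s z hz hs
    rw [hP] at hs ⊢
    obtain ⟨z', hz', h⟩ := h4 k (by omega) s z hz hs
    refine ⟨z', hz', h.trans ?_⟩
    have hk' : (N5 : ℝ) ≤ k := by exact_mod_cast (by omega : N5 ≤ k)
    have hk0 : (0 : ℝ) < k := lt_of_lt_of_le (lt_of_le_of_lt (by positivity) h5) hk'
    rw [div_le_iff₀ hk0]
    have : 100 / κ < k := lt_of_lt_of_le h5 hk'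
    rw [div_lt_iff₀ hκ] at this
    linarith

end PS
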