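import Pool.Agent.PS.Bpr

set_option autoImplicit false

/-!
# Existence of visual metrics

MP_3de29c_al (Q2), module VIS (helper55), leader helper5.
-/

namespace PS

open Filter Topology
open scoped ENNReal

section

variable {X : Type} {d : X → X → ℝ}

open Classical in
/-- The quasimetric `exp (-e bprod ξ η)`. -/
noncomputable def visQ {o : X} (e : ℝ) (ξ η : Bdry d o) : NNReal :=
  if ξ = η then 0 else Real.toNNReal (Real.exp (-e * bprod ξ η))

theorem visQ_self {o : X} (e : ℝ) (ξ : Bdry d o) : visQ e ξ ξ = 0 := by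
  simp [visQ]

theorem visQ_ne {o : X} (e : ℝ) {ξ η : Bdry d o} (h : ξ ≠ η) :
    ((visQ e ξ η : NNReal) : ℝ) = Real.exp (-e * bprod ξ η) := by
  simp [visQ, h, (Real.exp_pos _).le]

theorem visQ_comm (hd : IsDist d) {o : X} (e : ℝ) (ξ η : Bdry d o) :
    visQ e ξ η = visQ e η ξ := by
  classical
  by_cases h : ξ = η
  · rw [h]
  · unfold visQ
    rw [if_neg h, if_neg (fun h' => h h'.symm), bprod_comm hd]

theorem visQ_le {o : X} {e C : ℝ} (he : 0 < e) (hC : 0 ≤ C)
    (hc : ∀ ξ η ζ : Bdry d o, ξ ≠ η → η ≠ ζ → ξ ≠ ζ →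
      min (bprod ξ η) (bprod η ζ) - C ≤ bprod ξ ζ) (ξ η ζ : Bdry d o) :
    ((visQ e ξ ζ : NNReal) : ℝ) ≤ Real.exp (e * C) * max ((visQ e ξ η : NNReal) : ℝ)
      ((visQ e η ζ : NNReal) : ℝ) := by
  have h1 : (1 : ℝ) ≤ Real.exp (e * C) := Real.one_le_exp (by positivity)
  have h0 : (0 : ℝ) ≤ max ((visQ e ξ η : NNReal) : ℝ) ((visQ e η ζ : NNReal) : ℝ) :=
    le_max_of_le_left (NNReal.coe_nonneg _)
  by_cases h13 : ξ = ζ
  · rw [h13, visQ_self]
    rw [h13] at h0
    push_cast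
    positivity
  by_cases h12 : ξ = η
  · rw [← h12]
    refine le_trans (le_max_right ((visQ e ξ ξ : NNReal) : ℝ) _) ?_
    rw [← h12] at h0
    exact le_mul_of_one_le_left h0 h1
  by_cases h23 : η = ζ
  · rw [← h23]
    rw [← h23] at h0
    refine le_trans (le_max_left _ ((visQ e η η : NNReal) : ℝ)) ?_
    exact le_mul_of_one_le_left h0 h1
  rw [visQ_ne e h13, visQ_ne e h12, visQ_ne e h23]
  have h := hc ξ η ζ h12 h23 h13
  rcases le_total (bprod ξ η) (bprod η ζ) with hm | hm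
  · rw [min_eq_left hm] at h
    refine le_trans ?_ (mul_le_mul_of_nonneg_left (le_max_left _ _) (Real.exp_pos _).le)
    rw [← Real.exp_add]
    apply Real.exp_le_exp.2
    nlinarith
  · rw [min_eq_right hm] at h
    refine le_trans ?_ (mul_le_mul_of_nonneg_left (le_max_right _ _) (Real.exp_pos _).le)
    rw [← Real.exp_add]
    apply Real.exp_le_exp.2
    nlinarith

theorem exists_visual (hd : IsDist d) (hh : IsHyp d) (o : X) :
    ∃ v : MetricSpace (Bdry d o), IsVisual v := by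
  obtain ⟨C, hC, hc⟩ := bprod_hyp hd hh o
  set e : ℝ := Real.log 2 / (2 * (C + 1)) with he_def
  have hl2 : 0 < Real.log 2 := Real.log_pos (by norm_num)
  have he : 0 < e := by positivity
  have heC : Real.exp (e * C) * Real.exp (e * C) ≤ 2 := by
    rw [← Real.exp_add]
    calc Real.exp (e * C + e * C) ≤ Real.exp (Real.log 2) := by
          apply Real.exp_le_exp.2
          have : e * (2 * (C + 1)) = Real.log 2 := by
            rw [he_def]
            field_simp
          nlinarith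
      _ = 2 := Real.exp_log (by norm_num)
  have hq : ∀ x₁ x₂ x₃ x₄ : Bdry d o, visQ e x₁ x₄ ≤
      2 * max (visQ e x₁ x₂) (max (visQ e x₂ x₃) (visQ e x₃ x₄)) := by
    intro x₁ x₂ x₃ x₄
    rw [← NNReal.coe_le_coe]
    push_cast
    have a1 := visQ_le he hC hc x₁ x₂ x₄
    have a2 := visQ_le he hC hc x₂ x₃ x₄
    set L := Real.exp (e * C) with hL
    have hL1 : 1 ≤ L := Real.one_le_exp (by positivity)
    set M := max ((visQ e x₁ x₂ : NNReal) : ℝ) (max ((visQ e x₂ x₃ : NNReal) : ℝ)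
      ((visQ e x₃ x₄ : NNReal) : ℝ)) with hM
    have hM0 : 0 ≤ M := le_max_of_le_left (NNReal.coe_nonneg _)
    have b1 : ((visQ e x₁ x₂ : NNReal) : ℝ) ≤ M := le_max_left _ _
    have b2 : max ((visQ e x₂ x₃ : NNReal) : ℝ) ((visQ e x₃ x₄ : NNReal) : ℝ) ≤ M :=
      le_max_right _ _
    have b3 : ((visQ e x₂ x₄ : NNReal) : ℝ) ≤ L * M :=
      a2.trans (mul_le_mul_of_nonneg_left b2 (by linarith))
    have b4 : max ((visQ e x₁ x₂ : NNReal) : ℝ) ((visQ e x₂ x₄ : NNReal) : ℝ) ≤ L * M :=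
      max_le (b1.trans (le_mul_of_one_le_left hM0 hL1)) b3
    calc ((visQ e x₁ x₄ : NNReal) : ℝ) ≤ L * (L * M) :=
          a1.trans (mul_le_mul_of_nonneg_left b4 (by linarith))
      _ = (L * L) * M := by ring
      _ ≤ 2 * M := mul_le_mul_of_nonneg_right heC hM0
  let m : PseudoMetricSpace (Bdry d o) :=
    PseudoMetricSpace.ofPreNNDist (visQ e) (visQ_self e) (visQ_comm hd e)
  have hle : ∀ x y : Bdry d o, m.dist x y ≤ visQ e x y :=
    PseudoMetricSpace.dist_ofPreNNDist_le (visQ e) (visQ_self e) (visQ_comm hd e)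
  have hge : ∀ x y : Bdry d o, ((visQ e x y : NNReal) : ℝ) ≤ 2 * m.dist x y :=
    PseudoMetricSpace.le_two_mul_dist_ofPreNNDist (visQ e) (visQ_self e) (visQ_comm hd e) hq
  refine ⟨{ m with
    eq_of_dist_eq_zero := by
      intro x y hxy
      by_contra hne
      have h1 := hge x y
      rw [visQ_ne e hne] at h1
      have h2 : m.dist x y = 0 := hxy
      rw [h2] at h1
      have := Real.exp_pos (-e * bprod x y)
      linarith }, ?_⟩
  refine ⟨e, 2, he, by norm_num, ?_⟩
  intro ξ η hne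
  have h1 := hge ξ η
  have h2 := hle ξ η
  rw [visQ_ne e hne] at h1 h2
  have h3 := Real.exp_pos (-e * bprod ξ η)
  constructor
  · show 2⁻¹ * Real.exp (-e * bprod ξ η) ≤ m.dist ξ η
    linarith
  · show m.dist ξ η ≤ 2 * Real.exp (-e * bprod ξ η)
    linarith

end

end PS
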