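import Pool.Agent.PS.Dst
import Pool.Agent.PS.Lim
import Pool.Agent.PS.Vis
import Pool.Agent.PS.Qs
import Pool.Agent.PS.TorG
import Pool.Agent.PS.Dim

set_option autoImplicit false

/-!
# Assembly for MP_3de29c_al (Q2)
-/

namespace PS

open Filter Topology
open scoped ENNReal

theorem wdist_eq (k : ℕ) (a b : Wk k) : wdist (gens k) a b = (len (a⁻¹ * b) : ℝ) := by
  unfold wdist gens
  rw [wlen_eq]

theorem Pack.mono {E : Type} [NormedAddCommGroup E] [InnerProductSpace ℝ E] {S : Set E}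
    {C C' : ℝ} (h : Pack S C) (hC : C ≤ C') : Pack S C' := by
  intro κ δ ρ z A h1 h2 h3 h4 h5 h6 h7
  exact (h κ δ ρ z A h1 h2 h3 h4 h5 h6 h7).trans
    (mul_le_mul_of_nonneg_right hC (by positivity))

theorem Rough.isDist {X : Type} {d : X → X → ℕ} {D : X → X → ℝ} {α A δ : ℝ}
    (h : Rough d D α A δ) : IsDist (fun a b : X => (d a b : ℝ)) where
  self x := by simp [h.d_self]
  comm x y := by simp only [h.d_comm x y]
  tri x y z := by exact_mod_cast h.d_tri x y z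

theorem main (ε : ℝ) (hε : 0 < ε) : ∃ N : ℕ, ∀ k : ℕ, N ≤ k →
    IsHyp (wdist (gens k)) ∧ confDim (wdist (gens k)) 1 < ENNReal.ofReal (2 + ε) := by
  obtain ⟨C, hC, hgood⟩ := tor_good
  set Cp : ℝ := max C 1 with hCp
  have hCp1 : 1 ≤ Cp := le_max_right _ _
  set p : ℝ := 2 + ε / 2 with hp
  obtain ⟨K, hK2, hKp⟩ : ∃ K : ℝ, 2 ≤ K ∧ 200000 * Cp ^ 2 * K ^ (2 - p) ≤ 1 := by
    have h1 : Tendsto (fun K : ℝ => 200000 * Cp ^ 2 * K ^ (-(ε / 2))) atTop
        (𝓝 (200000 * Cp ^ 2 * 0)) :=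
      (tendsto_rpow_neg_atTop (by positivity)).const_mul _
    rw [mul_zero] at h1
    have h2 := (h1.eventually (ge_mem_nhds (show (0 : ℝ) < 1 by norm_num))).and
      (eventually_ge_atTop (2 : ℝ))
    obtain ⟨K, h3, h4⟩ := h2.exists
    refine ⟨K, h4, ?_⟩
    have : 2 - p = -(ε / 2) := by rw [hp]; ring
    rw [this]; exact h3
  obtain ⟨N, hN⟩ := hgood (1 / (10000 * K)) (by positivity)
  refine ⟨N + 2, fun k hk => ?_⟩
  haveI : NeZero k := ⟨by omega⟩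
  obtain ⟨P, S, hS, hPk⟩ := hN k (by omega)
  have hPk' : Pack S Cp := hPk.mono (le_max_left _ _)
  have hκ0 : (0 : ℝ) ≤ 1 / (10000 * K) := by positivity
  have hκ : 1 / (10000 * K) ≤ 1 / 1000 := by
    apply one_div_le_one_div_of_le <;> linarith
  have hκK : 10000 * K * (1 / (10000 * K)) ≤ 1 := by
    rw [mul_one_div, div_self (by positivity)]
  obtain ⟨α, A, δ, hR⟩ := rough P hS hκ0 hκ
  have hd : wdist (gens k) = fun a b : Wk k => (len (a⁻¹ * b) : ℝ) := by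
    funext a b; exact wdist_eq k a b
  have hyp := rough_hyp hR
  rw [hd]
  refine ⟨hyp, ?_⟩
  obtain ⟨Φ, hΦ, hlim, C', hC', hcmp⟩ := lim_map hR (1 : Wk k) (cc P)
    (fun x y hx hy hxy => gp_DD P hx hy hxy)
  obtain ⟨v, hv⟩ := exists_visual hR.isDist hyp (1 : Wk k)
  have hq := qsym_of hR.α_pos hR.A_pos v hv Φ hΦ C' hC' hcmp
  have hdim := dim P hS hκ0 hPk' hCp1 hK2 hκK (by rw [hp]; linarith) hKp Φ hΦ hlim
  refine lt_of_le_of_lt (iInf₂_le_of_le (MetricSpace.induced Φ hΦ inferInstance) ⟨v, hv, hq⟩ hdim) ?_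
  rw [hp]
  exact (ENNReal.ofReal_lt_ofReal_iff (by linarith)).2 (by linarith)

end PS
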