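import Pool.Agent.PS.Tits

set_option autoImplicit false

/-!
# The exact identities

MP_3de29c_al (Q2), leader helper5.
-/

namespace PS

open Filter Topology
open scoped ENNReal

section IDS

variable {T : Type} [DecidableEq T] {G : SimpleGraph T} [DecidableRel G.Adj]
  {E : Type} [NormedAddCommGroup E] [InnerProductSpace ℝ E]

theorem ids_bf_comm (x y : ℝ × ℝ × E) : bf x y = bf y x := by
  simp only [bf, real_inner_comm x.2.2 y.2.2]
  ring

theorem ids_bf_inf (x : ℝ × ℝ × E) : bf ((0, 1, 0) : ℝ × ℝ × E) x = -x.1 / 2 := by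
  simp only [bf, inner_zero_left]
  ring

theorem ids_bf_sub_smul (a : ℝ) (x y z : ℝ × ℝ × E) : bf (x - a • y) z = bf x z - a * bf y z := by
  simp only [bf, Prod.snd_sub, Prod.fst_sub, Prod.smul_snd, Prod.smul_fst, inner_sub_left,
    inner_smul_left, smul_eq_mul]
  simp
  ring

theorem ids_bf_rt (v : E) : bf (rt v) (rt v) = 1 / 2 := by
  simp only [bf, rt, real_inner_self_eq_norm_sq]
  ring

theorem ids_rf (v : E) (x : ℝ × ℝ × E) : rf v x = x - (4 * bf x (rt v)) • rt v := rfl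

theorem ids_pt_one (P : Sph G E) : pt P 1 = ((0, 1, 0) : ℝ × ℝ × E) := by
  simp [pt]

theorem ids_pt_sr_mul (P : Sph G E) (s : T) (g : RW G) :
    pt P (sr s * g) = pt P g - (4 * bf (pt P g) (rt (P.v s))) • rt (P.v s) := by
  have h1 : pt P (sr s * g) = rep P (sr s) (pt P g) := by
    simp [pt, map_mul]
  rw [h1, rep_sr, ids_rf]

theorem ids_FF_sr_mul (P : Sph G E) (s : T) (g : RW G) :
    FF P (sr s * g) = FF P g - 4 * bf (pt P g) (rt (P.v s)) := by
  simp only [FF, ids_pt_sr_mul, Prod.fst_sub, Prod.smul_fst, rt, smul_eq_mul, mul_one]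

theorem ids_bf_pt_rt (P : Sph G E) (g : RW G) (v : E) :
    bf (pt P g) (rt v) = -(rep P g⁻¹ (rt v)).1 / 2 := by
  have h1 : rep P g (rep P g⁻¹ (rt v)) = rt v := by
    have : (rep P g * rep P g⁻¹) (rt v) = rt v := by
      rw [← map_mul, mul_inv_cancel, map_one]
      rfl
    exact this
  have h2 := bf_rep P g (0, 1, 0) (rep P g⁻¹ (rt v))
  rw [h1] at h2
  rw [pt, h2, ids_bf_inf]

theorem ids_neg (P : Sph G E) {g : RW G} {s : T} (h : ¬ Desc g s) :
    bf (pt P g) (rt (P.v s)) < 0 := by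
  rw [ids_bf_pt_rt]
  have := tits P g s h
  linarith

theorem ids_sr_sr_mul (s : T) (g : RW G) : sr s * (sr s * g) = g := by
  rw [← mul_assoc, sr_sq, one_mul]

theorem ids_ndesc_of_desc {g : RW G} {s : T} (h : Desc g s) : ¬ Desc (sr s * g) s := by
  unfold Desc at h ⊢
  rw [ids_sr_sr_mul]
  omega

theorem ids_pos (P : Sph G E) {g : RW G} {s : T} (h : Desc g s) :
    0 < bf (pt P g) (rt (P.v s)) := by
  have h1 := ids_neg P (ids_ndesc_of_desc h)
  have h2 : pt P g = pt P (sr s * (sr s * g)) := by rw [ids_sr_sr_mul]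
  rw [h2, ids_pt_sr_mul, ids_bf_sub_smul, ids_bf_rt]
  linarith

theorem FF_one (P : Sph G E) : FF P 1 = 0 := by
  simp [FF, ids_pt_one]

theorem FF_sr (P : Sph G E) (s : T) : FF P (sr s) = 2 := by
  have h := ids_FF_sr_mul P s 1
  rw [mul_one, FF_one, ids_pt_one, ids_bf_inf] at h
  rw [h]
  simp [rt]
  norm_num

theorem cc_sr (P : Sph G E) (s : T) : cc P (sr s) = P.v s := by
  have h := ids_pt_sr_mul P s 1
  rw [mul_one, ids_pt_one, ids_bf_inf] at h
  rw [cc, FF_sr, h]
  simp only [rt, Prod.snd_sub, Prod.smul_snd]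
  rw [zero_sub, smul_neg, smul_smul, ← neg_smul]
  norm_num

theorem two_le_FF (P : Sph G E) {g : RW G} (hg : g ≠ 1) : 2 ≤ FF P g := by
  induction hn : len g using Nat.strong_induction_on generalizing g with
  | _ n ih =>
    obtain ⟨s, hs⟩ := exists_desc hg
    by_cases h1 : sr s * g = 1
    · have h2 : g = sr s := by
        have := ids_sr_sr_mul s g
        rw [h1, mul_one] at this
        exact this.symm
      rw [h2, FF_sr]
    · have hlt : len (sr s * g) < n := by
        have := hs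
        unfold Desc at this
        omega
      have h2 := ih _ hlt h1 rfl
      have h3 := ids_FF_sr_mul P s (sr s * g)
      rw [ids_sr_sr_mul] at h3
      have h4 := ids_neg P (ids_ndesc_of_desc hs)
      rw [h3]
      linarith

theorem FF_inv (P : Sph G E) (g : RW G) : FF P g⁻¹ = FF P g := by
  have h1 := bf_pt P 1 g
  have h2 := bf_pt P g 1
  rw [ids_bf_comm, h2] at h1
  rw [inv_one, one_mul, mul_one] at h1
  linarith

theorem ids_ne (P : Sph G E) {g : RW G} (hg : g ≠ 1) : FF P g ≠ 0 := by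
  have := two_le_FF P hg
  intro h
  rw [h] at this
  norm_num at this

theorem ids_pt (P : Sph G E) {g : RW G} (hg : g ≠ 1) :
    pt P g = (FF P g, FF P g * ‖cc P g‖ ^ 2, FF P g • cc P g) := by
  have h0 := ids_ne P hg
  have h2 : (pt P g).2.2 = FF P g • cc P g := by
    rw [cc, smul_smul, mul_inv_cancel₀ h0, one_smul]
  have h3 := pt_light P g
  rw [h2, norm_smul, mul_pow, Real.norm_eq_abs, sq_abs] at h3
  have h4 : (pt P g).2.1 = FF P g * ‖cc P g‖ ^ 2 := by
    have h5 : FF P g * (pt P g).2.1 = FF P g * (FF P g * ‖cc P g‖ ^ 2) := by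
      have : (pt P g).1 = FF P g := rfl
      rw [this] at h3
      rw [← h3]
      ring
    exact mul_left_cancel₀ h0 h5
  exact Prod.ext rfl (Prod.ext h4 h2)

theorem ids_norm_sub_sq (x y : E) :
    inner ℝ x y = (‖x‖ ^ 2 + ‖y‖ ^ 2 - ‖x - y‖ ^ 2) / 2 := by
  have := norm_sub_sq_real x y
  linarith

theorem cc_dist (P : Sph G E) {g h : RW G} (hg : g ≠ 1) (hh : h ≠ 1) :
    ‖cc P g - cc P h‖ ^ 2 * (FF P g * FF P h) = FF P (g⁻¹ * h) := by
  have h1 := bf_pt P g h
  rw [ids_pt P hg, ids_pt P hh] at h1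
  simp only [bf, inner_smul_left, inner_smul_right, ids_norm_sub_sq] at h1
  simp at h1
  nlinarith [h1]

theorem ids_bf (P : Sph G E) {g : RW G} (hg : g ≠ 1) (v : E) :
    bf (pt P g) (rt v) = FF P g * (1 / 2 - ‖cc P g - v‖ ^ 2) / 2 := by
  rw [ids_pt P hg]
  simp only [bf, rt, inner_smul_left, ids_norm_sub_sq]
  simp
  ring

theorem FF_sr_mul (P : Sph G E) {g : RW G} (hg : g ≠ 1) (s : T) :
    FF P (sr s * g) = 2 * ‖cc P g - P.v s‖ ^ 2 * FF P g := by
  rw [ids_FF_sr_mul, ids_bf P hg]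
  ring

theorem cc_sr_mul (P : Sph G E) {g : RW G} (hg : g ≠ 1) (s : T) (hs : g ≠ sr s) :
    cc P (sr s * g) = inv2 (P.v s) (cc P g) := by
  have h1 : sr s * g ≠ 1 := by
    intro h
    apply hs
    have := ids_sr_sr_mul s g
    rw [h, mul_one] at this
    exact this.symm
  have h2 := ids_ne P h1
  have hF := ids_ne P hg
  have h3 := FF_sr_mul P hg s
  have hr : ‖cc P g - P.v s‖ ^ 2 ≠ 0 := by
    intro h
    rw [h] at h3
    apply h2
    rw [h3]
    ring
  have h4 : (pt P (sr s * g)).2.2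
      = FF P g • cc P g - (FF P g * (1 - 2 * ‖cc P g - P.v s‖ ^ 2)) • P.v s := by
    rw [ids_pt_sr_mul, ids_bf P hg]
    conv_lhs => rw [ids_pt P hg]
    simp only [rt, Prod.snd_sub, Prod.smul_snd]
    congr 2
    ring
  rw [cc, h4, h3, inv2]
  set R := ‖cc P g - P.v s‖ ^ 2 with hR
  have e1 : (2 * R * FF P g)⁻¹ * FF P g = 1 / (2 * R) := by
    field_simp
  have e2 : (2 * R * FF P g)⁻¹ * (FF P g * (1 - 2 * R)) = 1 / (2 * R) - 1 := by
    field_simp
  rw [smul_sub, smul_smul, smul_smul, e1, e2]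
  module

theorem desc_lt (P : Sph G E) {g : RW G} (hg : g ≠ 1) {s : T} (h : Desc g s) :
    ‖cc P g - P.v s‖ ^ 2 < 1 / 2 := by
  have h1 := ids_pos P h
  rw [ids_bf P hg] at h1
  have h2 := two_le_FF P hg
  by_contra h3
  push Not at h3
  have h4 : FF P g * (1 / 2 - ‖cc P g - P.v s‖ ^ 2) ≤ 0 :=
    mul_nonpos_of_nonneg_of_nonpos (by linarith) (by linarith)
  linarith

theorem ndesc_lt (P : Sph G E) {g : RW G} (hg : g ≠ 1) {s : T} (h : ¬ Desc g s) :
    1 / 2 < ‖cc P g - P.v s‖ ^ 2 := by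
  have h1 := ids_neg P h
  rw [ids_bf P hg] at h1
  have h2 := two_le_FF P hg
  by_contra h3
  push Not at h3
  have h4 : 0 ≤ FF P g * (1 / 2 - ‖cc P g - P.v s‖ ^ 2) :=
    mul_nonneg (by linarith) (by linarith)
  linarith

end IDS

end PS
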