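import Pool.Agent.PS.Defs2

set_option autoImplicit false

/-!
# Sums over the centres

MP_3de29c_al (Q2), module LAT (helper55), leader helper5.
-/

namespace PS

open Filter Topology
open scoped ENNReal

section

variable {T : Type} [DecidableEq T] [Fintype T] {G : SimpleGraph T} [DecidableRel G.Adj]
  {E : Type} [NormedAddCommGroup E] [InnerProductSpace ℝ E]

omit [Fintype T] [InnerProductSpace ℝ E] in
theorem lat_Cp {S : Set E} {Cp : ℝ} (hP : Pack S Cp) : 0 ≤ Cp := by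
  have h := hP 0 1 1 0 ∅ one_pos le_rfl (by norm_num) le_rfl (by simp) (by simp) (by simp)
  simpa using h

omit [DecidableEq T] [Fintype T] [InnerProductSpace ℝ E] in
theorem lat_sep (P : Sph G E) {s t : T} (h : s ≠ t) : 1 ≤ ‖P.v s - P.v t‖ := by
  by_cases hst : G.Adj s t
  · have := P.adj s t hst
    nlinarith [norm_nonneg (P.v s - P.v t)]
  · have := P.nadj s t h hst
    nlinarith [norm_nonneg (P.v s - P.v t)]

/-- sum over the lattice -/
theorem lat (P : Sph G E) {κ : ℝ} {S : Set E} (hS : Srf P κ S) {Cp : ℝ} (hP : Pack S Cp)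
    (z : E) {τ p : ℝ} (hτ : 1 ≤ τ) (hp : 2 ≤ p) (A : Finset T)
    (hA : ∀ s ∈ A, τ ≤ 2 * ‖z - P.v s‖ ^ 2) :
    ∑ s ∈ A, (2 * ‖z - P.v s‖ ^ 2) ^ (-p) ≤ 4 * Cp * τ ^ (1 - p) := by
  classical
  have hCp := lat_Cp hP
  have hτ0 : 0 < τ := by linarith
  have hcl : ∀ s ∈ A, ∃ n : ℕ, (2 : ℝ) ^ n ≤ 2 * ‖z - P.v s‖ ^ 2 / τ ∧
      2 * ‖z - P.v s‖ ^ 2 / τ < 2 ^ (n + 1) := fun s hs =>
    exists_nat_pow_near ((one_le_div hτ0).2 (hA s hs)) one_lt_two
  choose! c hc using hcl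
  set M : ℕ := A.sup c + 1 with hM
  have hmaps : ∀ s ∈ A, c s ∈ Finset.range M := by
    intro s hs
    rw [Finset.mem_range, hM]
    exact Nat.lt_succ_of_le (Finset.le_sup hs)
  rw [← Finset.sum_fiberwise_of_maps_to hmaps]
  have hcard : ∀ a : ℕ, ((A.filter fun s => c s = a).card : ℝ) ≤ Cp * (τ * 2 ^ a) := by
    intro a
    have h2a : (1 : ℝ) ≤ 2 ^ a := one_le_pow₀ one_le_two
    have hta : 1 ≤ τ * 2 ^ a := by nlinarith
    have hinj : Set.InjOn P.v (A.filter fun s => c s = a) := by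
      intro s _ t _ hst
      by_contra hne
      have := lat_sep P hne
      rw [hst, sub_self, norm_zero] at this
      linarith
    rw [← Finset.card_image_of_injOn hinj]
    have hρ : (1 : ℝ) ≤ Real.sqrt (τ * 2 ^ a) := Real.one_le_sqrt.2 hta
    have := hP 0 1 (Real.sqrt (τ * 2 ^ a)) z ((A.filter fun s => c s = a).image P.v) one_pos
      le_rfl (by norm_num) hρ ?_ ?_ ?_
    · rw [div_one, Real.sq_sqrt (by linarith)] at this
      exact this
    · intro b hb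
      obtain ⟨s, _, rfl⟩ := Finset.mem_image.1 hb
      exact ⟨P.v s, hS.mem s, by simp⟩
    · intro b hb
      obtain ⟨s, hs, rfl⟩ := Finset.mem_image.1 hb
      rw [Finset.mem_filter] at hs
      have h1 := (hc s hs.1).2
      rw [hs.2, div_lt_iff₀ hτ0] at h1
      rw [norm_sub_rev]
      refine Real.le_sqrt_of_sq_le ?_
      have h2 : (2 : ℝ) ^ (a + 1) = 2 ^ a * 2 := pow_succ _ _
      rw [h2] at h1
      linarith
    · intro b hb b' hb' hne
      obtain ⟨s, hs, rfl⟩ := Finset.mem_image.1 hb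
      obtain ⟨t, ht, rfl⟩ := Finset.mem_image.1 hb'
      exact lat_sep P (fun h => hne (by rw [h]))
  have hterm : ∀ a ∈ Finset.range M, ∑ s ∈ A.filter (fun s => c s = a),
      (2 * ‖z - P.v s‖ ^ 2) ^ (-p) ≤ Cp * τ ^ (1 - p) * (1 / 2) ^ a := by
    intro a _
    have h2a : (0 : ℝ) < 2 ^ a := by positivity
    have hta : 0 < τ * 2 ^ a := by positivity
    have h1 : ∀ s ∈ A.filter (fun s => c s = a), (2 * ‖z - P.v s‖ ^ 2) ^ (-p) ≤
        (τ * 2 ^ a) ^ (-p) := by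
      intro s hs
      rw [Finset.mem_filter] at hs
      have h2 := (hc s hs.1).1
      rw [hs.2, le_div_iff₀ hτ0] at h2
      exact Real.rpow_le_rpow_of_nonpos hta (by linarith) (by linarith)
    have h3 := Finset.sum_le_card_nsmul _ _ _ h1
    rw [nsmul_eq_mul] at h3
    refine h3.trans ?_
    have h4 : (τ * 2 ^ a) ^ (-p) * (τ * 2 ^ a) = (τ * 2 ^ a) ^ (1 - p) := by
      rw [← Real.rpow_add_one hta.ne']
      congr 1
      ring
    have h5 : ((2 : ℝ) ^ a) ^ (1 - p) ≤ (1 / 2) ^ a := by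
      have h6 : ((1 : ℝ) / 2) ^ a = ((2 : ℝ) ^ a) ^ (-1 : ℝ) := by
        rw [Real.rpow_neg_one, one_div, inv_pow]
      rw [h6]
      exact Real.rpow_le_rpow_of_exponent_le (one_le_pow₀ one_le_two) (by linarith)
    calc ((A.filter fun s => c s = a).card : ℝ) * (τ * 2 ^ a) ^ (-p)
        ≤ (Cp * (τ * 2 ^ a)) * (τ * 2 ^ a) ^ (-p) :=
          mul_le_mul_of_nonneg_right (hcard a) (Real.rpow_nonneg hta.le _)
      _ = Cp * (τ * 2 ^ a) ^ (1 - p) := by rw [← h4]; ring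
      _ = Cp * (τ ^ (1 - p) * ((2 : ℝ) ^ a) ^ (1 - p)) := by
          rw [Real.mul_rpow hτ0.le h2a.le]
      _ ≤ Cp * (τ ^ (1 - p) * (1 / 2) ^ a) := by
          have := Real.rpow_nonneg hτ0.le (1 - p)
          gcongr
      _ = Cp * τ ^ (1 - p) * (1 / 2) ^ a := by ring
  have hpos : 0 ≤ Cp * τ ^ (1 - p) := mul_nonneg hCp (Real.rpow_nonneg hτ0.le _)
  have hgeo : ∑ a ∈ Finset.range M, ((1 : ℝ) / 2) ^ a ≤ 2 := by
    have h1 := geom_sum_eq (by norm_num : (1 : ℝ) / 2 ≠ 1) M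
    rw [h1]
    have : (0 : ℝ) ≤ (1 / 2) ^ M := by positivity
    rw [div_le_iff_of_neg (by norm_num)]
    linarith
  calc ∑ a ∈ Finset.range M, ∑ s ∈ A.filter (fun s => c s = a), (2 * ‖z - P.v s‖ ^ 2) ^ (-p)
      ≤ ∑ a ∈ Finset.range M, Cp * τ ^ (1 - p) * (1 / 2) ^ a := Finset.sum_le_sum hterm
    _ = Cp * τ ^ (1 - p) * ∑ a ∈ Finset.range M, (1 / 2) ^ a := by rw [Finset.mul_sum]
    _ ≤ Cp * τ ^ (1 - p) * 2 := mul_le_mul_of_nonneg_left hgeo hpos
    _ ≤ 4 * Cp * τ ^ (1 - p) := by linarith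

end

end PS
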