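import Pool.Agent.PS.Defs2

set_option autoImplicit false

/-!
# Lengths in right-angled Coxeter groups
-/

namespace PS

open Filter Topology
open scoped ENNReal

section LEN

variable {T : Type} [DecidableEq T] {G : SimpleGraph T} [DecidableRel G.Adj]

theorem sr_sq (s : T) : (sr s : RW G) * sr s = 1 :=
  (racg G).toCoxeterSystem.simple_mul_simple_self s

theorem sr_inv (s : T) : (sr s : RW G)⁻¹ = sr s :=
  (racg G).toCoxeterSystem.inv_simple s

theorem sr_comm {s t : T} (h : G.Adj s t) : (sr s : RW G) * sr t = sr t * sr s := by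
  have h1 := (racg G).toCoxeterSystem.simple_mul_simple_pow s t
  have h2 : (racg G).M s t = 2 := by
    have hne : s ≠ t := h.ne
    simp [racg, hne, h]
  rw [h2, pow_two] at h1
  have h3 : (sr s : RW G) * sr t * (sr s * sr t) = 1 := h1
  calc (sr s : RW G) * sr t = (sr s * sr t * (sr s * sr t)) * (sr s * sr t)⁻¹ := by group
    _ = (sr s * sr t)⁻¹ := by rw [h3, one_mul]
    _ = sr t * sr s := by rw [mul_inv_rev, sr_inv, sr_inv]

theorem len_one : len (1 : RW G) = 0 := (racg G).toCoxeterSystem.length_one

theorem len_eq_zero {g : RW G} : len g = 0 ↔ g = 1 :=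
  (racg G).toCoxeterSystem.length_eq_zero_iff

theorem len_inv (g : RW G) : len g⁻¹ = len g := (racg G).toCoxeterSystem.length_inv g

theorem len_mul_le (g h : RW G) : len (g * h) ≤ len g + len h :=
  (racg G).toCoxeterSystem.length_mul_le g h

theorem len_sr (s : T) : len (sr s : RW G) = 1 := (racg G).toCoxeterSystem.length_simple s

theorem desc_iff {g : RW G} {s : T} : Desc g s ↔ len (sr s * g) + 1 = len g :=
  (racg G).toCoxeterSystem.isLeftDescent_iff

theorem ndesc_iff {g : RW G} {s : T} : ¬ Desc g s ↔ len (sr s * g) = len g + 1 :=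
  (racg G).toCoxeterSystem.not_isLeftDescent_iff

theorem exists_desc {g : RW G} (h : g ≠ 1) : ∃ s, Desc g s :=
  (racg G).toCoxeterSystem.exists_leftDescent_of_ne_one h

theorem exists_split (g : RW G) (n : ℕ) (h : n ≤ len g) :
    ∃ x y : RW G, g = x * y ∧ len x = n ∧ len x + len y = len g := by
  obtain ⟨ω, hω, hg⟩ := (racg G).toCoxeterSystem.exists_isReduced g
  have hl : len g = ω.length := by rw [hg]; exact hω
  have hx : len ((racg G).toCoxeterSystem.wordProd (ω.take n)) = (ω.take n).length := hω.take n
  have hy : len ((racg G).toCoxeterSystem.wordProd (ω.drop n)) = (ω.drop n).length := hω.drop n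
  refine ⟨(racg G).toCoxeterSystem.wordProd (ω.take n),
    (racg G).toCoxeterSystem.wordProd (ω.drop n), ?_, ?_, ?_⟩
  · rw [← CoxeterSystem.wordProd_append, List.take_append_drop, hg]
  · rw [hx, List.length_take]; omega
  · rw [hx, hy, hl, List.length_take, List.length_drop]; omega

theorem finite_len [Finite T] (n : ℕ) : {g : RW G | len g ≤ n}.Finite := by
  have hf : {l : List T | l.length ≤ n}.Finite := List.finite_length_le T n
  refine (hf.image fun ω => (racg G).toCoxeterSystem.wordProd ω).subset ?_
  intro g hg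
  obtain ⟨ω, hω, hg'⟩ := (racg G).toCoxeterSystem.exists_isReduced g
  have hl : len g = ω.length := by rw [hg']; exact hω
  refine ⟨ω, ?_, hg'.symm⟩
  have : len g ≤ n := hg
  show ω.length ≤ n
  omega

theorem wlen_eq (g : RW G) : wlen (Set.range (racg G).simple) g = len g := by
  have hsimp : ∀ s, (racg G).simple s = (sr s : RW G) := fun s => rfl
  have key : ∀ l : List (RW G), (∀ x ∈ l, x ∈ Set.range (racg G).simple ∨
      x⁻¹ ∈ Set.range (racg G).simple) → len l.prod ≤ l.length := by
    intro l
    induction l with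
    | nil => intro _; simp [len_one]
    | cons x l ih =>
      intro h
      have h1 := ih fun y hy => h y (List.mem_cons_of_mem _ hy)
      have h2 : len x = 1 := by
        rcases h x List.mem_cons_self with ⟨s, hs⟩ | ⟨s, hs⟩
        · rw [← hs, hsimp, len_sr]
        · rw [← len_inv, ← hs, hsimp, len_sr]
      rw [List.prod_cons, List.length_cons]
      have := len_mul_le x l.prod
      omega
  obtain ⟨ω, hω, hg⟩ := (racg G).toCoxeterSystem.exists_isReduced g
  have hl : len g = ω.length := by rw [hg]; exact hω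
  have hmem : len g ∈ {n : ℕ | ∃ l : List (RW G), l.length = n ∧
      (∀ x ∈ l, x ∈ Set.range (racg G).simple ∨ x⁻¹ ∈ Set.range (racg G).simple) ∧
      l.prod = g} := by
    refine ⟨ω.map (racg G).simple, by rw [List.length_map, hl], ?_, hg.symm⟩
    intro x hx
    obtain ⟨s, -, rfl⟩ := List.mem_map.1 hx
    exact Or.inl ⟨s, rfl⟩
  apply le_antisymm
  · exact Nat.sInf_le hmem
  · refine le_csInf ⟨_, hmem⟩ ?_
    rintro n ⟨l, rfl, hl', rfl⟩
    exact key l hl'

end LEN

end PS
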