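import Pool.Agent.PS.Desc

set_option autoImplicit false

/-!
# All base points are close to the surface

MP_3de29c_al (Q2), leader helper5.
-/

namespace PS

open Filter Topology
open scoped ENNReal

section NEAR

variable {T : Type} [DecidableEq T] [Fintype T] {G : SimpleGraph T} [DecidableRel G.Adj]
  {E : Type} [NormedAddCommGroup E] [InnerProductSpace ℝ E]

/-- inversion identity -/
theorem inv2_dist (v x y : E) (hx : x ≠ v) (hy : y ≠ v) :
    ‖inv2 v x - inv2 v y‖ = ‖x - y‖ / (2 * (‖x - v‖ * ‖y - v‖)) := by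
  have hx' : ‖x - v‖ ≠ 0 := norm_ne_zero_iff.2 (sub_ne_zero.2 hx)
  have hy' : ‖y - v‖ ≠ 0 := norm_ne_zero_iff.2 (sub_ne_zero.2 hy)
  have h := EuclideanGeometry.dist_inversion_inversion hx hy (1 / Real.sqrt 2)
  have h2 : ∀ w : E, w ≠ v → EuclideanGeometry.inversion v (1 / Real.sqrt 2) w = inv2 v w := by
    intro w hw
    have hw' : ‖w - v‖ ≠ 0 := norm_ne_zero_iff.2 (sub_ne_zero.2 hw)
    unfold EuclideanGeometry.inversion inv2
    rw [vsub_eq_sub, vadd_eq_add, add_comm, dist_eq_norm]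
    congr 2
    rw [div_pow, div_pow, Real.sq_sqrt (by norm_num)]
    field_simp
  rw [h2 x hx, h2 y hy, dist_eq_norm, dist_eq_norm, dist_eq_norm, dist_eq_norm, div_pow,
    Real.sq_sqrt (by norm_num)] at h
  rw [h]
  field_simp

theorem near_step {x z v z' : E} {κ a e : ℝ} (ha : 0 < a) (he : ‖x - z‖ ≤ e)
    (hx : a + e ≤ ‖x - v‖) (hz' : ‖inv2 v z - z'‖ ≤ κ) :
    ‖inv2 v x - z'‖ ≤ e / (2 * ((a + e) * a)) + κ := by
  have he0 : 0 ≤ e := (norm_nonneg _).trans he
  have hz : a ≤ ‖z - v‖ := by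
    have h1 : x - v = (x - z) + (z - v) := by abel
    have h2 : ‖x - v‖ ≤ ‖x - z‖ + ‖z - v‖ := by
      rw [h1]
      exact norm_add_le _ _
    linarith
  have hx0 : x ≠ v := by
    intro h
    rw [h, sub_self, norm_zero] at hx
    linarith
  have hz0 : z ≠ v := by
    intro h
    rw [h, sub_self, norm_zero] at hz
    linarith
  have h1 := inv2_dist v x z hx0 hz0
  have h2 : ‖inv2 v x - z'‖ ≤ ‖inv2 v x - inv2 v z‖ + ‖inv2 v z - z'‖ := by
    have h3 : inv2 v x - z' = (inv2 v x - inv2 v z) + (inv2 v z - z') := by abel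
    rw [h3]
    exact norm_add_le _ _
  have h3 : ‖x - z‖ / (2 * (‖x - v‖ * ‖z - v‖)) ≤ e / (2 * ((a + e) * a)) := by
    gcongr
  rw [h1] at h2
  linarith

theorem near (P : Sph G E) {κ : ℝ} {S : Set E} (hS : Srf P κ S) (hκ0 : 0 ≤ κ)
    (hκ : κ ≤ 1 / 1000) {g : RW G} (hg : g ≠ 1) :
    ∃ z ∈ S, ‖cc P g - z‖ ≤ (5 + 2 * (nd g : ℝ)) * κ := by
  induction hn : len g using Nat.strong_induction_on generalizing g with
  | _ n ih =>
    obtain ⟨s, hs⟩ := exists_desc hg
    have hnd := ids_ndesc_of_desc hs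
    have hgs := ids_sr_sr_mul s g
    have hlen : len (sr s * g) < n := by
      have := hs
      unfold Desc at this
      omega
    generalize sr s * g = h at hnd hgs hlen
    subst hgs
    by_cases h1 : h = 1
    · refine ⟨P.v s, hS.mem s, ?_⟩
      rw [h1, mul_one, cc_sr, sub_self, norm_zero]
      positivity
    · obtain ⟨z, hzS, hz⟩ := ih _ hlen h1 rfl
      have hne : h ≠ sr s := by
        intro h2
        apply hnd
        rw [h2]
        unfold Desc
        rw [sr_sq, len_one, len_sr]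
        omega
      rw [cc_sr_mul P h1 s hne]
      have hnd3 : (nd h : ℝ) ≤ 3 := by
        exact_mod_cast nd_le P hS.clique h
      have hnd0 : (0 : ℝ) ≤ nd h := Nat.cast_nonneg _
      have h2 := ndesc_lt P h1 hnd
      set D := ‖cc P h - P.v s‖ with hD
      have hD0 : 0 ≤ D := norm_nonneg _
      have hD1 : (7071 / 10000 : ℝ) ≤ D := by
        by_contra h3
        push Not at h3
        nlinarith
      have he : (5 + 2 * (nd h : ℝ)) * κ ≤ 11 * κ := by
        apply mul_le_mul_of_nonneg_right _ hκ0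
        linarith
      have hzD : (3 / 5 : ℝ) ≤ ‖z - P.v s‖ := by
        have h3 : ‖cc P h - P.v s‖ ≤ ‖cc P h - z‖ + ‖z - P.v s‖ := by
          have h4 : cc P h - P.v s = (cc P h - z) + (z - P.v s) := by abel
          rw [h4]
          exact norm_add_le _ _
        rw [← hD] at h3
        linarith
      obtain ⟨z', hz'S, hz'⟩ := hS.refl s z hzS hzD
      refine ⟨z', hz'S, ?_⟩
      rcases nd_step P hnd with ⟨u, hu, hus, huadj⟩ | hstep
      · have h3 := desc_lt P h1 hu
        have h4 := P.nadj s u (Ne.symm hus) huadj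
        have h5 : ‖P.v s - P.v u‖ ≤ D + ‖cc P h - P.v u‖ := by
          have h6 : P.v s - P.v u = (cc P h - P.v u) - (cc P h - P.v s) := by abel
          rw [h6]
          have := norm_sub_le (cc P h - P.v u) (cc P h - P.v s)
          rw [← hD] at this
          linarith
        have h6 : ‖cc P h - P.v u‖ ≤ 70711 / 100000 := by
          by_contra h7
          push Not at h7
          nlinarith [norm_nonneg (cc P h - P.v u)]
        have h7 : (17029 / 10000 : ℝ) ≤ ‖P.v s - P.v u‖ := by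
          by_contra h8
          push Not at h8
          nlinarith [norm_nonneg (P.v s - P.v u)]
        have h8 : (995 / 1000 : ℝ) ≤ D := by linarith
        have h9 := near_step (a := 98 / 100) (e := 11 * κ) (by norm_num) (hz.trans he)
          (by rw [← hD]; linarith) hz'
        have h10 : 11 * κ / (2 * ((98 / 100 + 11 * κ) * (98 / 100))) ≤ 6 * κ := by
          rw [div_le_iff₀ (by positivity)]
          nlinarith
        have h11 : (1 : ℝ) ≤ nd (sr s * h) := by
          exact_mod_cast nd_pos hg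
        nlinarith
      · rw [hstep]
        push_cast
        have h9 := near_step (a := 69 / 100) (e := (5 + 2 * (nd h : ℝ)) * κ) (by norm_num) hz
          (by rw [← hD]; linarith) hz'
        have h12 : (5 + 2 * (nd h : ℝ)) * κ / (2 * (((69 / 100 : ℝ) + (5 + 2 * (nd h : ℝ)) * κ) *
          (69 / 100))) ≤ (5 + 2 * (nd h : ℝ)) * κ / (2 * ((69 / 100) * (69 / 100))) := by
          gcongr
          have : 0 ≤ (5 + 2 * (nd h : ℝ)) * κ := by positivity
          linarith
        have h13 : (5 + 2 * (nd h : ℝ)) * κ / (2 * ((69 / 100) * (69 / 100))) ≤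
            (5 + 2 * (nd h : ℝ)) * κ + κ := by
          rw [div_le_iff₀ (by norm_num)]
          nlinarith
        linarith

theorem near' (P : Sph G E) {κ : ℝ} {S : Set E} (hS : Srf P κ S) (hκ0 : 0 ≤ κ)
    (hκ : κ ≤ 1 / 1000) {g : RW G} (hg : g ≠ 1) :
    ∃ z ∈ S, ‖cc P g - z‖ ≤ 11 * κ := by
  obtain ⟨z, hz, h⟩ := near P hS hκ0 hκ hg
  refine ⟨z, hz, h.trans ?_⟩
  have hnd3 : (nd g : ℝ) ≤ 3 := by
    exact_mod_cast nd_le P hS.clique g
  apply mul_le_mul_of_nonneg_right _ hκ0
  linarith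

theorem centre (P : Sph G E) {κ : ℝ} {S : Set E} (hS : Srf P κ S) (hκ0 : 0 ≤ κ)
    (hκ : κ ≤ 1 / 1000) {g : RW G} (hg : g ≠ 1) : ∃ u, ‖cc P g - P.v u‖ ≤ 3 / 5 := by
  obtain ⟨z, hz, h⟩ := near' P hS hκ0 hκ hg
  obtain ⟨u, hu⟩ := hS.cov z hz
  refine ⟨u, ?_⟩
  have h3 : ‖cc P g - P.v u‖ ≤ ‖cc P g - z‖ + ‖z - P.v u‖ := by
    have h4 : cc P g - P.v u = (cc P g - z) + (z - P.v u) := by abel
    rw [h4]
    exact norm_add_le _ _
  linarith

end NEAR

end PS
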