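import Pool.Agent.PS.Cnt
import Pool.Agent.PS.Geo

set_option autoImplicit false

/-!
# Sums over the descendants

MP_3de29c_al (Q2), module OUT (helper55), leader helper5.
-/

namespace PS

open Filter Topology
open scoped ENNReal

section

variable {T : Type} [DecidableEq T] [Fintype T] {G : SimpleGraph T} [DecidableRel G.Adj]
  {E : Type} [NormedAddCommGroup E] [InnerProductSpace ℝ E]

theorem out_geom (K : ℝ) : ∀ M : ℕ, (∀ i < M, (2 : ℝ) ^ i ≤ K) →
    ∑ i ∈ Finset.range M, (2 : ℝ) ^ i ≤ 2 * max K 0 := by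
  intro M hM
  rcases M with _ | M
  · simp
  · have h1 : ∑ i ∈ Finset.range (M + 1), (2 : ℝ) ^ i = 2 ^ (M + 1) - 1 := by
      have := geom_sum_eq (by norm_num : (2 : ℝ) ≠ 1) (M + 1)
      rw [this]
      norm_num
    have h2 := hM M (Nat.lt_succ_self M)
    have h3 : K ≤ max K 0 := le_max_left _ _
    rw [h1, pow_succ]
    linarith

/-- sum over the descendants -/
theorem outsum (P : Sph G E) {κ : ℝ} {S : Set E} (hS : Srf P κ S) (hκ0 : 0 ≤ κ) {Cp : ℝ}
    (hP : Pack S Cp) {K : ℝ} (hK : 1 ≤ K) (hκ : 10000 * K * κ ≤ 1) {g : RW G} (hg : g ≠ 1)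
    (Q : Finset (RW G))
    (hQ : ∀ y ∈ Q, y ≠ 1 ∧ len (g * y) = len g + len y ∧ FF P (g * y) ≤ K * FF P g) :
    ∑ y ∈ Q, FF P g / FF P (g * y) ≤ 8000 * Cp * K := by
  classical
  have hCp : 0 ≤ Cp := by
    have h := hP 0 1 1 0 ∅ one_pos le_rfl (by norm_num) le_rfl (by simp) (by simp) (by simp)
    simpa using h
  have hF : 0 < FF P g := lt_of_lt_of_le two_pos (two_le_FF P hg)
  have hmono : ∀ y ∈ Q, FF P g ≤ FF P (g * y) := by
    intro y hy
    refine FF_mono P hg ?_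
    unfold Pre
    rw [inv_mul_cancel_left]
    exact (hQ y hy).2.1.symm
  have hcl : ∀ y ∈ Q, ∃ n : ℕ, (2 : ℝ) ^ n ≤ FF P (g * y) / FF P g ∧
      FF P (g * y) / FF P g < 2 ^ (n + 1) := fun y hy =>
    exists_nat_pow_near ((one_le_div hF).2 (hmono y hy)) one_lt_two
  choose! c hc using hcl
  have hcK : ∀ y ∈ Q, (2 : ℝ) ^ c y ≤ K := by
    intro y hy
    refine (hc y hy).1.trans ?_
    rw [div_le_iff₀ hF]
    exact (hQ y hy).2.2
  obtain ⟨M, hM1, hM2⟩ : ∃ M : ℕ, (∀ y ∈ Q, c y ∈ Finset.range M) ∧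
      ∀ i < M, (2 : ℝ) ^ i ≤ K := by
    rcases Q.eq_empty_or_nonempty with hQe | hQn
    · exact ⟨0, by simp [hQe], by simp⟩
    · refine ⟨Q.sup c + 1, fun y hy => ?_, fun i hi => ?_⟩
      · rw [Finset.mem_range]
        exact Nat.lt_succ_of_le (Finset.le_sup hy)
      · obtain ⟨y, hy, hy2⟩ := Finset.exists_mem_eq_sup Q hQn c
        refine le_trans ?_ (hcK y hy)
        exact pow_le_pow_right₀ one_le_two (by rw [← hy2]; omega)
  rw [← Finset.sum_fiberwise_of_maps_to hM1]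
  have hterm : ∀ i ∈ Finset.range M, ∑ y ∈ Q.filter (fun y => c y = i),
      FF P g / FF P (g * y) ≤ 4000 * Cp * 2 ^ i := by
    intro i hi
    have h2i : (1 : ℝ) ≤ 2 ^ i := one_le_pow₀ one_le_two
    have hiK := hM2 i (Finset.mem_range.1 hi)
    have hY1 : 1 ≤ min ((2 : ℝ) ^ (i + 1)) K :=
      le_min (one_le_pow₀ one_le_two) hK
    have hcnt := cnt P hS hκ0 hP hK hκ hg hY1 (min_le_right _ _)
      (Q.filter fun y => c y = i) (by
        intro y hy
        rw [Finset.mem_filter] at hy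
        obtain ⟨q1, q2, q3⟩ := hQ y hy.1
        refine ⟨q1, q2, ?_⟩
        have h1 := (hc y hy.1).2
        rw [hy.2, div_lt_iff₀ hF] at h1
        rcases le_total ((2 : ℝ) ^ (i + 1)) K with hm | hm
        · rw [min_eq_left hm]
          exact h1.le
        · rw [min_eq_right hm]
          exact q3)
    have hcard : ((Q.filter fun y => c y = i).card : ℝ) ≤ 4000 * Cp * (2 ^ i) ^ 2 := by
      refine hcnt.trans ?_
      have hm : (min ((2 : ℝ) ^ (i + 1)) K) ^ 2 ≤ (2 ^ (i + 1)) ^ 2 :=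
        pow_le_pow_left₀ (by linarith) (min_le_left _ _) 2
      calc 1000 * Cp * (min ((2 : ℝ) ^ (i + 1)) K) ^ 2
          ≤ 1000 * Cp * (2 ^ (i + 1)) ^ 2 := by gcongr
        _ = 4000 * Cp * (2 ^ i) ^ 2 := by rw [pow_succ 2 i]; ring
    have h1 : ∀ y ∈ Q.filter (fun y => c y = i), FF P g / FF P (g * y) ≤ 1 / 2 ^ i := by
      intro y hy
      rw [Finset.mem_filter] at hy
      have h2 := (hc y hy.1).1
      rw [hy.2, le_div_iff₀ hF] at h2
      have hFy : 0 < FF P (g * y) := lt_of_lt_of_le hF (hmono y hy.1)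
      rw [div_le_div_iff₀ hFy (by positivity)]
      linarith
    have h3 := Finset.sum_le_card_nsmul _ _ _ h1
    rw [nsmul_eq_mul] at h3
    refine h3.trans ?_
    calc ((Q.filter fun y => c y = i).card : ℝ) * (1 / 2 ^ i)
        ≤ 4000 * Cp * (2 ^ i) ^ 2 * (1 / 2 ^ i) :=
          mul_le_mul_of_nonneg_right hcard (by positivity)
      _ = 4000 * Cp * 2 ^ i := by
          field_simp
  calc ∑ i ∈ Finset.range M, ∑ y ∈ Q.filter (fun y => c y = i), FF P g / FF P (g * y)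
      ≤ ∑ i ∈ Finset.range M, 4000 * Cp * 2 ^ i := Finset.sum_le_sum hterm
    _ = 4000 * Cp * ∑ i ∈ Finset.range M, 2 ^ i := by rw [Finset.mul_sum]
    _ ≤ 4000 * Cp * (2 * max K 0) := by
        have := out_geom K M hM2
        gcongr
    _ = 8000 * Cp * K := by rw [max_eq_left (by linarith)]; ring

end

end PS
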