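import Pool.Agent.PS.Len

set_option autoImplicit false

/-!
# The linear representation

Part of the proof of the statement about MP_3de29c_al (Q2), leader helper5.
-/

namespace PS

open Filter Topology
open scoped ENNReal

section REP

variable {T : Type} [DecidableEq T] {G : SimpleGraph T} [DecidableRel G.Adj]
  {E : Type} [NormedAddCommGroup E] [InnerProductSpace ℝ E]

theorem rep_bf_comm (x y : ℝ × ℝ × E) : bf x y = bf y x := by
  simp only [bf]
  rw [real_inner_comm]
  ring

theorem rep_bf_sub_smul_left (x y z : ℝ × ℝ × E) (a : ℝ) :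
    bf (x - a • y) z = bf x z - a * bf y z := by
  simp only [bf, Prod.snd_sub, Prod.fst_sub, Prod.smul_snd, Prod.smul_fst, inner_sub_left,
    inner_smul_left, smul_eq_mul]
  simp
  ring

theorem rep_bf_sub_smul_right (x y z : ℝ × ℝ × E) (a : ℝ) :
    bf z (x - a • y) = bf z x - a * bf z y := by
  rw [rep_bf_comm, rep_bf_sub_smul_left, rep_bf_comm x, rep_bf_comm y]

theorem rep_bf_rt (v w : E) : bf (rt v) (rt w) = (1 - ‖v - w‖ ^ 2) / 2 := by
  simp only [bf, rt]
  rw [@norm_sub_sq_real E _ _ v w]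
  ring

theorem rep_bf_rt_self (v : E) : bf (rt v) (rt v) = 1 / 2 := by
  rw [rep_bf_rt]; simp

theorem rep_rf_apply (v : E) (x : ℝ × ℝ × E) : rf v x = x - (4 * bf x (rt v)) • rt v := rfl

theorem rep_rf_rf (v : E) (x : ℝ × ℝ × E) : rf v (rf v x) = x := by
  rw [rep_rf_apply v (rf v x), rep_rf_apply v x, rep_bf_sub_smul_left, rep_bf_rt_self]
  module

theorem rep_rf_comm {v w : E} (h : ‖v - w‖ ^ 2 = 1) (x : ℝ × ℝ × E) :
    rf v (rf w x) = rf w (rf v x) := by
  have h1 : bf (rt v) (rt w) = 0 := by rw [rep_bf_rt, h]; norm_num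
  have h2 : bf (rt w) (rt v) = 0 := by rw [rep_bf_comm, h1]
  rw [rep_rf_apply v (rf w x), rep_rf_apply w x, rep_rf_apply w (rf v x), rep_rf_apply v x,
    rep_bf_sub_smul_left, rep_bf_sub_smul_left, h1, h2]
  module

theorem rep_bf_rf (v : E) (x y : ℝ × ℝ × E) : bf (rf v x) (rf v y) = bf x y := by
  rw [rep_rf_apply, rep_rf_apply, rep_bf_sub_smul_left, rep_bf_sub_smul_right,
    rep_bf_sub_smul_right, rep_bf_rt_self, rep_bf_comm (rt v) y]
  ring

theorem rep_liftable (P : Sph G E) :
    (racg G).IsLiftable (fun s => (rf (P.v s) : Module.End ℝ (ℝ × ℝ × E))) := by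
  intro s t
  show ((rf (P.v s) : Module.End ℝ (ℝ × ℝ × E)) * rf (P.v t)) ^ (if s = t then 1 else
    if G.Adj s t then 2 else 0) = 1
  by_cases h : s = t
  · subst h
    rw [if_pos rfl, pow_one]
    apply LinearMap.ext
    intro y
    exact rep_rf_rf _ _
  · rw [if_neg h]
    by_cases h' : G.Adj s t
    · rw [if_pos h']
      apply LinearMap.ext
      intro x
      rw [pow_two]
      show rf (P.v s) (rf (P.v t) (rf (P.v s) (rf (P.v t) x))) = x
      rw [rep_rf_comm (P.adj s t h') (rf (P.v s) (rf (P.v t) x)), rep_rf_rf, rep_rf_rf]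
    · rw [if_neg h', pow_zero]

theorem rep_sr (P : Sph G E) (s : T) (x : ℝ × ℝ × E) : rep P (sr s) x = rf (P.v s) x := by
  unfold rep sr
  rw [dif_pos (rep_liftable P), CoxeterSystem.lift_apply_simple]

theorem bf_rep (P : Sph G E) (g : RW G) (x y : ℝ × ℝ × E) :
    bf (rep P g x) (rep P g y) = bf x y := by
  induction g using (racg G).toCoxeterSystem.simple_induction_left with
  | one => rw [map_one]; rfl
  | mul_simple_left w i ih =>
    rw [map_mul, Module.End.mul_apply, Module.End.mul_apply]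
    have := rep_sr P i
    unfold sr at this
    rw [this, this, rep_bf_rf, ih]

/-- The vectors `pt g` lie on the light cone. -/
theorem pt_light (P : Sph G E) (g : RW G) : ‖(pt P g).2.2‖ ^ 2 = (pt P g).1 * (pt P g).2.1 := by
  have h : bf (pt P g) (pt P g) = 0 := by
    unfold pt
    rw [bf_rep]
    simp [bf]
  unfold bf at h
  rw [real_inner_self_eq_norm_sq] at h
  linarith

theorem bf_pt (P : Sph G E) (g h : RW G) : bf (pt P g) (pt P h) = -(FF P (g⁻¹ * h)) / 2 := by
  have h1 : rep P h ((0, 1, 0) : ℝ × ℝ × E) = rep P g (rep P (g⁻¹ * h) (0, 1, 0)) := by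
    rw [← Module.End.mul_apply, ← map_mul, mul_inv_cancel_left]
  have h2 : bf (pt P g) (pt P h) = bf ((0, 1, 0) : ℝ × ℝ × E) (pt P (g⁻¹ * h)) := by
    unfold pt
    rw [h1, bf_rep]
  rw [h2]
  unfold FF bf
  simp
  ring

end REP

end PS
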