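import Pool.Agent.PS.Rep

set_option autoImplicit false

/-!
# Positivity

MP_3de29c_al (Q2), leader helper5.
-/

namespace PS

open Filter Topology
open scoped ENNReal

section TITS

variable {T : Type} [DecidableEq T] {G : SimpleGraph T} [DecidableRel G.Adj]
  {E : Type} [NormedAddCommGroup E] [InnerProductSpace ℝ E]

theorem tits_bf (v w : E) : bf (rt v) (rt w) = (1 - ‖v - w‖ ^ 2) / 2 := by
  have h : ‖v - w‖ ^ 2 = ‖v‖ ^ 2 - 2 * inner ℝ v w + ‖w‖ ^ 2 := norm_sub_sq_real v w
  simp only [bf, rt]
  rw [h]
  ring

theorem tits_rf (v w : E) : rf w (rt v) = rt v + (2 * (‖v - w‖ ^ 2 - 1)) • rt w := by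
  have h : rf w (rt v) = rt v - (4 * bf (rt v) (rt w)) • rt w := rfl
  rw [h, tits_bf]
  module

theorem tits_rf_self (v : E) : rf v (rt v) = -rt v := by
  rw [tits_rf]
  simp only [sub_self, norm_zero]
  module

theorem tits_main (P : Sph G E) (n : ℕ) : ∀ g : RW G, len g = n →
    (∀ s, ¬ Desc g s → 0 < (rep P g⁻¹ (rt (P.v s))).1) ∧
    (∀ s t, s ≠ t → ¬ G.Adj s t → ¬ Desc g s → Desc g t → ∀ x y : ℝ, 0 ≤ y → y ≤ x → 0 < x →
      0 < (rep P g⁻¹ (x • rt (P.v s) + y • rt (P.v t))).1) := by
  induction n using Nat.strong_induction_on with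
  | _ n ih =>
    -- the step
    have step : ∀ (g : RW G) (t : T) (Z : ℝ × ℝ × E), rep P g⁻¹ Z =
        rep P (sr t * g)⁻¹ (rf (P.v t) Z) := by
      intro g t Z
      rw [← rep_sr, ← Module.End.mul_apply, ← map_mul, mul_inv_rev, mul_assoc, sr_inv, sr_sq,
        mul_one]
    have hlen : ∀ (g : RW G) (t : T), Desc g t → len (sr t * g) + 1 = len g := fun g t h =>
      desc_iff.1 h
    have hnd : ∀ (g : RW G) (t : T), Desc g t → ¬ Desc (sr t * g) t := by
      intro g t h h2
      have h3 := hlen g t h
      have h4 := hlen _ t h2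
      rw [← mul_assoc, sr_sq, one_mul] at h4
      omega
    have hB : ∀ g : RW G, len g = n → ∀ s t, s ≠ t → ¬ G.Adj s t → ¬ Desc g s → Desc g t →
        ∀ x y : ℝ, 0 ≤ y → y ≤ x → 0 < x →
        0 < (rep P g⁻¹ (x • rt (P.v s) + y • rt (P.v t))).1 := by
      intro g hg s t hst hadj hs ht x y hy hyx hx
      have hl := hlen g t ht
      have ha := P.nadj s t hst hadj
      have hval : rf (P.v t) (x • rt (P.v s) + y • rt (P.v t)) =
          x • rt (P.v s) + (2 * (‖P.v s - P.v t‖ ^ 2 - 1) * x - y) • rt (P.v t) := by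
        rw [map_add, map_smul, map_smul, tits_rf, tits_rf_self]
        module
      set y' : ℝ := 2 * (‖P.v s - P.v t‖ ^ 2 - 1) * x - y with hy'
      have hy'x : x ≤ y' := by
        rw [hy']
        nlinarith [mul_le_mul_of_nonneg_right ha hx.le]
      rw [step g t, hval]
      obtain ⟨ihA, ihB⟩ := ih (len (sr t * g)) (by omega) _ rfl
      by_cases hd : Desc (sr t * g) s
      · have := ihB t s hst.symm (fun h => hadj h.symm) (hnd g t ht) hd y' x hx.le hy'x
          (lt_of_lt_of_le hx hy'x)
        rw [add_comm]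
        exact this
      · have h1 := ihA s hd
        have h2 := ihA t (hnd g t ht)
        rw [map_add, map_smul, map_smul]
        simp only [Prod.fst_add, Prod.smul_fst, smul_eq_mul]
        have : 0 < y' := lt_of_lt_of_le hx hy'x
        positivity
    intro g hg
    refine ⟨?_, hB g hg⟩
    intro s hs
    by_cases h1 : g = 1
    · subst h1
      rw [inv_one, map_one]
      simp [rt]
    · obtain ⟨t, ht⟩ := exists_desc h1
      have hst : s ≠ t := by
        rintro rfl
        exact hs ht
      by_cases hadj : G.Adj s t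
      · have ha := P.adj s t hadj
        have hl := hlen g t ht
        rw [step g t, tits_rf, ha]
        have hd : ¬ Desc (sr t * g) s := by
          intro hd
          apply hs
          have h3 := hlen _ s hd
          have h4 : sr s * g = sr t * (sr s * (sr t * g)) := by
            rw [← mul_assoc, ← mul_assoc, ← sr_comm hadj, mul_assoc, mul_assoc, ← mul_assoc (sr t),
              sr_sq, one_mul]
          show len (sr s * g) < len g
          rw [h4]
          have h5 := len_mul_le (sr t) (sr s * (sr t * g))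
          rw [len_sr] at h5
          omega
        have := (ih (len (sr t * g)) (by omega) _ rfl).1 s hd
        simpa using this
      · have := hB g hg s t hst hadj hs ht 1 0 le_rfl zero_le_one one_pos
        simpa using this

theorem tits (P : Sph G E) (g : RW G) (s : T) (h : ¬ Desc g s) :
    0 < (rep P g⁻¹ (rt (P.v s))).1 := (tits_main P (len g) g rfl).1 s h

end TITS

end PS
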