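import Pool.Agent.PS.Defs2

set_option autoImplicit false

/-!
# Distances of the centres on the torus

MP_3de29c_al (Q2), leader helper5; module by helper21.
-/

namespace PS

open Filter Topology
open scoped ENNReal

section

/-- squared sine of a multiple of the angle -/
noncomputable def TorA_S (k : ℕ) (x : ZMod k) : ℝ := Real.sin (Real.pi * (x.val : ℝ) / k) ^ 2

theorem TorA_S_nonneg (k : ℕ) (x : ZMod k) : 0 ≤ TorA_S k x := sq_nonneg _

theorem TorA_int (k : ℕ) (hk : 0 < k) (n : ℤ) :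
    Real.sin (Real.pi * n / k) ^ 2 = TorA_S k (n : ZMod k) := by
  have : NeZero k := ⟨hk.ne'⟩
  have hk' : (k : ℝ) ≠ 0 := by exact_mod_cast hk.ne'
  have h1 : (((n : ZMod k).val : ℤ) : ℝ) = ((n % (k : ℤ) : ℤ) : ℝ) := by
    rw [ZMod.val_intCast]
  have h2 : (n : ℝ) = (k : ℝ) * ((n / (k : ℤ) : ℤ) : ℝ) + ((n % (k : ℤ) : ℤ) : ℝ) := by
    have := Int.mul_ediv_add_emod n (k : ℤ)
    exact_mod_cast this.symm
  have h3 : Real.pi * n / k = Real.pi * ((n : ZMod k).val : ℝ) / k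
      + ((n / (k : ℤ) : ℤ) : ℝ) * Real.pi := by
    have h4 : (((n : ZMod k).val : ℕ) : ℝ) = ((n % (k : ℤ) : ℤ) : ℝ) := by
      rw [← h1]; norm_cast
    rw [h4]
    rw [h2]
    field_simp
    have h5 : ((((k : ℝ) * ((n / (k : ℤ) : ℤ) : ℝ) + ((n % (k : ℤ) : ℤ) : ℝ)) : ℝ)) = n := h2.symm
    ring
  unfold TorA_S
  rw [h3, Real.sin_add_int_mul_pi]
  rw [mul_pow]
  have : ((-1 : ℝ) ^ (n / (k : ℤ))) ^ 2 = 1 := by
    rcases Int.even_or_odd (n / (k : ℤ)) with h | h
    · rw [h.neg_one_zpow]; norm_num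
    · rw [h.neg_one_zpow]; norm_num
  rw [this, one_mul]

theorem TorA_sub (k : ℕ) (hk : 0 < k) (x y : ZMod k) :
    Real.sin (Real.pi * ((x.val : ℝ) - y.val) / k) ^ 2 = TorA_S k (x - y) := by
  have : NeZero k := ⟨hk.ne'⟩
  have := TorA_int k hk ((x.val : ℤ) - (y.val : ℤ))
  have h2 : (((x.val : ℤ) - (y.val : ℤ) : ℤ) : ZMod k) = x - y := by
    push_cast
    rw [ZMod.natCast_zmod_val, ZMod.natCast_zmod_val]
  rw [h2] at this
  rw [← this]
  push_cast
  rfl

theorem TorA_add (k : ℕ) (hk : 0 < k) (x y z w : ZMod k) :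
    Real.sin (Real.pi * (((x.val : ℝ) - y.val) + ((z.val : ℝ) - w.val)) / k) ^ 2
      = TorA_S k ((x - y) + (z - w)) := by
  have : NeZero k := ⟨hk.ne'⟩
  have := TorA_int k hk (((x.val : ℤ) - (y.val : ℤ)) + ((z.val : ℤ) - (w.val : ℤ)))
  have h2 : ((((x.val : ℤ) - (y.val : ℤ)) + ((z.val : ℤ) - (w.val : ℤ)) : ℤ) : ZMod k)
      = (x - y) + (z - w) := by
    push_cast
    rw [ZMod.natCast_zmod_val, ZMod.natCast_zmod_val, ZMod.natCast_zmod_val,
      ZMod.natCast_zmod_val]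
  rw [h2] at this
  rw [← this]
  push_cast
  rfl

theorem TorA_exp (a b : ℝ) :
    ‖Complex.exp (a * Complex.I) - Complex.exp (b * Complex.I)‖ ^ 2
      = 4 * Real.sin ((a - b) / 2) ^ 2 := by
  have h1 : Complex.exp (a * Complex.I) - Complex.exp (b * Complex.I)
      = ((Real.cos a - Real.cos b : ℝ) : ℂ) + ((Real.sin a - Real.sin b : ℝ) : ℂ) * Complex.I := by
    rw [Complex.exp_mul_I, Complex.exp_mul_I]
    push_cast
    ring
  rw [h1, ← Complex.normSq_eq_norm_sq, Complex.normSq_add_mul_I]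
  have h2 : Real.sin ((a - b) / 2) ^ 2 = (1 - Real.cos (a - b)) / 2 := by
    have := Real.cos_sq' ((a - b) / 2)
    have h3 := Real.cos_sq ((a - b) / 2)
    have h4 : 2 * ((a - b) / 2) = a - b := by ring
    rw [h4] at h3
    linarith
  rw [h2, Real.cos_sub]
  have h5 := Real.sin_sq_add_cos_sq a
  have h6 := Real.sin_sq_add_cos_sq b
  nlinarith

theorem TorA_norm (k : ℕ) (a b a' b' : ℝ) :
    ‖tph k a b - tph k a' b'‖ ^ 2 = tR k ^ 2 * (4 * Real.sin ((a - a') / 2) ^ 2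
      + 4 * Real.sin ((b - b') / 2) ^ 2 + 4 * Real.sin (((a - a') + (b - b')) / 2) ^ 2) := by
  have h0 : ∀ u v : ℝ, Complex.exp (-((u : ℂ) + (v : ℂ)) * Complex.I)
      = Complex.exp (((-(u + v) : ℝ) : ℂ) * Complex.I) := by
    intro u v; push_cast; rfl
  unfold tph
  rw [← smul_sub, norm_smul, mul_pow, Complex.norm_real, Real.norm_eq_abs, sq_abs]
  congr 1
  rw [EuclideanSpace.norm_sq_eq]
  rw [Fin.sum_univ_three]
  simp only [PiLp.sub_apply]
  have e0 : ∀ x y z : ℂ, (![x, y, z] : Fin 3 → ℂ) 0 = x := fun x y z => rfl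
  have e1 : ∀ x y z : ℂ, (![x, y, z] : Fin 3 → ℂ) 1 = y := fun x y z => rfl
  have e2 : ∀ x y z : ℂ, (![x, y, z] : Fin 3 → ℂ) 2 = z := fun x y z => rfl
  rw [e0, e0, e1, e1, e2, e2, h0, h0, TorA_exp, TorA_exp, TorA_exp]
  have h7 : (-(a + b) - -(a' + b')) / 2 = -(((a - a') + (b - b')) / 2) := by ring
  rw [h7, Real.sin_neg, neg_sq]

theorem TorA_dist (k : ℕ) (hk : 2 ≤ k) (s t : ZMod k × ZMod k) :
    ‖tv k s - tv k t‖ ^ 2 * (2 * Real.sin (Real.pi / k) ^ 2)
      = TorA_S k (s.1 - t.1) + TorA_S k (s.2 - t.2)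
        + TorA_S k ((s.1 - t.1) + (s.2 - t.2)) := by
  have hk0 : 0 < k := by omega
  have hkr : (2 : ℝ) ≤ k := by exact_mod_cast hk
  have hs : 0 < Real.sin (Real.pi / k) := by
    apply Real.sin_pos_of_pos_of_lt_pi
    · positivity
    · rw [div_lt_iff₀ (by linarith)]
      nlinarith [Real.pi_pos]
  unfold tv
  rw [TorA_norm, ← TorA_sub k hk0, ← TorA_sub k hk0, ← TorA_add k hk0]
  have e1 : (2 * Real.pi * (s.1.val : ℝ) / k - 2 * Real.pi * (t.1.val : ℝ) / k) / 2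
      = Real.pi * ((s.1.val : ℝ) - t.1.val) / k := by ring
  have e2 : (2 * Real.pi * (s.2.val : ℝ) / k - 2 * Real.pi * (t.2.val : ℝ) / k) / 2
      = Real.pi * ((s.2.val : ℝ) - t.2.val) / k := by ring
  have e3 : (2 * Real.pi * (s.1.val : ℝ) / k - 2 * Real.pi * (t.1.val : ℝ) / k
      + (2 * Real.pi * (s.2.val : ℝ) / k - 2 * Real.pi * (t.2.val : ℝ) / k)) / 2
      = Real.pi * (((s.1.val : ℝ) - t.1.val) + ((s.2.val : ℝ) - t.2.val)) / k := by ring
  rw [e1, e2, e3]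
  have h2 : Real.sqrt 2 ^ 2 = 2 := Real.sq_sqrt (by norm_num)
  have h3 : tR k ^ 2 * (8 * Real.sin (Real.pi / k) ^ 2) = 1 := by
    unfold tR
    rw [div_pow, mul_pow, mul_pow, h2]
    have : Real.sin (Real.pi / k) ≠ 0 := hs.ne'
    field_simp
    norm_num
  linear_combination (Real.sin (Real.pi * ((s.1.val : ℝ) - t.1.val) / k) ^ 2
    + Real.sin (Real.pi * ((s.2.val : ℝ) - t.2.val) / k) ^ 2
    + Real.sin (Real.pi * (((s.1.val : ℝ) - t.1.val) + ((s.2.val : ℝ) - t.2.val)) / k) ^ 2) * h3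

theorem TorA_zero (k : ℕ) : TorA_S k 0 = 0 := by
  unfold TorA_S; simp

theorem TorA_one (k : ℕ) (hk : 0 < k) : TorA_S k 1 = Real.sin (Real.pi / k) ^ 2 := by
  have := TorA_int k hk 1
  simpa using this.symm

theorem TorA_neg (k : ℕ) (hk : 0 < k) (x : ZMod k) : TorA_S k (-x) = TorA_S k x := by
  have : NeZero k := ⟨hk.ne'⟩
  have h1 := TorA_int k hk (-(x.val : ℤ))
  have h2 : ((-(x.val : ℤ) : ℤ) : ZMod k) = -x := by
    push_cast
    rw [ZMod.natCast_zmod_val]
  rw [h2] at h1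
  rw [← h1]
  unfold TorA_S
  have : Real.pi * ((-(x.val : ℤ) : ℤ) : ℝ) / k = -(Real.pi * (x.val : ℝ) / k) := by
    push_cast; ring
  rw [this, Real.sin_neg, neg_sq]

theorem TorA_big (k : ℕ) (hk : 32 ≤ k) (x : ZMod k) (h0 : x ≠ 0) (h1 : x ≠ 1) (h2 : x ≠ -1) :
    (99 / 25 : ℝ) * Real.sin (Real.pi / k) ^ 2 ≤ TorA_S k x := by
  have : NeZero k := ⟨by omega⟩
  have hkr : (32 : ℝ) ≤ k := by exact_mod_cast hk
  have hm0 : x.val ≠ 0 := fun h => h0 ((ZMod.val_eq_zero x).1 h)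
  have hx : ((x.val : ℕ) : ZMod k) = x := ZMod.natCast_zmod_val x
  have hm1 : x.val ≠ 1 := by
    intro h; rw [h] at hx; exact h1 (by rw [← hx]; simp)
  have hlt : x.val < k := ZMod.val_lt x
  have hm2 : x.val ≠ k - 1 := by
    intro h
    apply h2
    rw [← hx, h, Nat.cast_sub (by omega)]
    simp
  have hpi : Real.pi < 3.15 := Real.pi_lt_d2
  have hpi3 := Real.pi_pos
  have hkpos : (0 : ℝ) < k := by linarith
  -- the angle pi / k
  have hang : Real.pi / k < 1 / 10 := by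
    rw [div_lt_iff₀ hkpos]; linarith
  have hang0 : 0 < Real.pi / k := by positivity
  have hcos : 1 - (Real.pi / k) ^ 2 / 2 ≤ Real.cos (Real.pi / k) := Real.one_sub_sq_div_two_le_cos
  have hcos2 : (99 / 100 : ℝ) ≤ Real.cos (Real.pi / k) ^ 2 := by
    have h3 : (199 / 200 : ℝ) ≤ Real.cos (Real.pi / k) := by nlinarith
    nlinarith
  have hs2 : Real.sin (2 * (Real.pi / k)) = 2 * Real.sin (Real.pi / k) * Real.cos (Real.pi / k) :=
    Real.sin_two_mul _
  have key : Real.sin (2 * (Real.pi / k)) ≤ Real.sin (Real.pi * (x.val : ℝ) / k) := by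
    rcases le_or_gt (2 * x.val) k with h | h
    · apply Real.sin_le_sin_of_le_of_le_pi_div_two
      · linarith
      · rw [div_le_div_iff₀ hkpos (by norm_num)]
        have : (2 * x.val : ℝ) ≤ k := by exact_mod_cast h
        nlinarith
      · rw [← mul_div_assoc, div_le_div_iff_of_pos_right hkpos]
        have : (2 : ℝ) ≤ x.val := by
          have : 2 ≤ x.val := by omega
          exact_mod_cast this
        nlinarith
    · have h5 : Real.sin (Real.pi * (x.val : ℝ) / k)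
          = Real.sin (Real.pi * ((k : ℝ) - x.val) / k) := by
        rw [← Real.sin_pi_sub]
        congr 1
        field_simp
      rw [h5]
      apply Real.sin_le_sin_of_le_of_le_pi_div_two
      · linarith
      · rw [div_le_div_iff₀ hkpos (by norm_num)]
        have : (k : ℝ) ≤ 2 * x.val := by exact_mod_cast h.le
        nlinarith
      · rw [← mul_div_assoc, div_le_div_iff_of_pos_right hkpos]
        have : (2 : ℝ) ≤ (k : ℝ) - x.val := by
          have : x.val + 2 ≤ k := by omega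
          have : (x.val : ℝ) + 2 ≤ k := by exact_mod_cast this
          linarith
        nlinarith
  have hs : 0 < Real.sin (Real.pi / k) := by
    apply Real.sin_pos_of_pos_of_lt_pi hang0
    linarith [Real.pi_gt_three]
  have hc : 0 < Real.cos (Real.pi / k) := by nlinarith
  have h6 : 0 ≤ Real.sin (2 * (Real.pi / k)) := by rw [hs2]; positivity
  have h7 : Real.sin (2 * (Real.pi / k)) ^ 2 ≤ TorA_S k x := by
    unfold TorA_S
    exact pow_le_pow_left₀ h6 key 2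
  have h8 : Real.sin (2 * (Real.pi / k)) ^ 2
      = 4 * Real.sin (Real.pi / k) ^ 2 * Real.cos (Real.pi / k) ^ 2 := by
    rw [hs2]; ring
  rw [h8] at h7
  nlinarith [sq_nonneg (Real.sin (Real.pi / k))]

theorem TorA_or {k : ℕ} (y : ZMod k) (hy : ¬ (y ≠ 0 ∧ y ≠ 1 ∧ y ≠ -1)) :
    y = 0 ∨ y = 1 ∨ y = -1 := by
  by_contra hcon
  simp only [not_or] at hcon
  exact hy hcon

/-- one big side -/
theorem TorA_tri (k : ℕ) (hk : 32 ≤ k) (x y z : ZMod k) (hxyz : x + y + z = 0)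
    (h0 : x ≠ 0) (h1 : x ≠ 1) (h2 : x ≠ -1) :
    (149 / 25 : ℝ) * Real.sin (Real.pi / k) ^ 2 ≤ TorA_S k x + TorA_S k y + TorA_S k z := by
  have hx := TorA_big k hk x h0 h1 h2
  have hk0 : 0 < k := by omega
  have hS := sq_nonneg (Real.sin (Real.pi / k))
  have hy0 := TorA_S_nonneg k y
  have hz0 := TorA_S_nonneg k z
  by_cases hy : y ≠ 0 ∧ y ≠ 1 ∧ y ≠ -1
  · have := TorA_big k hk y hy.1 hy.2.1 hy.2.2
    nlinarith
  by_cases hz : z ≠ 0 ∧ z ≠ 1 ∧ z ≠ -1
  · have := TorA_big k hk z hz.1 hz.2.1 hz.2.2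
    nlinarith
  have hy' : y = 0 ∨ y = 1 ∨ y = -1 := TorA_or y hy
  have hz' : z = 0 ∨ z = 1 ∨ z = -1 := TorA_or z hz
  have hx' : x = -(y + z) := by linear_combination hxyz
  have e1 : TorA_S k 1 = Real.sin (Real.pi / k) ^ 2 := TorA_one k hk0
  have e2 : TorA_S k (-1) = Real.sin (Real.pi / k) ^ 2 := by rw [TorA_neg k hk0, e1]
  rcases hy' with h | h | h <;> rcases hz' with h' | h' | h' <;> subst h <;> subst h'
  · exact absurd (by rw [hx']; ring) h0
  · exact absurd (by rw [hx']; ring) h2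
  · exact absurd (by rw [hx']; ring) h1
  · exact absurd (by rw [hx']; ring) h2
  · rw [e1]; linarith
  · exact absurd (by rw [hx']; ring) h0
  · exact absurd (by rw [hx']; ring) h1
  · exact absurd (by rw [hx']; ring) h0
  · rw [e2]; linarith

theorem TorA_two (k : ℕ) (hk : 32 ≤ k) (n : ℕ) (hn : 0 < n) (hn' : n < 32) :
    (n : ZMod k) ≠ 0 := by
  intro h
  rw [ZMod.natCast_eq_zero_iff] at h
  have := Nat.le_of_dvd hn h
  omega

theorem TorA_nadj (k : ℕ) (hk : 32 ≤ k) (s t : ZMod k × ZMod k) (hst : s ≠ t)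
    (h : ¬ (hexTorus k).Adj s t) :
    (149 / 25 : ℝ) * Real.sin (Real.pi / k) ^ 2 ≤ TorA_S k (s.1 - t.1) + TorA_S k (s.2 - t.2)
        + TorA_S k ((s.1 - t.1) + (s.2 - t.2)) := by
  have hk0 : 0 < k := by omega
  have hc : TorA_S k ((s.1 - t.1) + (s.2 - t.2)) = TorA_S k (-((s.1 - t.1) + (s.2 - t.2))) :=
    (TorA_neg k hk0 _).symm
  rw [hc]
  set a := s.1 - t.1 with ha
  set b := s.2 - t.2 with hb
  have hab : s - t = (a, b) := rfl
  by_cases h1 : a ≠ 0 ∧ a ≠ 1 ∧ a ≠ -1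
  · exact TorA_tri k hk a b (-(a + b)) (by ring) h1.1 h1.2.1 h1.2.2
  by_cases h2 : b ≠ 0 ∧ b ≠ 1 ∧ b ≠ -1
  · have := TorA_tri k hk b a (-(a + b)) (by ring) h2.1 h2.2.1 h2.2.2
    linarith
  have h1' : a = 0 ∨ a = 1 ∨ a = -1 := TorA_or a h1
  have h2' : b = 0 ∨ b = 1 ∨ b = -1 := TorA_or b h2
  have t2 : (2 : ZMod k) ≠ 0 := by simpa using TorA_two k hk 2 (by norm_num) (by norm_num)
  have t1 : (1 : ZMod k) ≠ 0 := by simpa using TorA_two k hk 1 (by norm_num) (by norm_num)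
  have t3 : (3 : ZMod k) ≠ 0 := by simpa using TorA_two k hk 3 (by norm_num) (by norm_num)
  have hadj : (a, b) ∉ ({(1, 0), (-1, 0), (0, 1), (0, -1), (1, -1), (-1, 1)} :
      Finset (ZMod k × ZMod k)) := by
    intro h3
    exact h ⟨hst, by rw [hab]; exact h3⟩
  simp only [Finset.mem_insert, Finset.mem_singleton, Prod.mk.injEq, not_or] at hadj
  obtain ⟨n1, n2, n3, n4, n5, n6⟩ := hadj
  have n0 : ¬ (a = 0 ∧ b = 0) := by
    rintro ⟨h3, h4⟩
    apply hst
    have : s - t = 0 := by rw [hab, h3, h4]; rfl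
    exact sub_eq_zero.1 this
  have hcase : (a = 1 ∧ b = 1) ∨ (a = -1 ∧ b = -1) := by
    rcases h1' with h3 | h3 | h3 <;> rcases h2' with h4 | h4 | h4
    · exact absurd ⟨h3, h4⟩ n0
    · exact absurd ⟨h3, h4⟩ n3
    · exact absurd ⟨h3, h4⟩ n4
    · exact absurd ⟨h3, h4⟩ n1
    · exact Or.inl ⟨h3, h4⟩
    · exact absurd ⟨h3, h4⟩ n5
    · exact absurd ⟨h3, h4⟩ n2
    · exact absurd ⟨h3, h4⟩ n6
    · exact Or.inr ⟨h3, h4⟩
  have := TorA_tri k hk (-(a + b)) a b (by ring)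
    (by
      rcases hcase with ⟨h3, h4⟩ | ⟨h3, h4⟩ <;> rw [h3, h4]
      · intro h5; apply t2; linear_combination -h5
      · intro h5; apply t2; linear_combination h5)
    (by
      rcases hcase with ⟨h3, h4⟩ | ⟨h3, h4⟩ <;> rw [h3, h4]
      · intro h5; apply t3; linear_combination -h5
      · intro h5; apply t1; linear_combination h5)
    (by
      rcases hcase with ⟨h3, h4⟩ | ⟨h3, h4⟩ <;> rw [h3, h4]
      · intro h5; apply t1; linear_combination -h5
      · intro h5; apply t3; linear_combination h5)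
  linarith

theorem tor_sph : ∃ N : ℕ, ∀ k, N ≤ k → ∃ P : Sph (hexTorus k) E3, P.v = tv k := by
  refine ⟨32, fun k hk => ?_⟩
  have hk0 : 0 < k := by omega
  have hkr : (32 : ℝ) ≤ k := by exact_mod_cast hk
  have hkpos : (0 : ℝ) < k := by linarith
  have hs : 0 < Real.sin (Real.pi / k) := by
    apply Real.sin_pos_of_pos_of_lt_pi
    · have := Real.pi_pos; positivity
    · rw [div_lt_iff₀ hkpos]
      nlinarith [Real.pi_pos]
  have hs2 : 0 < Real.sin (Real.pi / k) ^ 2 := by positivity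
  refine ⟨⟨tv k, ?_, ?_⟩, rfl⟩
  · intro s t h
    have hd := TorA_dist k (by omega) s t
    have e0 : TorA_S k 0 = 0 := TorA_zero k
    have e1 : TorA_S k 1 = Real.sin (Real.pi / k) ^ 2 := TorA_one k hk0
    have e2 : TorA_S k (-1) = Real.sin (Real.pi / k) ^ 2 := by rw [TorA_neg k hk0, e1]
    have h2 := h.2
    have hab : s - t = (s.1 - t.1, s.2 - t.2) := rfl
    rw [hab] at h2
    simp only [Finset.mem_insert, Finset.mem_singleton, Prod.mk.injEq] at h2
    have hsum : TorA_S k (s.1 - t.1) + TorA_S k (s.2 - t.2)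
        + TorA_S k ((s.1 - t.1) + (s.2 - t.2)) = 2 * Real.sin (Real.pi / k) ^ 2 := by
      rcases h2 with h | h | h | h | h | h <;> rw [h.1, h.2] <;>
        simp [e0, e1, e2] <;> ring
    rw [hsum] at hd
    have : (‖tv k s - tv k t‖ ^ 2 - 1) * (2 * Real.sin (Real.pi / k) ^ 2) = 0 := by linarith
    rcases mul_eq_zero.1 this with h3 | h3
    · linarith
    · exfalso; linarith
  · intro s t hst h
    have hd := TorA_dist k (by omega) s t
    have h2 := TorA_nadj k hk s t hst h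
    rw [← hd] at h2
    by_contra hcon
    push Not at hcon
    nlinarith

end

end PS
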