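import Pool.Agent.PS.Out
import Pool.Agent.PS.Lat

set_option autoImplicit false

/-!
# Windows

Module WIN (helper37) for MP_3de29c_al (Q2), leader helper5.
-/

namespace PS

open Filter Topology
open scoped ENNReal

section

variable {T : Type} [DecidableEq T] [Fintype T] {G : SimpleGraph T} [DecidableRel G.Adj]
  {E : Type} [NormedAddCommGroup E] [InnerProductSpace ℝ E]

omit [Fintype T] in
lemma win_ne {g x : RW G} (hg : g ≠ 1) (h : Pre g x) : x ≠ 1 := by
  intro hx
  have h1 : len x = 0 := len_eq_zero.mpr hx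
  have h2 : len g ≠ 0 := fun h' => hg (len_eq_zero.mp h')
  unfold Pre at h
  omega

omit [Fintype T] in
lemma win_pre_refl (x : RW G) : Pre x x := by
  unfold Pre
  rw [inv_mul_cancel, len_one, add_zero]

omit [Fintype T] in
/-- a prefix of `h'` is a prefix of `h' * y` if lengths add -/
lemma win_pre_trans {h h' y : RW G} (h1 : Pre h h') (h2 : len (h' * y) = len h' + len y) :
    Pre h (h' * y) := by
  unfold Pre at h1 ⊢
  have h3 : len (h⁻¹ * (h' * y)) ≤ len (h⁻¹ * h') + len y := by
    rw [← mul_assoc]; exact len_mul_le _ _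
  have h4 : len (h' * y) ≤ len h + len (h⁻¹ * (h' * y)) := by
    have := len_mul_le h (h⁻¹ * (h' * y))
    rwa [mul_inv_cancel_left] at this
  omega

omit [Fintype T] in
lemma win_len_one {y : RW G} (hy : len y = 1) : ∃ s : T, y = sr s := by
  have h1 : y ≠ 1 := by
    intro h
    rw [h, len_one] at hy
    exact absurd hy (by norm_num)
  obtain ⟨s, hs⟩ := exists_desc h1
  have h2 := desc_iff.mp hs
  have h3 : len (sr s * y) = 0 := by omega
  have h4 : sr s * y = 1 := len_eq_zero.mp h3
  refine ⟨s, ?_⟩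
  have h5 : y = (sr s)⁻¹ := eq_inv_of_mul_eq_one_right h4
  rw [h5, sr_inv]

omit [Fintype T] in
/-- the factor `F(h' s) / F(h')` -/
lemma win_FF (P : Sph G E) {h : RW G} (hh : h ≠ 1) (s : T) :
    FF P (h * sr s) = 2 * ‖cc P h⁻¹ - P.v s‖ ^ 2 * FF P h := by
  have h1 : (h * sr s)⁻¹ = sr s * h⁻¹ := by rw [mul_inv_rev, sr_inv]
  rw [← FF_inv P (h * sr s), h1, FF_sr_mul P (inv_ne_one.mpr hh), FF_inv]

lemma win_sum_image {α β : Type} [DecidableEq β] (D : Finset α) (f : α → β) (φ : β → ℝ)
    (hφ : ∀ a ∈ D, 0 ≤ φ (f a)) : ∑ b ∈ D.image f, φ b ≤ ∑ a ∈ D, φ (f a) := by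
  classical
  induction D using Finset.induction_on with
  | empty => simp
  | insert a s ha ih =>
    have ih' := ih fun b hb => hφ b (Finset.mem_insert_of_mem hb)
    have h0 := hφ a (Finset.mem_insert_self a s)
    rw [Finset.image_insert, Finset.sum_insert ha]
    by_cases h : f a ∈ s.image f
    · rw [Finset.insert_eq_of_mem h]
      linarith
    · rw [Finset.sum_insert h]
      linarith

/-- the sum over the letters -/
lemma win_letters (P : Sph G E) {κ : ℝ} {S : Set E} (hS : Srf P κ S) {Cp : ℝ}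
    (hP : Pack S Cp) {p B : ℝ} (hp : 2 ≤ p) {h : RW G} (hh : h ≠ 1) (hB : FF P h < B)
    (A : Finset T) (hA : ∀ s ∈ A, B ≤ FF P (h * sr s)) :
    ∑ s ∈ A, FF P (h * sr s) ^ (-p) ≤ 4 * Cp * B ^ (1 - p) * (FF P h)⁻¹ := by
  have hF : 0 < FF P h := lt_of_lt_of_le (by norm_num) (two_le_FF P hh)
  have hB0 : 0 < B := hF.trans hB
  have h1 : ∀ s, FF P (h * sr s) ^ (-p) =
      (2 * ‖cc P h⁻¹ - P.v s‖ ^ 2) ^ (-p) * FF P h ^ (-p) := by
    intro s
    rw [win_FF P hh s, Real.mul_rpow (by positivity) hF.le]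
  have h2 := lat P hS hP (cc P h⁻¹) (τ := B / FF P h) (p := p)
    ((one_le_div hF).mpr hB.le) hp A (fun s hs => by
      have h3 := hA s hs
      rw [win_FF P hh s] at h3
      rw [div_le_iff₀ hF]
      exact h3)
  calc ∑ s ∈ A, FF P (h * sr s) ^ (-p)
      = (∑ s ∈ A, (2 * ‖cc P h⁻¹ - P.v s‖ ^ 2) ^ (-p)) * FF P h ^ (-p) := by
        rw [Finset.sum_mul]
        exact Finset.sum_congr rfl fun s _ => h1 s
    _ ≤ (4 * Cp * (B / FF P h) ^ (1 - p)) * FF P h ^ (-p) :=
        mul_le_mul_of_nonneg_right h2 (Real.rpow_nonneg hF.le _)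
    _ = 4 * Cp * B ^ (1 - p) * (FF P h)⁻¹ := by
        rw [Real.div_rpow hB0.le hF.le]
        have h4 : FF P h ^ (-p) = FF P h ^ (1 - p) * (FF P h)⁻¹ := by
          rw [← Real.rpow_neg_one (FF P h), ← Real.rpow_add hF]
          congr 1; ring
        have h5 : FF P h ^ (1 - p) ≠ 0 := (Real.rpow_pos_of_pos hF _).ne'
        rw [h4]
        field_simp

/-- windows -/
theorem win (P : Sph G E) {κ : ℝ} {S : Set E} (hS : Srf P κ S) (hκ0 : 0 ≤ κ) {Cp : ℝ}
    (hP : Pack S Cp) (hCp : 1 ≤ Cp) {K : ℝ} (hK : 2 ≤ K) (hκ : 10000 * K * κ ≤ 1) {p : ℝ}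
    (hp : 2 ≤ p) {g : RW G} (hg : g ≠ 1) :
    ∃ W : Finset (RW G), (∀ h ∈ W, h ≠ 1 ∧ K * FF P g ≤ FF P h) ∧
      ∑ h ∈ W, FF P h ^ (-p) ≤ 100000 * Cp ^ 2 * K ^ (2 - p) * FF P g ^ (-p) ∧
      ∃ N : ℕ, ∀ x, Pre g x → N ≤ len x → ∃ h ∈ W, Pre h x := by
  classical
  have hFg2 : 2 ≤ FF P g := two_le_FF P hg
  have hFg : 0 < FF P g := by linarith
  have hK0 : 0 < K := by linarith
  set B : ℝ := K * FF P g with hB
  have hB0 : 0 < B := mul_pos hK0 hFg
  have hgB : FF P g < B := by
    rw [hB]; nlinarith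
  -- growth
  obtain ⟨n₀, hn₀⟩ := pow_unbounded_of_one_lt (2 * B) (show (1 : ℝ) < 5 / 4 by norm_num)
  have hgrow : ∀ x : RW G, x ≠ 1 → n₀ ≤ len x → B ≤ FF P x := by
    intro x hx hn
    have h1 := grow P hS.clique hx
    have h2 : (5 / 4 : ℝ) ^ n₀ ≤ (5 / 4 : ℝ) ^ len x :=
      pow_le_pow_right₀ (by norm_num) hn
    linarith
  have hfin : {h : RW G | Pre g h ∧ FF P h < B}.Finite := by
    apply (finite_len (G := G) n₀).subset
    intro h hh
    obtain ⟨h1, h2⟩ := hh
    by_contra hcon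
    have h3 : n₀ ≤ len h := by
      have : ¬ len h ≤ n₀ := hcon
      omega
    have := hgrow h (win_ne hg h1) h3
    linarith
  set H : Finset (RW G) := hfin.toFinset with hH
  have hmemH : ∀ h, h ∈ H ↔ Pre g h ∧ FF P h < B := by
    intro h; rw [hH, Set.Finite.mem_toFinset]; rfl
  set D : Finset (RW G × T) := (H ×ˢ Finset.univ).filter
    (fun q => len (q.1 * sr q.2) = len q.1 + 1 ∧ B ≤ FF P (q.1 * sr q.2)) with hD
  refine ⟨D.image fun q => q.1 * sr q.2, ?_, ?_, n₀, ?_⟩
  · intro h hh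
    rw [Finset.mem_image] at hh
    obtain ⟨q, hq, rfl⟩ := hh
    rw [hD, Finset.mem_filter] at hq
    refine ⟨?_, hq.2.2⟩
    intro h1
    have h2 := hq.2.1
    rw [h1, len_one] at h2
    omega
  · -- the sum
    have hpos : ∀ x : RW G, 0 ≤ FF P x := by
      intro x
      by_cases hx : x = 1
      · rw [hx, FF_one]
      · exact le_trans (by norm_num) (two_le_FF P hx)
    have s1 : ∑ h ∈ D.image (fun q => q.1 * sr q.2), FF P h ^ (-p) ≤
        ∑ q ∈ D, FF P (q.1 * sr q.2) ^ (-p) :=
      win_sum_image D (fun q => q.1 * sr q.2) (fun h => FF P h ^ (-p))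
        fun q _ => Real.rpow_nonneg (hpos _) _
    have s2 : ∑ q ∈ D, FF P (q.1 * sr q.2) ^ (-p) ≤
        ∑ h ∈ H, 4 * Cp * B ^ (1 - p) * (FF P h)⁻¹ := by
      have e1 : ∑ q ∈ D, FF P (q.1 * sr q.2) ^ (-p) = ∑ h ∈ H,
          ∑ s ∈ Finset.univ.filter
            (fun s => len (h * sr s) = len h + 1 ∧ B ≤ FF P (h * sr s)),
            FF P (h * sr s) ^ (-p) := by
        rw [hD, Finset.sum_filter, Finset.sum_product]
        refine Finset.sum_congr rfl fun h _ => ?_
        rw [Finset.sum_filter]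
      rw [e1]
      refine Finset.sum_le_sum fun h hh => ?_
      have hh' := (hmemH h).mp hh
      exact win_letters P hS hP hp (win_ne hg hh'.1) hh'.2 _
        fun s hs => (Finset.mem_filter.mp hs).2.2
    -- the sum over the descendants
    have hgH : g ∈ H := (hmemH g).mpr ⟨win_pre_refl g, hgB⟩
    have s3 : ∑ h ∈ H, FF P g / FF P h ≤ 8001 * Cp * K := by
      rw [← Finset.add_sum_erase H _ hgH, div_self hFg.ne']
      have hinj : ∑ y ∈ (H.erase g).image (fun h => g⁻¹ * h), FF P g / FF P (g * y) =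
          ∑ h ∈ H.erase g, FF P g / FF P h := by
        rw [Finset.sum_image (fun a _ b _ hab => mul_left_cancel hab)]
        refine Finset.sum_congr rfl fun h _ => ?_
        rw [mul_inv_cancel_left]
      have h1 := outsum P hS hκ0 hP (by linarith : (1 : ℝ) ≤ K) hκ hg
        ((H.erase g).image (fun h => g⁻¹ * h)) (by
          intro y hy
          rw [Finset.mem_image] at hy
          obtain ⟨h, hh, rfl⟩ := hy
          rw [Finset.mem_erase] at hh
          have hh' := (hmemH h).mp hh.2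
          refine ⟨?_, ?_, ?_⟩
          · intro h0
            exact hh.1 (inv_mul_eq_one.mp h0).symm
          · rw [mul_inv_cancel_left]
            exact hh'.1.symm
          · rw [mul_inv_cancel_left]
            exact hh'.2.le)
      rw [hinj] at h1
      have h2 : 1 ≤ Cp * K := by nlinarith
      linarith
    have s4 : ∑ h ∈ H, 4 * Cp * B ^ (1 - p) * (FF P h)⁻¹ =
        4 * Cp * B ^ (1 - p) * (FF P g)⁻¹ * ∑ h ∈ H, FF P g / FF P h := by
      rw [Finset.mul_sum]
      refine Finset.sum_congr rfl fun h _ => ?_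
      field_simp
    have s5 : B ^ (1 - p) * (FF P g)⁻¹ * K = K ^ (2 - p) * FF P g ^ (-p) := by
      rw [hB, Real.mul_rpow hK0.le hFg.le]
      have e1 : K ^ (2 - p) = K ^ (1 - p) * K := by
        have : (2 - p : ℝ) = (1 - p) + 1 := by ring
        rw [this, Real.rpow_add hK0, Real.rpow_one]
      have e2 : FF P g ^ (-p) = FF P g ^ (1 - p) * (FF P g)⁻¹ := by
        rw [← Real.rpow_neg_one (FF P g), ← Real.rpow_add hFg]
        congr 1; ring
      rw [e1, e2]; ring
    have hX : 0 ≤ K ^ (2 - p) * FF P g ^ (-p) :=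
      mul_nonneg (Real.rpow_nonneg hK0.le _) (Real.rpow_nonneg hFg.le _)
    calc ∑ h ∈ D.image (fun q => q.1 * sr q.2), FF P h ^ (-p)
        ≤ ∑ h ∈ H, 4 * Cp * B ^ (1 - p) * (FF P h)⁻¹ := s1.trans s2
      _ = 4 * Cp * B ^ (1 - p) * (FF P g)⁻¹ * ∑ h ∈ H, FF P g / FF P h := s4
      _ ≤ 4 * Cp * B ^ (1 - p) * (FF P g)⁻¹ * (8001 * Cp * K) := by
          apply mul_le_mul_of_nonneg_left s3
          have : 0 ≤ B ^ (1 - p) := Real.rpow_nonneg hB0.le _
          positivity
      _ = 32004 * Cp ^ 2 * (B ^ (1 - p) * (FF P g)⁻¹ * K) := by ring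
      _ = 32004 * Cp ^ 2 * (K ^ (2 - p) * FF P g ^ (-p)) := by rw [s5]
      _ ≤ 100000 * Cp ^ 2 * (K ^ (2 - p) * FF P g ^ (-p)) := by
          apply mul_le_mul_of_nonneg_right _ hX
          nlinarith [sq_nonneg Cp]
      _ = 100000 * Cp ^ 2 * K ^ (2 - p) * FF P g ^ (-p) := by ring
  · -- every long element with prefix `g` has a prefix in `W`
    have key : ∀ n : ℕ, ∀ x : RW G, Pre g x → len x = len g + n → B ≤ FF P x →
        ∃ h ∈ D.image (fun q => q.1 * sr q.2), Pre h x := by
      intro n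
      induction n with
      | zero =>
        intro x hx hn hBx
        exfalso
        unfold Pre at hx
        have h1 : len (g⁻¹ * x) = 0 := by omega
        have h2 : x = g := (inv_mul_eq_one.mp (len_eq_zero.mp h1)).symm
        rw [h2] at hBx
        linarith
      | succ n ih =>
        intro x hx hn hBx
        have hx' := hx
        unfold Pre at hx'
        have hy : len (g⁻¹ * x) = n + 1 := by omega
        obtain ⟨y₁, y₂, hy12, hl1, hl2⟩ := exists_split (g⁻¹ * x) n (by omega)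
        have hl2' : len y₂ = 1 := by omega
        have hxe : x = (g * y₁) * y₂ := by
          rw [mul_assoc, ← hy12, mul_inv_cancel_left]
        have hlen : len (g * y₁) = len g + n := by
          have h1 := len_mul_le g y₁
          have h2 := len_mul_le (g * y₁) y₂
          rw [← hxe] at h2
          omega
        have hpre : Pre g (g * y₁) := by
          unfold Pre
          rw [inv_mul_cancel_left, hl1, hlen]
        have hadd : len ((g * y₁) * y₂) = len (g * y₁) + len y₂ := by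
          rw [← hxe]; omega
        by_cases hc : B ≤ FF P (g * y₁)
        · obtain ⟨h, hh, hph⟩ := ih _ hpre hlen hc
          refine ⟨h, hh, ?_⟩
          rw [hxe]
          exact win_pre_trans hph hadd
        · obtain ⟨s, hs⟩ := win_len_one hl2'
          refine ⟨x, ?_, win_pre_refl x⟩
          rw [Finset.mem_image]
          refine ⟨(g * y₁, s), ?_, ?_⟩
          · rw [hD, Finset.mem_filter]
            refine ⟨Finset.mem_product.mpr ⟨(hmemH _).mpr ⟨hpre, lt_of_not_ge hc⟩,
              Finset.mem_univ _⟩, ?_, ?_⟩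
            · simp only
              rw [← hs, hadd, hl2']
            · simp only
              rw [← hs, ← hxe]
              exact hBx
          · simp only
            rw [← hs, ← hxe]
    intro x hx hlx
    have hx1 : x ≠ 1 := win_ne hg hx
    have h1 : len x = len g + (len x - len g) := by
      have hx' := hx
      unfold Pre at hx'
      omega
    exact key _ x hx h1 (hgrow x hx1 hlx)

end

end PS
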